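import Mathlib

set_option autoImplicit false

namespace Pool.Agent.Helper34.Bw

open Complex Metric Set Filter Topology MeasureTheory

/-- A continuity modulus: a continuous, non-decreasing, positive function on `(0,1)`. -/
structure IsModulus (ω : ℝ → ℝ) : Prop where
  continuousOn : ContinuousOn ω (Set.Ioo 0 1)
  monotoneOn : MonotoneOn ω (Set.Ioo 0 1)
  pos : ∀ t ∈ Set.Ioo (0 : ℝ) 1, 0 < ω t

/-- `f ∈ B_ω`: `f` is analytic in the open unit disc and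
`|f'(z)| (1 - |z|) = O(ω(1 - |z|))` as `|z| → 1`. -/
def InB (ω : ℝ → ℝ) (f : ℂ → ℂ) : Prop :=
  DifferentiableOn ℂ f (ball 0 1) ∧
    ∃ C r : ℝ, r < 1 ∧ ∀ z : ℂ, r < ‖z‖ → ‖z‖ < 1 → ‖deriv f z‖ * (1 - ‖z‖) ≤ C * ω (1 - ‖z‖)

/-- `Θ` is an inner function: a bounded analytic function on the open unit disc whose radial
limits exist and have modulus `1` at almost every point `e^{iθ}` of the circle. -/
def IsInner (Θ : ℂ → ℂ) : Prop :=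
  DifferentiableOn ℂ Θ (ball 0 1) ∧ (∃ M : ℝ, ∀ z ∈ ball (0 : ℂ) 1, ‖Θ z‖ ≤ M) ∧
    ∀ᵐ θ : ℝ, ∃ w : ℂ, ‖w‖ = 1 ∧
      Tendsto (fun r : ℝ => Θ (r * exp (θ * I))) (𝓝[<] 1) (𝓝 w)

/-- `S_ε(f, Θ) < ∞`: the quotient `|f(z)| / ω(1 - |z|)` is bounded over the points `z ≠ 0` of the
open unit disc with `|Θ(z)| < ε`. -/
def SFinite (ω : ℝ → ℝ) (f Θ : ℂ → ℂ) (ε : ℝ) : Prop :=
  ∃ C : ℝ, ∀ z : ℂ, z ≠ 0 → ‖z‖ < 1 → ‖Θ z‖ < ε → ‖f z‖ / ω (1 - ‖z‖) ≤ C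

/-- `ω(t)/t` is almost decreasing on `(0, 1/2]`. -/
def AlmostDecreasing (ω : ℝ → ℝ) : Prop :=
  ∃ C : ℝ, ∀ s t : ℝ, 0 < s → s ≤ t → t ≤ 1 / 2 → ω t / t ≤ C * (ω s / s)

/-- Dini regularity: `∫_0^t ω(s)/s ds ≤ C ω(t)` for `t ∈ (0, 1/2]`. -/
def DiniRegular (ω : ℝ → ℝ) : Prop :=
  ∃ C : ℝ, ∀ t : ℝ, 0 < t → t ≤ 1 / 2 →
    IntegrableOn (fun s => ω s / s) (Set.Ioc 0 t) ∧ ∫ s in Set.Ioc 0 t, ω s / s ≤ C * ω t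

end Pool.Agent.Helper34.Bw
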