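import Mathlib

set_option autoImplicit false

namespace Pool.Agent.Helper34.Bw

open Complex Metric Set Filter Topology ComplexConjugate MeasureTheory

instance fact2pi : Fact (0 < 2 * Real.pi) := ⟨by positivity⟩

lemma span_fourier_form (p : C(AddCircle (2 * Real.pi), ℂ))
    (hp : p ∈ Submodule.span ℂ (range (@fourier (2 * Real.pi)))) :
    ∃ L₁ L₂ : Polynomial ℂ, ∀ x : AddCircle (2 * Real.pi),
      p x = L₁.eval (x.toCircle : ℂ) + conj (L₂.eval (x.toCircle : ℂ)) := by
  induction hp using Submodule.span_induction with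
  | mem p hp =>
    obtain ⟨n, rfl⟩ := hp
    obtain ⟨m, rfl | rfl⟩ := n.eq_nat_or_neg
    · refine ⟨Polynomial.X ^ m, 0, fun x => ?_⟩
      rw [fourier_apply]
      simp [AddCircle.toCircle_nsmul]
    · refine ⟨0, Polynomial.X ^ m, fun x => ?_⟩
      rw [fourier_apply]
      simp [AddCircle.toCircle_neg, AddCircle.toCircle_nsmul, ← Circle.coe_inv_eq_conj]
  | zero => exact ⟨0, 0, fun x => by simp⟩
  | add p q _ _ hp hq =>
    obtain ⟨P₁, P₂, hP⟩ := hp
    obtain ⟨Q₁, Q₂, hQ⟩ := hq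
    refine ⟨P₁ + Q₁, P₂ + Q₂, fun x => ?_⟩
    rw [ContinuousMap.add_apply, hP, hQ, Polynomial.eval_add, Polynomial.eval_add, map_add]
    ring
  | smul c p _ hp =>
    obtain ⟨P₁, P₂, hP⟩ := hp
    refine ⟨Polynomial.C c * P₁, Polynomial.C (conj c) * P₂, fun x => ?_⟩
    rw [ContinuousMap.smul_apply, hP, Polynomial.eval_mul, Polynomial.eval_C, Polynomial.eval_mul,
      Polynomial.eval_C, map_mul, Complex.conj_conj, smul_eq_mul]
    ring

lemma exists_entire_re {g : ℂ → ℝ} (hg : ContinuousOn g (sphere 0 1)) {η : ℝ} (hη : 0 < η) :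
    ∃ L : ℂ → ℂ, Differentiable ℂ L ∧ ∀ ζ : ℂ, ‖ζ‖ = 1 → |(L ζ).re - g ζ| ≤ η := by
  let G : C(AddCircle (2 * Real.pi), ℂ) :=
    ⟨fun x => ((g (x.toCircle : ℂ) : ℝ) : ℂ), by
      have h1 : Continuous fun x : AddCircle (2 * Real.pi) => (x.toCircle : ℂ) :=
        continuous_induced_dom.comp AddCircle.continuous_toCircle
      have h2 : Continuous fun x : AddCircle (2 * Real.pi) => g (x.toCircle : ℂ) :=
        hg.comp_continuous h1 (fun x => by rw [mem_sphere_zero_iff_norm]; exact Circle.norm_coe _)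
      exact Complex.continuous_ofReal.comp h2⟩
  have hG : G ∈ (Submodule.span ℂ (range (@fourier (2 * Real.pi)))).topologicalClosure := by
    rw [span_fourier_closure_eq_top]; trivial
  have hG' : G ∈ closure ((Submodule.span ℂ (range (@fourier (2 * Real.pi))) :
      Submodule ℂ C(AddCircle (2 * Real.pi), ℂ)) : Set C(AddCircle (2 * Real.pi), ℂ)) := hG
  rw [Metric.mem_closure_iff] at hG'
  obtain ⟨p, hp, hpd⟩ := hG' η hη
  obtain ⟨L₁, L₂, hL⟩ := span_fourier_form p hp
  refine ⟨fun z => L₁.eval z + L₂.eval z, L₁.differentiable.add L₂.differentiable, ?_⟩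
  intro ζ hζ
  -- ζ = toCircle of its argument
  have hx : (AddCircle.toCircle ((Complex.arg ζ : ℝ) : AddCircle (2 * Real.pi)) : ℂ) = ζ := by
    rw [AddCircle.toCircle_apply_mk, Circle.coe_exp]
    have h1 : 2 * Real.pi / (2 * Real.pi) * Complex.arg ζ = Complex.arg ζ := by
      rw [div_self (by positivity), one_mul]
    rw [h1]
    have := Complex.norm_mul_exp_arg_mul_I ζ
    rw [hζ, Complex.ofReal_one, one_mul] at this
    exact this
  set x : AddCircle (2 * Real.pi) := ((Complex.arg ζ : ℝ) : AddCircle (2 * Real.pi)) with hxdef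
  have h1 : dist (G x) (p x) ≤ dist G p := ContinuousMap.dist_apply_le_dist x
  have h2 : (p x).re = (L₁.eval ζ + L₂.eval ζ).re := by
    rw [hL x, hx, Complex.add_re, Complex.add_re, Complex.conj_re]
  have h3 : (G x).re = g ζ := by
    change (((g (x.toCircle : ℂ) : ℝ) : ℂ)).re = g ζ
    rw [Complex.ofReal_re, hx]
  have h4 : |(p x).re - (G x).re| ≤ dist (G x) (p x) := by
    rw [dist_comm, dist_eq_norm, ← Complex.sub_re]
    exact Complex.abs_re_le_norm _
  show |(L₁.eval ζ + L₂.eval ζ).re - g ζ| ≤ η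
  rw [← h2, ← h3]
  linarith

/-- even version -/
lemma exists_entire_re_even {g : ℂ → ℝ} (hg : ContinuousOn g (sphere 0 1))
    (hge : ∀ z, g (-z) = g z) {η : ℝ} (hη : 0 < η) :
    ∃ L : ℂ → ℂ, Differentiable ℂ L ∧ (∀ z, L (-z) = L z) ∧
      ∀ ζ : ℂ, ‖ζ‖ = 1 → |(L ζ).re - g ζ| ≤ η := by
  obtain ⟨L, hL, h⟩ := exists_entire_re hg hη
  refine ⟨fun z => (L z + L (-z)) / 2, ?_, ?_, ?_⟩
  · exact (hL.add (hL.comp differentiable_neg)).div_const 2
  · intro z; simp only [neg_neg]; ring
  · intro ζ hζ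
    have h1 := h ζ hζ
    have h2 := h (-ζ) (by rw [norm_neg]; exact hζ)
    rw [hge] at h2
    have h3 : ((L ζ + L (-ζ)) / 2).re = ((L ζ).re + (L (-ζ)).re) / 2 := by
      rw [Complex.div_ofNat_re, Complex.add_re]
    rw [h3, abs_le]
    rw [abs_le] at h1 h2
    constructor <;> linarith [h1.1, h1.2, h2.1, h2.2]

/-- Riemann–Lebesgue on the circle -/
lemma tendsto_osc (f : ℝ → ℂ) :
    Tendsto (fun n : ℕ => ∫ θ in (0:ℝ)..(2 * Real.pi), exp (n * θ * I) * f θ) atTop (𝓝 0) := by
  have h1 := Real.tendsto_integral_exp_smul_cocompact ((Ioc 0 (2 * Real.pi)).indicator f)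
  have h2 : Tendsto (fun n : ℕ => -(n : ℝ) / (2 * Real.pi)) atTop (cocompact ℝ) := by
    have h3 : Tendsto (fun n : ℕ => -((n : ℝ) / (2 * Real.pi))) atTop atBot :=
      tendsto_neg_atTop_atBot.comp
        (tendsto_natCast_atTop_atTop.atTop_div_const (by positivity))
    have h4 : Tendsto (fun n : ℕ => -(n : ℝ) / (2 * Real.pi)) atTop atBot := by
      simpa only [neg_div] using h3
    exact h4.mono_right atBot_le_cocompact
  have h3 := h1.comp h2
  refine h3.congr (fun n => ?_)
  simp only [Function.comp]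
  rw [intervalIntegral.integral_of_le (by positivity), ← integral_indicator measurableSet_Ioc]
  congr 1
  funext v
  by_cases hv : v ∈ Ioc 0 (2 * Real.pi)
  · rw [indicator_of_mem hv, indicator_of_mem hv, Circle.smul_def, smul_eq_mul,
      Real.fourierChar_apply]
    congr 2
    have : (2 * (Real.pi : ℂ)) ≠ 0 := by
      have := Real.pi_ne_zero
      exact_mod_cast mul_ne_zero two_ne_zero this
    push_cast
    field_simp
  · rw [indicator_of_notMem hv, indicator_of_notMem hv, smul_zero]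

end Pool.Agent.Helper34.Bw
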