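import Pool.Agent.Helper34.Bw.Suff

set_option autoImplicit false

namespace Pool.Agent.Helper34.Bw

open Complex Metric Set Filter Topology MeasureTheory

variable {ω : ℝ → ℝ}

/-- a power bound near `0` extends to `(0, 1/2]` -/
lemma power_extend (hω : IsModulus ω) {γ C τ : ℝ} (hγ : 0 < γ) (hC : 1 ≤ C) (hτ0 : 0 < τ) (hτ1 : τ ≤ 1/2)
    (h : ∀ s t, 0 < s → s ≤ t → t ≤ τ → ω s ≤ C * ω t * (s/t)^γ) :
    ∀ s t, 0 < s → s ≤ t → t ≤ 1/2 → ω s ≤ (C * (1/τ)^γ) * ω t * (s/t)^γ := by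
  have hτγ : 1 ≤ (1/τ)^γ := Real.one_le_rpow (by rw [le_div_iff₀ hτ0]; linarith) hγ.le
  intro s t hs hst ht
  have ht0 : 0 < t := by linarith
  have hωt := hω.pos' ht0 (by linarith : t < 1)
  have hωs := hω.pos' hs (by linarith : s < 1)
  by_cases h1 : t ≤ τ
  · refine (h s t hs hst h1).trans ?_
    have h2 : 0 ≤ ω t * (s/t)^γ := by positivity
    have h3 : C ≤ C * (1/τ)^γ := by nlinarith
    calc C * ω t * (s/t)^γ = C * (ω t * (s/t)^γ) := by ring
      _ ≤ (C * (1/τ)^γ) * (ω t * (s/t)^γ) := mul_le_mul_of_nonneg_right h3 h2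
      _ = _ := by ring
  · push Not at h1
    by_cases h2 : s ≤ τ
    · have h3 := h s τ hs h2 le_rfl
      have h4 : ω τ ≤ ω t := hω.mono' hτ0 h1.le (by linarith)
      have h5 : (s/τ)^γ = (t/τ)^γ * (s/t)^γ := by
        rw [← Real.mul_rpow (by positivity) (by positivity)]
        congr 1
        field_simp
      have h6 : (t/τ)^γ ≤ (1/τ)^γ := by
        apply Real.rpow_le_rpow (by positivity) _ hγ.le
        exact div_le_div_of_nonneg_right (by linarith) hτ0.le
      have h7 : 0 ≤ (s/t)^γ := by positivity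
      have hωτ := hω.pos' hτ0 (by linarith : τ < 1)
      calc ω s ≤ C * ω τ * (s/τ)^γ := h3
        _ = (C * (s/t)^γ) * (ω τ * (t/τ)^γ) := by rw [h5]; ring
        _ ≤ (C * (s/t)^γ) * (ω t * (1/τ)^γ) := by
            apply mul_le_mul_of_nonneg_left _ (by positivity)
            exact mul_le_mul h4 h6 (by positivity) hωt.le
        _ = _ := by ring
    · push Not at h2
      have h3 : ω s ≤ ω t := hω.mono' hs hst (by linarith)
      have h4 : τ ≤ s / t := by
        rw [le_div_iff₀ ht0]; nlinarith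
      have h5 : 1 ≤ (1/τ)^γ * (s/t)^γ := by
        rw [← Real.mul_rpow (by positivity) (by positivity)]
        apply Real.one_le_rpow _ hγ.le
        rw [one_div, ← div_eq_inv_mul, le_div_iff₀ hτ0]
        linarith
      calc ω s ≤ ω t := h3
        _ = ω t * 1 := by ring
        _ ≤ ω t * ((1/τ)^γ * (s/t)^γ) := mul_le_mul_of_nonneg_left h5 hωt.le
        _ = 1 * (ω t * ((1/τ)^γ * (s/t)^γ)) := by ring
        _ ≤ C * (ω t * ((1/τ)^γ * (s/t)^γ)) := mul_le_mul_of_nonneg_right hC (by positivity)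
        _ = _ := by ring

/-- a power bound implies Dini regularity -/
lemma dini_of_power (hω : IsModulus ω) {γ C τ : ℝ} (hγ : 0 < γ) (hC : 1 ≤ C) (hτ0 : 0 < τ)
    (hτ1 : τ ≤ 1/2) (h : ∀ s t, 0 < s → s ≤ t → t ≤ τ → ω s ≤ C * ω t * (s/t)^γ) :
    DiniRegular ω := by
  have hE := power_extend hω hγ hC hτ0 hτ1 h
  set C' := C * (1/τ)^γ with hC'
  have hC'0 : 0 ≤ C' := by positivity
  refine ⟨C' / γ, fun t ht0 ht1 => ?_⟩
  have hωt := hω.pos' ht0 (by linarith : t < 1)
  have hint : IntegrableOn (fun s : ℝ => C' * ω t * t^(-γ) * s^(γ-1)) (Ioc 0 t) := by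
    have h1 : IntervalIntegrable (fun s : ℝ => s^(γ-1)) volume 0 t :=
      intervalIntegral.intervalIntegrable_rpow' (by linarith)
    rw [intervalIntegrable_iff_integrableOn_Ioc_of_le ht0.le] at h1
    exact h1.const_mul _
  have hpt : ∀ s ∈ Ioc 0 t, ω s / s ≤ C' * ω t * t^(-γ) * s^(γ-1) := by
    intro s hs
    rw [div_le_iff₀ hs.1]
    refine (hE s t hs.1 hs.2 ht1).trans (le_of_eq ?_)
    rw [Real.div_rpow hs.1.le ht0.le, Real.rpow_neg ht0.le, Real.rpow_sub_one hs.1.ne']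
    have := hs.1.ne'
    field_simp
  have hnn : ∀ s ∈ Ioc 0 t, 0 ≤ ω s / s := by
    intro s hs
    exact div_nonneg (hω.pos' hs.1 (by linarith [hs.2])).le hs.1.le
  have hmeas : AEStronglyMeasurable (fun s => ω s / s) (volume.restrict (Ioc 0 t)) := by
    apply ContinuousOn.aestronglyMeasurable _ measurableSet_Ioc
    apply ContinuousOn.div
    · exact hω.continuousOn.mono (fun s hs => ⟨hs.1, by linarith [hs.2]⟩)
    · exact continuousOn_id
    · intro s hs; exact hs.1.ne'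
  have hI : IntegrableOn (fun s => ω s / s) (Ioc 0 t) := by
    refine Integrable.mono' hint hmeas ?_
    rw [ae_restrict_iff' measurableSet_Ioc]
    filter_upwards with s hs
    rw [Real.norm_eq_abs, abs_of_nonneg (hnn s hs)]
    exact hpt s hs
  refine ⟨hI, ?_⟩
  calc ∫ s in Ioc 0 t, ω s / s ≤ ∫ s in Ioc 0 t, C' * ω t * t^(-γ) * s^(γ-1) :=
        setIntegral_mono_on hI hint measurableSet_Ioc hpt
    _ = C' * ω t * t^(-γ) * ∫ s in (0:ℝ)..t, s^(γ-1) := by
        rw [integral_const_mul, intervalIntegral.integral_of_le ht0.le]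
    _ = C' / γ * ω t := by
        rw [integral_rpow (Or.inl (by linarith))]
        rw [sub_add_cancel, Real.zero_rpow hγ.ne', sub_zero, Real.rpow_neg ht0.le]
        have h1 : t^γ ≠ 0 := (Real.rpow_pos_of_pos ht0 γ).ne'
        field_simp

lemma plateau_of_not_dini (hω : IsModulus ω) (hD : ¬ DiniRegular ω) {K : ℝ} (hK : 1 < K) {τ : ℝ}
    (hτ : 0 < τ) : ∃ δ, 0 < δ ∧ δ < τ ∧ ω δ ≤ 2 * ω (δ / K) := by
  by_contra hcon
  push Not at hcon
  apply hD
  have hK0 : 0 < K := by linarith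
  set τ' : ℝ := min (τ/2) (1/2) with hτ'
  have hτ'0 : 0 < τ' := lt_min (by linarith) (by norm_num)
  have hτ'1 : τ' ≤ 1/2 := min_le_right _ _
  have hτ'2 : τ' < τ := lt_of_le_of_lt (min_le_left _ _) (by linarith)
  have hlogK : 0 < Real.log K := Real.log_pos hK
  set γ : ℝ := Real.log 2 / Real.log K with hγ
  have hγ0 : 0 < γ := div_pos (Real.log_pos (by norm_num)) hlogK
  have hKγ : K^γ = 2 := by
    rw [Real.rpow_def_of_pos hK0, hγ, mul_div_cancel₀ _ hlogK.ne', Real.exp_log (by norm_num)]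
  apply dini_of_power hω hγ0 (C := 2) (by norm_num) hτ'0 hτ'1
  intro s t hs hst ht
  have ht0 : 0 < t := by linarith
  obtain ⟨n, hn1, hn2⟩ := exists_nat_pow_near (x := t/s) (y := K)
    (by rw [le_div_iff₀ hs]; linarith) hK
  have hit : ∀ n : ℕ, ω (t / K^n) * 2^n ≤ ω t := by
    intro n
    induction n with
    | zero => simp
    | succ n ih =>
      have hKn : 0 < K^n := by positivity
      have hKn1 : 1 ≤ K^n := one_le_pow₀ hK.le
      have h1 : t / K^n ≤ t := div_le_self ht0.le hKn1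
      have h2 := hcon (t / K^n) (by positivity) (by linarith)
      have h3 : t / K^(n+1) = t / K^n / K := by rw [pow_succ, div_div]
      rw [h3, pow_succ]
      have h4 : (0:ℝ) < 2^n := by positivity
      nlinarith
  have h1 : s ≤ t / K^n := by
    rw [le_div_iff₀ (by positivity)]
    rw [le_div_iff₀ hs] at hn1
    linarith
  have h2 : ω s ≤ ω (t / K^n) := by
    apply hω.mono' hs h1
    have : t / K^n ≤ t := div_le_self ht0.le (one_le_pow₀ hK.le)
    linarith
  have h3 : (t/s)^γ ≤ 2 * 2^n := by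
    have h4 : (t/s)^γ ≤ (K^(n+1))^γ := Real.rpow_le_rpow (by positivity) hn2.le hγ0.le
    have h5 : ((K^(n+1) : ℝ))^γ = 2^(n+1) := by
      rw [← Real.rpow_natCast, ← Real.rpow_mul hK0.le, mul_comm, Real.rpow_mul hK0.le, hKγ,
        Real.rpow_natCast]
    rw [h5] at h4
    rw [← pow_succ']; exact h4
  have h6 : (s/t)^γ * (t/s)^γ = 1 := by
    rw [← Real.mul_rpow (by positivity) (by positivity)]
    rw [show s/t * (t/s) = 1 by field_simp, Real.one_rpow]
  have h7 : 0 < (s/t)^γ := by positivity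
  have h8 : 1 ≤ 2 * 2^n * (s/t)^γ := by
    rw [← h6]
    have := mul_le_mul_of_nonneg_left h3 h7.le
    linarith
  have h9 := hit n
  have h10 : 0 ≤ ω s := (hω.pos' hs (by linarith)).le
  calc ω s = ω s * 1 := by ring
    _ ≤ ω s * (2 * 2^n * (s/t)^γ) := mul_le_mul_of_nonneg_left h8 h10
    _ = 2 * (ω s * 2^n) * (s/t)^γ := by ring
    _ ≤ 2 * (ω (t / K^n) * 2^n) * (s/t)^γ := by
        apply mul_le_mul_of_nonneg_right _ h7.le
        apply mul_le_mul_of_nonneg_left _ (by norm_num)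
        exact mul_le_mul_of_nonneg_right h2 (by positivity)
    _ ≤ 2 * ω t * (s/t)^γ := by
        apply mul_le_mul_of_nonneg_right _ h7.le
        linarith

lemma slope_of_not_dini (hω : IsModulus ω) (hD : ¬ DiniRegular ω) (hA : AlmostDecreasing ω) (N : ℝ) :
    ∃ τ > 0, ∀ t, 0 < t → t < τ → N ≤ ω t / t := by
  obtain ⟨Ca, hCa⟩ := hA
  by_contra hcon
  push Not at hcon
  apply hD
  have hpos : ∀ t : ℝ, 0 < t → t ≤ 1/2 → 0 < ω t / t := fun t h1 h2 =>
    div_pos (hω.pos' h1 (by linarith)) h1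
  have hCa1 : 1 ≤ Ca := by
    have h1 := hCa (1/2) (1/2) (by norm_num) le_rfl le_rfl
    have h2 := hpos (1/2) (by norm_num) le_rfl
    by_contra h3
    push Not at h3
    nlinarith
  have hb : ∀ s, 0 < s → s ≤ 1/2 → ω s / s ≤ Ca * N := by
    intro s hs0 hs1
    obtain ⟨t, ht0, hts, htN⟩ := hcon s hs0
    refine (hCa t s ht0 hts.le hs1).trans ?_
    exact mul_le_mul_of_nonneg_left htN.le (by linarith)
  have hN : 0 < Ca * N := lt_of_lt_of_le (hpos (1/2) (by norm_num) le_rfl) (hb (1/2) (by norm_num) le_rfl)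
  set c := ω (1/2) / (1/2) with hc
  have hc0 : 0 < c := hpos (1/2) (by norm_num) le_rfl
  have hlow : ∀ t, 0 < t → t ≤ 1/2 → c ≤ Ca * (ω t / t) := fun t h1 h2 => hCa t (1/2) h1 h2 le_rfl
  apply dini_of_power hω (γ := 1) (C := max 1 (Ca * N * Ca / c)) (τ := 1/2) one_pos (le_max_left _ _)
    (by norm_num) le_rfl
  intro s t hs hst ht
  have ht0 : 0 < t := by linarith
  rw [Real.rpow_one]
  have h1 := hb s hs (by linarith)
  rw [div_le_iff₀ hs] at h1
  have h2 := hlow t ht0 ht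
  have h3 : Ca * N * Ca / c * ω t * (s/t) ≤ max 1 (Ca * N * Ca / c) * ω t * (s/t) := by
    apply mul_le_mul_of_nonneg_right _ (by positivity)
    exact mul_le_mul_of_nonneg_right (le_max_right _ _) (hω.pos' ht0 (by linarith)).le
  refine le_trans ?_ h3
  calc ω s ≤ Ca * N * s := h1
    _ = Ca * N * s / c * c := by field_simp
    _ ≤ Ca * N * s / c * (Ca * (ω t / t)) := mul_le_mul_of_nonneg_left h2 (by positivity)
    _ = _ := by field_simp

end Pool.Agent.Helper34.Bw
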