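import Mathlib

set_option autoImplicit false

namespace Pool.Agent.Helper34.Bw

/-- Recursive choice of a sequence. -/
theorem exists_seq_strong {α : Type*} [Inhabited α] (P : ℕ → α → Prop)
    (R : ℕ → α → ℕ → α → Prop)
    (h : ∀ n (g : ℕ → α), (∀ m < n, P m (g m)) → ∃ y, P n y ∧ ∀ m < n, R m (g m) n y) :
    ∃ f : ℕ → α, (∀ n, P n (f n)) ∧ ∀ m n, m < n → R m (f m) n (f n) := by
  classical
  let F : ℕ → (ℕ → α) → α := fun n g =>
    if hg : ∀ m < n, P m (g m) then Classical.choose (h n g hg) else default
  let G : (n : ℕ) → ((m : ℕ) → m < n → α) → α := fun n ih =>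
    F n (fun m => if hm : m < n then ih m hm else default)
  let f : ℕ → α := fun n => Nat.strongRec (motive := fun _ => α) G n
  have hf : ∀ n, f n = F n (fun m => if m < n then f m else default) := by
    intro n
    show Nat.strongRec (motive := fun _ => α) G n = _
    rw [Nat.strongRec_eq]
    rfl
  have key : ∀ n, P n (f n) ∧ ∀ m < n, R m (f m) n (f n) := by
    intro n
    induction n using Nat.strong_induction_on with
    | _ n ih =>
      have hg : ∀ m < n, P m ((fun m => if m < n then f m else default) m) := by
        intro m hm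
        simp only [hm, if_true]
        exact (ih m hm).1
      have hs := Classical.choose_spec (h n _ hg)
      have hfn : f n = Classical.choose (h n _ hg) := by
        rw [hf n]
        simp only [F]
        rw [dif_pos hg]
      rw [hfn]
      refine ⟨hs.1, fun m hm => ?_⟩
      have := hs.2 m hm
      simpa only [hm, if_true] using this
  exact ⟨f, fun n => (key n).1, fun m n hmn => (key n).2 m hmn⟩

lemma exists_pos_le (n : ℕ) (x : ℕ → ℝ) (hx : ∀ m < n, 0 < x m) :
    ∃ τ > 0, ∀ m < n, τ ≤ x m := by
  induction n with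
  | zero => exact ⟨1, one_pos, fun m hm => absurd hm (Nat.not_lt_zero m)⟩
  | succ n ih =>
    obtain ⟨τ, hτ, h⟩ := ih (fun m hm => hx m (by omega))
    refine ⟨min τ (x n), lt_min hτ (hx n (by omega)), fun m hm => ?_⟩
    rcases Nat.lt_succ_iff_lt_or_eq.1 hm with h1 | h1
    · exact (min_le_left _ _).trans (h m h1)
    · rw [h1]; exact min_le_right _ _

end Pool.Agent.Helper34.Bw
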