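import Pool.Agent.Helper34.Bw.Prod
import Pool.Agent.Helper34.Bw.Seq

set_option autoImplicit false

namespace Pool.Agent.Helper34.Bw

open Complex Metric Set Filter Topology ComplexConjugate

lemma den_ge_a {a z : ℂ} (hz : ‖z‖ ≤ 1) : 1 - ‖a‖ ≤ ‖1 - conj a * z‖ := by
  have := norm_sub_norm_le (1:ℂ) (conj a * z)
  rw [norm_one, norm_mul, RCLike.norm_conj] at this
  nlinarith [norm_nonneg a]

lemma den_ge_z {a z : ℂ} (ha : ‖a‖ ≤ 1) : 1 - ‖z‖ ≤ ‖1 - conj a * z‖ := by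
  have := norm_sub_norm_le (1:ℂ) (conj a * z)
  rw [norm_one, norm_mul, RCLike.norm_conj] at this
  nlinarith [norm_nonneg z]

lemma one_sub_sq_le (x : ℝ) : 1 - x^2 ≤ 2 * (1 - x) := by nlinarith [sq_nonneg (1 - x)]

lemma one_sub_mob_le_left {a z : ℂ} (ha : ‖a‖ < 1) (hz : ‖z‖ < 1) :
    1 - ‖mob a z‖^2 ≤ 4 * ((1 - ‖z‖) / (1 - ‖a‖)) := by
  rw [one_sub_normSq_mob ha hz.le]
  have h1 := den_ge_a (a := a) hz.le
  have hδ : 0 < 1 - ‖a‖ := by linarith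
  have ht : 0 < 1 - ‖z‖ := by linarith
  have h2 : (1 - ‖a‖)^2 ≤ ‖1 - conj a * z‖^2 := by
    apply pow_le_pow_left₀ hδ.le h1
  calc (1 - ‖a‖^2) * (1 - ‖z‖^2) / ‖1 - conj a * z‖^2
      ≤ (2 * (1 - ‖a‖)) * (2 * (1 - ‖z‖)) / (1 - ‖a‖)^2 := by
        apply div_le_div₀ (by positivity) _ (by positivity) h2
        apply mul_le_mul (one_sub_sq_le _) (one_sub_sq_le _)
          (by nlinarith [norm_nonneg z]) (by positivity)
    _ = 4 * ((1 - ‖z‖) / (1 - ‖a‖)) := by field_simp; ring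

lemma one_sub_mob_le_right {a z : ℂ} (ha : ‖a‖ < 1) (hz : ‖z‖ < 1) :
    1 - ‖mob a z‖^2 ≤ 4 * ((1 - ‖a‖) / (1 - ‖z‖)) := by
  rw [one_sub_normSq_mob ha hz.le]
  have h1 := den_ge_z (z := z) ha.le
  have hδ : 0 < 1 - ‖a‖ := by linarith
  have ht : 0 < 1 - ‖z‖ := by linarith
  have h2 : (1 - ‖z‖)^2 ≤ ‖1 - conj a * z‖^2 := by
    apply pow_le_pow_left₀ ht.le h1
  calc (1 - ‖a‖^2) * (1 - ‖z‖^2) / ‖1 - conj a * z‖^2
      ≤ (2 * (1 - ‖a‖)) * (2 * (1 - ‖z‖)) / (1 - ‖z‖)^2 := by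
        apply div_le_div₀ (by positivity) _ (by positivity) h2
        apply mul_le_mul (one_sub_sq_le _) (one_sub_sq_le _)
          (by nlinarith [norm_nonneg z]) (by positivity)
    _ = 4 * ((1 - ‖a‖) / (1 - ‖z‖)) := by field_simp; ring

lemma off_window {a z : ℂ} (ha : ‖a‖ < 1) (hz : ‖z‖ < 1) {K : ℝ} (hK : 0 < K)
    (h : ¬ ((1 - ‖a‖) / K ≤ 1 - ‖z‖ ∧ 1 - ‖z‖ ≤ K * (1 - ‖a‖))) :
    1 - ‖mob a z‖^2 ≤ 4 / K := by
  have hδ : 0 < 1 - ‖a‖ := by linarith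
  have ht : 0 < 1 - ‖z‖ := by linarith
  rw [not_and_or] at h
  rcases h with h | h
  · push Not at h
    refine (one_sub_mob_le_left ha hz).trans ?_
    rw [lt_div_iff₀ hK] at h
    rw [mul_div_assoc', div_le_div_iff₀ hδ hK]
    nlinarith
  · push Not at h
    refine (one_sub_mob_le_right ha hz).trans ?_
    rw [mul_div_assoc', div_le_div_iff₀ ht hK]
    nlinarith

/-- windows around `δ n` -/
lemma window_unique {δ K : ℕ → ℝ} (hK : ∀ n, 0 < K n)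
    (hsep : ∀ m n, m < n → K m * K n * δ n < δ m) (t : ℝ) :
    ∃ k, ∀ n, n ≠ k → ¬ (δ n / K n ≤ t ∧ t ≤ K n * δ n) := by
  by_cases h : ∃ k, δ k / K k ≤ t ∧ t ≤ K k * δ k
  · obtain ⟨k, hk1, hk2⟩ := h
    refine ⟨k, fun n hn ⟨h1, h2⟩ => ?_⟩
    rcases lt_or_gt_of_ne hn with h3 | h3
    · have := hsep n k h3
      have h4 : δ n / K n ≤ K k * δ k := h1.trans hk2
      rw [div_le_iff₀ (hK n)] at h4
      nlinarith
    · have := hsep k n h3
      have h4 : δ k / K k ≤ K n * δ n := hk1.trans h2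
      rw [div_le_iff₀ (hK k)] at h4
      nlinarith
  · push Not at h
    exact ⟨0, fun n _ ⟨h1, h2⟩ => absurd h2 (not_le.2 (h n h1))⟩

/-- for `t = δ k` the exceptional index is `k` -/
lemma window_self {δ K : ℕ → ℝ} (hδ : ∀ n, 0 < δ n) (hK : ∀ n, 1 ≤ K n)
    (hsep : ∀ m n, m < n → K m * K n * δ n < δ m) (k : ℕ) :
    ∀ n, n ≠ k → ¬ (δ n / K n ≤ δ k ∧ δ k ≤ K n * δ n) := by
  rintro n hn ⟨h1, h2⟩
  have hKn : 0 < K n := by linarith [hK n]
  rw [div_le_iff₀ hKn] at h1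
  rcases lt_or_gt_of_ne hn with h3 | h3
  · have := hsep n k h3
    have h5 : K n * δ k ≤ K n * K k * δ k := by
      apply mul_le_mul_of_nonneg_right _ (hδ k).le
      nlinarith [hK k]
    linarith
  · have := hsep k n h3
    have h5 : K n * δ n ≤ K k * K n * δ n := by
      apply mul_le_mul_of_nonneg_right _ (hδ n).le
      nlinarith [hK k]
    linarith

/-- normalised Blaschke factor with zero `ρ u`, `|u| = 1` -/
noncomputable def bfac (u a z : ℂ) : ℂ := -(conj u) * mob a z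

lemma norm_bfac {u a z : ℂ} (hu : ‖u‖ = 1) : ‖bfac u a z‖ = ‖mob a z‖ := by
  rw [bfac, norm_mul, norm_neg, RCLike.norm_conj, hu, one_mul]

lemma bfac_sub_one {u z : ℂ} (hu : ‖u‖ = 1) {ρ : ℝ} (hρ0 : 0 ≤ ρ) (hρ1 : ρ < 1) (hz : ‖z‖ ≤ 1)
    (hz1 : z ≠ 1) : ‖bfac u (ρ * u) z - 1‖ ≤
      (2 * ((1 - ρ) + ‖1 - ρ * u‖)) / ‖1 - z‖ := by
  set a : ℂ := ρ * u with ha
  have han : ‖a‖ = ρ := by
    rw [ha, norm_mul, hu, mul_one, Complex.norm_real, Real.norm_eq_abs, abs_of_nonneg hρ0]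
  have ha1 : ‖a‖ < 1 := by rw [han]; exact hρ1
  have h0 := den_ne ha1 hz
  have hcu : conj u * u = 1 := by
    rw [mul_comm, Complex.mul_conj, Complex.normSq_eq_norm_sq, hu]; simp
  have h1 : bfac u a z - 1 = -((((1 - ρ : ℝ) : ℂ)) * ((1 + conj u * z) / (1 - conj a * z))) := by
    have h5 : bfac u a z - 1 = (-(conj u) * (z - a) - (1 - conj a * z)) / (1 - conj a * z) := by
      rw [sub_div, div_self h0, mul_div_assoc]; rfl
    rw [h5, mul_div_assoc', ← neg_div]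
    congr 1
    rw [ha, map_mul, Complex.conj_ofReal]
    push_cast
    linear_combination ((ρ : ℂ)) * hcu
  have hden := den_ge_a (a := a) hz
  have hdpos : 0 < 1 - ‖a‖ := by linarith
  have hd0 : 0 < ‖1 - conj a * z‖ := by linarith
  have hnum : ‖1 + conj u * z‖ ≤ 2 := by
    refine (norm_add_le _ _).trans ?_
    rw [norm_one, norm_mul, RCLike.norm_conj, hu, one_mul]
    linarith
  have h2 : ‖bfac u a z - 1‖ ≤ (1 - ρ) * (2 / ‖1 - conj a * z‖) := by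
    rw [h1, norm_neg, norm_mul, Complex.norm_real, Real.norm_eq_abs, abs_of_pos (by linarith),
      norm_div]
    apply mul_le_mul_of_nonneg_left _ (by linarith)
    exact div_le_div_of_nonneg_right hnum hd0.le
  have h3 : ‖1 - z‖ ≤ ‖1 - conj a * z‖ + ‖1 - a‖ := by
    have h4 : 1 - z = (1 - conj a * z) - conj (1 - a) * z := by
      rw [map_sub, map_one]; ring
    calc ‖1 - z‖ = ‖(1 - conj a * z) - conj (1 - a) * z‖ := by rw [← h4]
      _ ≤ ‖1 - conj a * z‖ + ‖conj (1 - a) * z‖ := norm_sub_le _ _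
      _ ≤ ‖1 - conj a * z‖ + ‖1 - a‖ := by
          rw [norm_mul, RCLike.norm_conj]
          nlinarith [norm_nonneg (1 - a)]
  refine h2.trans ?_
  rw [mul_div_assoc', div_le_div_iff₀ hd0 (ne_one_norm_pos hz1)]
  rw [han] at hden
  nlinarith [norm_nonneg (1 - a), norm_nonneg (1 - z)]

end Pool.Agent.Helper34.Bw
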