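import Pool.Agent.Helper34.Bw.Local2
import Pool.Agent.Helper34.Bw.DiniFail
import Pool.Agent.Helper34.Bw.Window

set_option autoImplicit false

namespace Pool.Agent.Helper34.Bw

open Complex Metric Set Filter Topology ComplexConjugate MeasureTheory

lemma LD.Bsub {A : ℝ} {g B : ℂ → ℂ} {L : ℝ} (h : LD A g B L) {u v : ℂ} (hu : ‖u‖ ≤ 1) (hv : ‖v‖ ≤ 1) :
    ‖B u - B v‖ ≤ L * ‖u - v‖ := by
  have hconv : Convex ℝ (closedBall (0:ℂ) 1) := convex_closedBall _ _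
  exact hconv.norm_image_sub_le_of_norm_deriv_le (𝕜 := ℂ) (f := B) (C := L)
    (x := v) (y := u) (fun w hw => h.Bdiff w (by simpa using hw))
    (fun w hw => h.Bder w (by simpa using hw)) (by simpa using hv) (by simpa using hu)

lemma LD.gsub {A : ℝ} {g B : ℂ → ℂ} {L : ℝ} (h : LD A g B L) {u v : ℂ} (hu : ‖u‖ ≤ 1) (hv : ‖v‖ ≤ 1) :
    ‖g u - g v‖ ≤ L * ‖u - v‖ := by
  have hconv : Convex ℝ (closedBall (0:ℂ) 1) := convex_closedBall _ _
  exact hconv.norm_image_sub_le_of_norm_deriv_le (𝕜 := ℂ) (f := g) (C := L)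
    (x := v) (y := u) (fun w _ => h.gdiff w)
    (fun w hw => h.gder w (by simpa using hw)) (by simpa using hv) (by simpa using hu)

lemma LD.one_sub_B {A : ℝ} {g B : ℂ → ℂ} {L : ℝ} (h : LD A g B L) {w : ℂ} (hw : ‖w‖ ≤ 1) :
    1 - ‖B w‖ ≤ L * (1 - ‖w‖^2) := by
  have h0 : 0 ≤ L := by linarith [h.L1]
  have hsq : 1 - ‖w‖ ≤ 1 - ‖w‖^2 := by nlinarith [norm_nonneg w]
  obtain ⟨u, hu, huw⟩ : ∃ u : ℂ, ‖u‖ = 1 ∧ ‖u - w‖ = 1 - ‖w‖ := by
    by_cases hw0 : w = 0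
    · exact ⟨1, by simp, by simp [hw0]⟩
    · have hwp : 0 < ‖w‖ := norm_pos_iff.2 hw0
      have hwne : (‖w‖ : ℂ) ≠ 0 := by exact_mod_cast hwp.ne'
      refine ⟨w / ‖w‖, ?_, ?_⟩
      · rw [norm_div, Complex.norm_real, norm_norm, div_self hwp.ne']
      · have : w / ‖w‖ - w = (w / ‖w‖) * (((1 - ‖w‖ : ℝ)) : ℂ) := by
          push_cast; field_simp
        rw [this, norm_mul, norm_div, Complex.norm_real, norm_norm, div_self hwp.ne', one_mul,
          Complex.norm_real, Real.norm_eq_abs, abs_of_nonneg (by linarith)]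
  have h1 := h.Bsub hu.le hw
  rw [huw] at h1
  have h2 := norm_sub_norm_le (B u) (B w)
  rw [h.Beq u hu] at h2
  calc 1 - ‖B w‖ ≤ L * (1 - ‖w‖) := h2.trans h1
    _ ≤ L * (1 - ‖w‖^2) := mul_le_mul_of_nonneg_left hsq h0

/-- the centre `1 - δ` -/
noncomputable def cn (δ : ℝ) : ℂ := ((1 - δ : ℝ) : ℂ)

lemma norm_cn {δ : ℝ} (h1 : δ ≤ 1) : ‖cn δ‖ = 1 - δ := by
  rw [cn, Complex.norm_real, Real.norm_eq_abs, abs_of_nonneg (by linarith)]

lemma conj_cn (δ : ℝ) : conj (cn δ) = cn δ := Complex.conj_ofReal _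

lemma one_sub_cn (δ : ℝ) : 1 - cn δ = (δ : ℂ) := by unfold cn; push_cast; ring

lemma cn_den {δ : ℝ} (h0 : 0 < δ) (h1 : δ ≤ 1) {z : ℂ} (hz : ‖z‖ ≤ 1) :
    δ ≤ ‖1 - cn δ * z‖ ∧ 1 - ‖z‖ ≤ ‖1 - cn δ * z‖ := by
  have e1 := den_ge_a (a := cn δ) hz
  have e2 := den_ge_z (a := cn δ) (z := z) (by rw [norm_cn h1]; linarith)
  rw [conj_cn, norm_cn h1] at e1
  rw [conj_cn] at e2
  exact ⟨by linarith, e2⟩

lemma one_add_mob_cn {δ : ℝ} (h0 : 0 < δ) (h1 : δ ≤ 1) {z : ℂ} (hz : ‖z‖ ≤ 1) :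
    ‖mob (cn δ) z - (-1)‖ ≤ 2 * δ / ‖1 - cn δ * z‖ := by
  have hd := (cn_den h0 h1 hz).1
  have hd0 : 0 < ‖1 - cn δ * z‖ := by linarith
  have hne : 1 - cn δ * z ≠ 0 := norm_pos_iff.1 hd0
  have h2 : mob (cn δ) z - (-1) = (δ : ℂ) * (1 + z) / (1 - cn δ * z) := by
    rw [mob, conj_cn, sub_neg_eq_add, div_add_one hne, ← one_sub_cn]
    congr 1
    ring
  rw [h2, norm_div, norm_mul, Complex.norm_real, Real.norm_eq_abs, abs_of_pos h0]
  apply div_le_div_of_nonneg_right _ hd0.le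
  have h3 : ‖1 + z‖ ≤ 2 := (norm_add_le _ _).trans (by rw [norm_one]; linarith)
  nlinarith

lemma one_sub_mob_cn {δ : ℝ} (h0 : 0 < δ) (h1 : δ ≤ 1) {z : ℂ} (hz : ‖z‖ ≤ 1) :
    ‖mob (cn δ) z - 1‖ ≤ 2 * ‖1 - z‖ / ‖1 - cn δ * z‖ := by
  have hd := (cn_den h0 h1 hz).1
  have hd0 : 0 < ‖1 - cn δ * z‖ := by linarith
  have hne : 1 - cn δ * z ≠ 0 := norm_pos_iff.1 hd0
  have h2 : mob (cn δ) z - 1 = -((1 + cn δ) * (1 - z) / (1 - cn δ * z)) := by
    rw [mob, conj_cn, div_sub_one hne, ← neg_div]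
    congr 1
    ring
  rw [h2, norm_neg, norm_div, norm_mul]
  apply div_le_div_of_nonneg_right _ hd0.le
  have h3 : ‖1 + cn δ‖ ≤ 2 := (norm_add_le _ _).trans (by rw [norm_one, norm_cn h1]; linarith)
  exact mul_le_mul_of_nonneg_right h3 (norm_nonneg _)

lemma one_sub_le_cn {δ : ℝ} (h0 : 0 < δ) (h1 : δ ≤ 1) {z : ℂ} (hz : ‖z‖ ≤ 1) :
    ‖1 - z‖ ≤ 2 * ‖1 - cn δ * z‖ := by
  have hd := (cn_den h0 h1 hz).1
  have h2 : 1 - z = (1 - cn δ * z) - (δ : ℂ) * z := by rw [← one_sub_cn]; ring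
  calc ‖1 - z‖ = ‖(1 - cn δ * z) - (δ : ℂ) * z‖ := by rw [← h2]
    _ ≤ ‖1 - cn δ * z‖ + ‖(δ : ℂ) * z‖ := norm_sub_le _ _
    _ ≤ ‖1 - cn δ * z‖ + δ := by
        rw [norm_mul, Complex.norm_real, Real.norm_eq_abs, abs_of_pos h0]
        nlinarith
    _ ≤ _ := by linarith

/-- The global data. -/
structure GD (ω : ℝ → ℝ) (Ca : ℝ) (A : ℕ → ℝ) (g B : ℕ → ℂ → ℂ) (L δ : ℕ → ℝ) : Prop where
  mod : IsModulus ω
  Ca1 : 1 ≤ Ca
  ad : ∀ s t, 0 < s → s ≤ t → t ≤ 1/2 → ω t / t ≤ Ca * (ω s / s)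
  ld : ∀ n, LD (A n) (g n) (B n) (L n)
  δ0 : ∀ n, 0 < δ n
  δ1 : ∀ n, δ n ≤ 1/4
  Lδ : ∀ n, L n * δ n ≤ (1/2)^n
  plateau : ∀ n, ω (δ n) ≤ 2 * ω (δ n / (16 * L n * 2^n))
  sep : ∀ m n, m < n → (16 * L m * 2^m) * (16 * L n * 2^n) * δ n < δ m
  big : ∀ m n, m < n → 16 * ω (δ m) * L m * L n * 2^(m+1) / δ m ≤ ω (δ n) / δ n

/-- the width of the window -/
noncomputable def KK (L : ℕ → ℝ) (n : ℕ) : ℝ := 16 * L n * 2^n

/-- the inner function -/
noncomputable def TH (B : ℕ → ℂ → ℂ) (δ : ℕ → ℝ) : ℂ → ℂ := bprod (fun n z => B n (mob (cn (δ n)) z))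

/-- the terms of the outer sum -/
noncomputable def hh (ω : ℝ → ℝ) (g : ℕ → ℂ → ℂ) (δ : ℕ → ℝ) (n : ℕ) (z : ℂ) : ℂ :=
  (ω (δ n) : ℂ) * (g n (mob (cn (δ n)) z) - g n 1)

/-- the function `f` -/
noncomputable def FF (ω : ℝ → ℝ) (g : ℕ → ℂ → ℂ) (δ : ℕ → ℝ) (z : ℂ) : ℂ := ∑' n, hh ω g δ n z

variable {ω : ℝ → ℝ} {Ca : ℝ} {A : ℕ → ℝ} {g B : ℕ → ℂ → ℂ} {L δ : ℕ → ℝ}

lemma GD.cn_lt (h : GD ω Ca A g B L δ) (n : ℕ) : ‖cn (δ n)‖ < 1 := by
  rw [norm_cn (by linarith [h.δ1 n])]; linarith [h.δ0 n]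

lemma GD.Lpos (h : GD ω Ca A g B L δ) (n : ℕ) : 0 < L n := by linarith [(h.ld n).L1]

lemma GD.K16 (h : GD ω Ca A g B L δ) (n : ℕ) : 16 ≤ KK L n := by
  have h1 := (h.ld n).L1
  have h2 : (1:ℝ) ≤ 2^n := one_le_pow₀ (by norm_num)
  unfold KK
  nlinarith

lemma GD.wpos (h : GD ω Ca A g B L δ) (n : ℕ) : 0 < ω (δ n) :=
  h.mod.pos' (h.δ0 n) (by linarith [h.δ1 n])

lemma GD.wle (h : GD ω Ca A g B L δ) (n : ℕ) : ω (δ n) ≤ ω (1/4) :=
  h.mod.mono' (h.δ0 n) (h.δ1 n) (by norm_num)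

lemma GD.anti (h : GD ω Ca A g B L δ) {m n : ℕ} (hmn : m < n) : δ n ≤ δ m := by
  have h1 := h.sep m n hmn
  have h2 := h.K16 m
  have h3 := h.K16 n
  unfold KK at h2 h3
  have h4 := h.δ0 n
  have h5 : 1 ≤ (16 * L m * 2^m) * (16 * L n * 2^n) := by nlinarith
  nlinarith

/-- facts at a scale -/
lemma GD.small (h : GD ω Ca A g B L δ) {n : ℕ} {z : ℂ} (hz : ‖z‖ < 1)
    (hoff : ¬ (δ n / KK L n ≤ 1 - ‖z‖ ∧ 1 - ‖z‖ ≤ KK L n * δ n)) :
    L n * (1 - ‖mob (cn (δ n)) z‖^2) ≤ (1/4) * (1/2)^n := by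
  have hK := h.K16 n
  have hK0 : 0 < KK L n := by linarith
  have hn : 1 - ‖cn (δ n)‖ = δ n := by rw [norm_cn (by linarith [h.δ1 n])]; ring
  have h1 := off_window (h.cn_lt n) hz hK0 (by rw [hn]; exact hoff)
  calc L n * (1 - ‖mob (cn (δ n)) z‖^2) ≤ L n * (4 / KK L n) :=
        mul_le_mul_of_nonneg_left h1 (h.Lpos n).le
    _ = (1/4) * (1/2)^n := by
        unfold KK
        have := (h.Lpos n).ne'
        rw [one_div_pow]
        field_simp
        norm_num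

lemma GD.fs (h : GD ω Ca A g B L δ) :
    FS (fun n z => B n (mob (cn (δ n)) z)) (fun n => 4 * (L n * δ n)) := by
  refine ⟨?_, ?_, ?_, ?_, ?_, ?_⟩
  · intro n z hz
    exact ((h.ld n).Bdiff _ (norm_mob_le (h.cn_lt n) hz)).comp z (differentiableAt_mob (h.cn_lt n) hz)
  · intro n z hz
    exact (h.ld n).Ble _ (norm_mob_le (h.cn_lt n) hz)
  · intro n z hz
    exact (h.ld n).Beq _ (norm_mob_eq_one (h.cn_lt n) hz)
  · intro n z hz hz1
    have h0 := h.δ0 n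
    have h1' : δ n ≤ 1 := by linarith [h.δ1 n]
    have h1 := (h.ld n).Bsub (u := mob (cn (δ n)) z) (v := -1) (norm_mob_le (h.cn_lt n) hz) (by simp)
    rw [(h.ld n).Bone] at h1
    refine h1.trans ?_
    have h2 := one_add_mob_cn h0 h1' hz
    have h3 := one_sub_le_cn h0 h1' hz
    have hd := (cn_den h0 h1' hz).1
    have hp := ne_one_norm_pos hz1
    have hL := h.Lpos n
    calc L n * ‖mob (cn (δ n)) z - (-1)‖ ≤ L n * (2 * δ n / ‖1 - cn (δ n) * z‖) :=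
          mul_le_mul_of_nonneg_left h2 hL.le
      _ ≤ L n * (2 * δ n / (‖1 - z‖/2)) := by
          apply mul_le_mul_of_nonneg_left _ hL.le
          apply div_le_div_of_nonneg_left (by positivity) (by positivity)
          linarith
      _ = 4 * (L n * δ n) / ‖1 - z‖ := by field_simp; norm_num
  · intro n
    have := h.δ0 n
    have := h.Lpos n
    positivity
  · apply Summable.of_nonneg_of_le (g := fun n => 4 * (L n * δ n)) (f := fun n => 4 * (1/2:ℝ)^n)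
    · intro n
      have := h.δ0 n
      have := h.Lpos n
      positivity
    · intro n
      exact mul_le_mul_of_nonneg_left (h.Lδ n) (by norm_num)
    · exact (summable_geometric_of_lt_one (by norm_num) (by norm_num)).mul_left 4

lemma hasSum_quarter : HasSum (fun n : ℕ => (1/4:ℝ) * (1/2)^n) (1/2) := by
  have := (hasSum_geometric_of_lt_one (r := (1/2:ℝ)) (by norm_num) (by norm_num)).mul_left (1/4:ℝ)
  have e : (1/4:ℝ) * (1 - 1/2)⁻¹ = 1/2 := by norm_num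
  rw [e] at this
  exact this

lemma GD.theta_small (h : GD ω Ca A g B L δ) {z : ℂ} (hz : ‖z‖ < 1)
    (hT : ‖TH B δ z‖ < Real.exp (-10) / 2) : ∃ k, ‖B k (mob (cn (δ k)) z)‖ < Real.exp (-10) := by
  obtain ⟨k, hk⟩ := window_unique (δ := δ) (K := KK L) (fun n => by linarith [h.K16 n]) h.sep (1 - ‖z‖)
  refine ⟨k, ?_⟩
  by_contra hcon
  push Not at hcon
  have hz1 : z ≠ 1 := by rintro rfl; simp at hz
  have h1 := h.fs.lower' hz.le hz1 (x := fun n => (1/4:ℝ) * (1/2)^n) (S := 1/2)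
    (q := Real.exp (-10)) (fun n => by positivity) (fun n => by
      have : (1/2:ℝ)^n ≤ 1 := pow_le_one₀ (by norm_num) (by norm_num)
      linarith) hasSum_quarter k (fun n hn => by
        have h2 := (h.ld n).one_sub_B (norm_mob_lt (h.cn_lt n) hz).le
        have h3 := h.small hz (hk n hn)
        linarith) (by norm_num) hcon
  unfold TH at hT
  linarith

/-- terms of the sum near the point `cn (δ k)` -/
lemma GD.term_le (h : GD ω Ca A g B L δ) {k n : ℕ} (hn : n ≠ k) {z : ℂ} (hz : ‖z‖ < 1)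
    (h1 : ‖1 - z‖ ≤ 8 * L k * δ k) (h2 : δ k / (4 * L k) ≤ 1 - ‖z‖) :
    ‖hh ω g δ n z‖ ≤ ω (δ k) * ((1/2) * (1/2)^n) := by
  have hδn := h.δ0 n
  have hδk := h.δ0 k
  have hδn1 : δ n ≤ 1 := by linarith [h.δ1 n]
  have hLn := h.Lpos n
  have hLk := h.Lpos k
  have hwn := h.wpos n
  have hwk := h.wpos k
  have hmz := (norm_mob_lt (h.cn_lt n) hz).le
  have hd := cn_den hδn hδn1 hz.le
  rw [hh, norm_mul, Complex.norm_real, Real.norm_eq_abs, abs_of_pos hwn]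
  rcases lt_or_gt_of_ne hn with hlt | hlt
  · -- `n < k`
    have e1 := (h.ld n).gsub (u := mob (cn (δ n)) z) (v := 1) hmz (by simp)
    have e2 := one_sub_mob_cn hδn hδn1 hz.le
    have e3 : 2 * ‖1 - z‖ / ‖1 - cn (δ n) * z‖ ≤ 2 * (8 * L k * δ k) / δ n := by
      apply div_le_div₀ (by positivity) (by linarith) hδn hd.1
    have e4 : ‖g n (mob (cn (δ n)) z) - g n 1‖ ≤ L n * (2 * (8 * L k * δ k) / δ n) :=
      e1.trans (mul_le_mul_of_nonneg_left (e2.trans e3) hLn.le)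
    have e5 := h.big n k hlt
    rw [div_le_div_iff₀ hδn hδk] at e5
    refine (mul_le_mul_of_nonneg_left e4 hwn.le).trans ?_
    have e6 : ω (δ k) * (1/2 * (1/2)^n) = ω (δ k) / 2^(n+1) := by
      rw [one_div_pow, pow_succ]; field_simp
    rw [e6, le_div_iff₀ (by positivity)]
    have e7 : ω (δ n) * (L n * (2 * (8 * L k * δ k) / δ n)) * 2^(n+1) =
        (16 * ω (δ n) * L n * L k * 2^(n+1) * δ k) / δ n := by
      field_simp; ring
    rw [e7, div_le_iff₀ hδn]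
    exact e5
  · -- `k < n`
    have e1 := (h.ld n).gsub (u := mob (cn (δ n)) z) (v := -1) hmz (by simp)
    rw [(h.ld n).geven] at e1
    have e2 := one_add_mob_cn hδn hδn1 hz.le
    have hq : 0 < δ k / (4 * L k) := by positivity
    have e3 : 2 * δ n / ‖1 - cn (δ n) * z‖ ≤ 2 * δ n / (δ k / (4 * L k)) := by
      apply div_le_div_of_nonneg_left (by positivity) hq
      linarith [hd.2]
    have e4 : ‖g n (mob (cn (δ n)) z) - g n 1‖ ≤ L n * (2 * δ n / (δ k / (4 * L k))) :=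
      e1.trans (mul_le_mul_of_nonneg_left (e2.trans e3) hLn.le)
    have e5 := h.sep k n hlt
    have e6 : ω (δ n) ≤ ω (δ k) := h.mod.mono' hδn (h.anti hlt) (by linarith [h.δ1 k])
    have e7 : L n * (2 * δ n / (δ k / (4 * L k))) ≤ (1/2) * (1/2)^n := by
      have e8 : L n * (2 * δ n / (δ k / (4 * L k))) = 8 * L n * L k * δ n / δ k := by
        field_simp; ring
      have e9 : (1/2:ℝ) * (1/2)^n = 1 / (2 * 2^n) := by rw [one_div_pow]; field_simp
      rw [e8, e9, div_le_div_iff₀ hδk (by positivity)]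
      have e10 : (1:ℝ) ≤ 2^k := one_le_pow₀ (by norm_num)
      have e11 : 8 * L n * L k * δ n * (2 * 2^n) ≤ (16 * L k * 2^k) * (16 * L n * 2^n) * δ n := by
        have e12 : (16 * L k * 2^k) * (16 * L n * 2^n) * δ n =
            (8 * L n * L k * δ n * (2 * 2^n)) * (16 * 2^k) := by ring
        rw [e12]
        have e13 : 0 < 8 * L n * L k * δ n * (2 * 2^n) := by positivity
        nlinarith
      linarith
    exact mul_le_mul e6 (e4.trans e7) (norm_nonneg _) hwk.le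

/-- uniform bound of the terms -/
lemma GD.term_unif (h : GD ω Ca A g B L δ) (n : ℕ) {z : ℂ} {r : ℝ} (hr : r < 1) (hz : ‖z‖ < r) :
    ‖hh ω g δ n z‖ ≤ (2 * ω (1/4) / (1 - r)) * (1/2)^n := by
  have hz1 : ‖z‖ < 1 := by linarith
  have hδn := h.δ0 n
  have hδn1 : δ n ≤ 1 := by linarith [h.δ1 n]
  have hLn := h.Lpos n
  have hwn := h.wpos n
  have hmz := (norm_mob_lt (h.cn_lt n) hz1).le
  have hd := cn_den hδn hδn1 hz1.le
  have hr' : 0 < 1 - r := by linarith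
  rw [hh, norm_mul, Complex.norm_real, Real.norm_eq_abs, abs_of_pos hwn]
  have e1 := (h.ld n).gsub (u := mob (cn (δ n)) z) (v := -1) hmz (by simp)
  rw [(h.ld n).geven] at e1
  have e2 := one_add_mob_cn hδn hδn1 hz1.le
  have e3 : 2 * δ n / ‖1 - cn (δ n) * z‖ ≤ 2 * δ n / (1 - r) := by
    apply div_le_div_of_nonneg_left (by positivity) hr'
    linarith [hd.2]
  have e4 : ‖g n (mob (cn (δ n)) z) - g n 1‖ ≤ L n * (2 * δ n / (1 - r)) :=
    e1.trans (mul_le_mul_of_nonneg_left (e2.trans e3) hLn.le)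
  have e5 : L n * (2 * δ n / (1 - r)) = (2 / (1 - r)) * (L n * δ n) := by ring
  rw [e5] at e4
  have e6 : ‖g n (mob (cn (δ n)) z) - g n 1‖ ≤ (2 / (1 - r)) * (1/2)^n :=
    e4.trans (mul_le_mul_of_nonneg_left (h.Lδ n) (by positivity))
  calc ω (δ n) * ‖g n (mob (cn (δ n)) z) - g n 1‖
      ≤ ω (1/4) * ((2 / (1 - r)) * (1/2)^n) :=
        mul_le_mul (h.wle n) e6 (norm_nonneg _) (hwn.le.trans (h.wle n))
    _ = _ := by ring

lemma GD.summ (h : GD ω Ca A g B L δ) {z : ℂ} (hz : ‖z‖ < 1) : Summable (fun n => hh ω g δ n z) := by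
  obtain ⟨r, hzr, hr1⟩ := exists_between hz
  apply Summable.of_norm_bounded (g := fun n => (2 * ω (1/4) / (1 - r)) * (1/2)^n)
  · exact (summable_geometric_of_lt_one (by norm_num) (by norm_num)).mul_left _
  · intro n
    exact h.term_unif n hr1 hzr

lemma GD.hdiff (h : GD ω Ca A g B L δ) (n : ℕ) : DifferentiableOn ℂ (hh ω g δ n) (ball 0 1) := by
  intro z hz
  rw [mem_ball_zero_iff] at hz
  apply DifferentiableAt.differentiableWithinAt
  exact ((((h.ld n).gdiff _).comp z (differentiableAt_mob (h.cn_lt n) hz.le)).sub_const _).const_mul _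

lemma GD.FFdiff (h : GD ω Ca A g B L δ) : DifferentiableOn ℂ (FF ω g δ) (ball 0 1) := by
  intro z hz
  rw [mem_ball_zero_iff] at hz
  obtain ⟨r, hzr, hr1⟩ := exists_between hz
  have h1 : DifferentiableOn ℂ (FF ω g δ) (ball 0 r) := by
    apply differentiableOn_tsum_of_summable_norm (u := fun n => (2 * ω (1/4) / (1 - r)) * (1/2)^n)
    · exact (summable_geometric_of_lt_one (by norm_num) (by norm_num)).mul_left _
    · intro n
      exact (h.hdiff n).mono (ball_subset_ball hr1.le)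
    · exact isOpen_ball
    · intro n w hw
      exact h.term_unif n hr1 (by simpa using hw)
  exact (h1.differentiableAt (isOpen_ball.mem_nhds (by simpa using hzr))).differentiableWithinAt

lemma GD.FFderiv (h : GD ω Ca A g B L δ) {z : ℂ} (hz : ‖z‖ < 1) :
    HasSum (fun n => deriv (hh ω g δ n) z) (deriv (FF ω g δ) z) := by
  obtain ⟨r, hzr, hr1⟩ := exists_between hz
  apply hasSum_deriv_of_summable_norm (u := fun n => (2 * ω (1/4) / (1 - r)) * (1/2)^n)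
    (U := ball (0:ℂ) r)
  · exact (summable_geometric_of_lt_one (by norm_num) (by norm_num)).mul_left _
  · intro n
    exact (h.hdiff n).mono (ball_subset_ball hr1.le)
  · exact isOpen_ball
  · intro n w hw
    exact h.term_unif n hr1 (by simpa using hw)
  · simpa using hzr

end Pool.Agent.Helper34.Bw
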