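import Pool.Agent.Helper34.Bw.Glue

set_option autoImplicit false

namespace Pool.Agent.Helper34.Bw

open Complex Metric Set Filter Topology ComplexConjugate MeasureTheory

variable {ω : ℝ → ℝ} {Ca : ℝ} {A : ℕ → ℝ} {g B : ℕ → ℂ → ℂ} {L δ : ℕ → ℝ}

lemma hasSum_half (c : ℝ) : HasSum (fun n : ℕ => c * ((1/2) * (1/2)^n)) c := by
  have := ((hasSum_geometric_of_lt_one (r := (1/2:ℝ)) (by norm_num) (by norm_num)).mul_left
    (1/2:ℝ)).mul_left c
  have e : c * ((1/2:ℝ) * (1 - 1/2)⁻¹) = c := by norm_num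
  rw [e] at this
  exact this

lemma hasSum_two (c : ℝ) : HasSum (fun n : ℕ => c * (1/2)^n) (2 * c) := by
  have := (hasSum_geometric_of_lt_one (r := (1/2:ℝ)) (by norm_num) (by norm_num)).mul_left c
  have e : c * (1 - 1/2)⁻¹ = 2 * c := by norm_num; ring
  rw [e] at this
  exact this

lemma GD.near_k (h : GD ω Ca A g B L δ) {k : ℕ} {z : ℂ} (hz : ‖z‖ < 1)
    (h1 : ‖1 - z‖ ≤ 8 * L k * δ k) (h2 : δ k / (4 * L k) ≤ 1 - ‖z‖) :
    ‖FF ω g δ z - hh ω g δ k z‖ ≤ ω (δ k) := by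
  have e1 : HasSum (fun n => hh ω g δ n z) (FF ω g δ z) := (h.summ hz).hasSum
  have e2 := e1.sub (hasSum_ite_eq k (hh ω g δ k z))
  apply e2.norm_le_of_bounded (hasSum_half (ω (δ k)))
  intro n
  by_cases hn : n = k
  · subst hn
    simp only [if_true, sub_self, norm_zero]
    have := h.wpos n
    positivity
  · simp only [hn, if_false, sub_zero]
    exact h.term_le hn hz h1 h2

lemma GD.hder (h : GD ω Ca A g B L δ) (n : ℕ) {z : ℂ} (hz : ‖z‖ < 1) :
    (1 - ‖z‖^2) * ‖deriv (hh ω g δ n) z‖ =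
      ω (δ n) * ((1 - ‖mob (cn (δ n)) z‖^2) * ‖deriv (g n) (mob (cn (δ n)) z)‖) := by
  have h1 := (((h.ld n).gdiff (mob (cn (δ n)) z)).hasDerivAt.comp z
    (differentiableAt_mob (h.cn_lt n) hz.le).hasDerivAt)
  have h2 : deriv (hh ω g δ n) z = (ω (δ n) : ℂ) *
      (deriv (g n) (mob (cn (δ n)) z) * deriv (mob (cn (δ n))) z) :=
    ((h1.sub_const (g n 1)).const_mul (ω (δ n) : ℂ)).deriv
  rw [h2, norm_mul, norm_mul, Complex.norm_real, Real.norm_eq_abs, abs_of_pos (h.wpos n),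
    ← schwarz_mob (h.cn_lt n) hz.le]
  ring

lemma GD.FFinB (h : GD ω Ca A g B L δ) : InB ω (FF ω g δ) := by
  refine ⟨h.FFdiff, 2 + 2 * Ca, 0, one_pos, fun z hz0 hz => ?_⟩
  set t : ℝ := 1 - ‖z‖ with ht
  have ht0 : 0 < t := by rw [ht]; linarith
  have ht1 : t < 1 := by rw [ht]; linarith
  have hωt := h.mod.pos' ht0 ht1
  have hCa := h.Ca1
  obtain ⟨k, hk⟩ := window_unique (δ := δ) (K := KK L) (fun n => by linarith [h.K16 n]) h.sep t
  have hsq : 0 ≤ 1 - ‖z‖^2 := by nlinarith [norm_nonneg z]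
  -- the off-window bound
  have hoff : ∀ n, ¬ (δ n / KK L n ≤ t ∧ t ≤ KK L n * δ n) →
      (1 - ‖z‖^2) * ‖deriv (hh ω g δ n) z‖ ≤ (Ca * ω t) * (1/2)^n := by
    intro n hn
    rw [h.hder n hz]
    have hδn := h.δ0 n
    have hLn := h.Lpos n
    have hK := h.K16 n
    have hK0 : 0 < KK L n := by linarith
    have hmz := norm_mob_lt (h.cn_lt n) hz
    have hm0 : 0 ≤ 1 - ‖mob (cn (δ n)) z‖^2 := by nlinarith [norm_nonneg (mob (cn (δ n)) z)]
    have hgL := (h.ld n).gder _ hmz.le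
    have hw := h.wpos n
    have hncn : 1 - ‖cn (δ n)‖ = δ n := by rw [norm_cn (by linarith [h.δ1 n])]; ring
    have e0 : (1 - ‖mob (cn (δ n)) z‖^2) * ‖deriv (g n) (mob (cn (δ n)) z)‖ ≤
        L n * (1 - ‖mob (cn (δ n)) z‖^2) := by
      rw [mul_comm]
      exact mul_le_mul_of_nonneg_right hgL hm0
    rw [not_and_or] at hn
    rcases hn with hn | hn
    · push Not at hn
      have e1 := one_sub_mob_le_left (h.cn_lt n) hz
      rw [hncn] at e1
      have hδK : δ n / KK L n ≤ 1/2 := by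
        rw [div_le_iff₀ hK0]; linarith [h.δ1 n]
      have e2 := h.ad t (δ n / KK L n) ht0 hn.le hδK
      have e3 := h.plateau n
      have e3' : ω (δ n) ≤ 2 * ω (δ n / KK L n) := e3
      have hδK0 : 0 < δ n / KK L n := by positivity
      rw [div_le_iff₀ hδK0] at e2
      have e4 : ω (δ n) ≤ 2 * (Ca * (ω t / t) * (δ n / KK L n)) := by linarith
      calc ω (δ n) * ((1 - ‖mob (cn (δ n)) z‖^2) * ‖deriv (g n) (mob (cn (δ n)) z)‖)
          ≤ ω (δ n) * (L n * (4 * (t / δ n))) := by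
            apply mul_le_mul_of_nonneg_left _ hw.le
            exact e0.trans (mul_le_mul_of_nonneg_left e1 hLn.le)
        _ ≤ (2 * (Ca * (ω t / t) * (δ n / KK L n))) * (L n * (4 * (t / δ n))) :=
            mul_le_mul_of_nonneg_right e4 (by positivity)
        _ = (1/2) * ((Ca * ω t) * (1/2)^n) := by
            unfold KK
            rw [one_div_pow]
            field_simp
            norm_num
        _ ≤ (Ca * ω t) * (1/2)^n := by
            have : 0 ≤ (Ca * ω t) * (1/2:ℝ)^n := by positivity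
            linarith
    · have hn' : ¬ (δ n / KK L n ≤ 1 - ‖z‖ ∧ 1 - ‖z‖ ≤ KK L n * δ n) := fun hh => hn hh.2
      have e1 := h.small hz hn'
      push Not at hn
      have e2 : ω (δ n) ≤ ω t := by
        apply h.mod.mono' hδn _ ht1
        nlinarith
      calc ω (δ n) * ((1 - ‖mob (cn (δ n)) z‖^2) * ‖deriv (g n) (mob (cn (δ n)) z)‖)
          ≤ ω t * ((1/4) * (1/2)^n) := by
            apply mul_le_mul e2 (e0.trans e1) (mul_nonneg hm0 (norm_nonneg _)) hωt.le
        _ = (ω t * (1/2)^n) * (1/4) := by ring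
        _ ≤ (ω t * (1/2)^n) * Ca := by
            apply mul_le_mul_of_nonneg_left _ (by positivity)
            linarith
        _ = _ := by ring
  have hterm : ∀ n, (1 - ‖z‖^2) * ‖deriv (hh ω g δ n) z‖ ≤
      (if n = k then 2 * ω t else 0) + (Ca * ω t) * (1/2)^n := by
    intro n
    by_cases hw : δ n / KK L n ≤ t ∧ t ≤ KK L n * δ n
    · have hnk : n = k := by
        by_contra hne
        exact hk n hne hw
      rw [if_pos hnk, h.hder n hz]
      have hmz := norm_mob_lt (h.cn_lt n) hz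
      have e1 := (h.ld n).gbloch _ hmz
      have e2 : ω (δ n) ≤ 2 * ω (δ n / KK L n) := h.plateau n
      have hK0 : 0 < KK L n := by linarith [h.K16 n]
      have e3 : ω (δ n / KK L n) ≤ ω t :=
        h.mod.mono' (div_pos (h.δ0 n) hK0) hw.1 ht1
      have e4 : ω (δ n) * ((1 - ‖mob (cn (δ n)) z‖^2) * ‖deriv (g n) (mob (cn (δ n)) z)‖) ≤
          ω (δ n) * 1 := mul_le_mul_of_nonneg_left e1 (h.wpos n).le
      have e5 : 0 ≤ (Ca * ω t) * (1/2:ℝ)^n := by positivity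
      linarith
    · have := hoff n hw
      have h3 : (0:ℝ) ≤ if n = k then 2 * ω t else 0 := by
        split_ifs <;> positivity
      linarith
  have e1 := (h.FFderiv hz).mul_left (((1 - ‖z‖^2 : ℝ)) : ℂ)
  have e2 : HasSum (fun n => (if n = k then 2 * ω t else 0) + (Ca * ω t) * (1/2)^n)
      (2 * ω t + 2 * (Ca * ω t)) := (hasSum_ite_eq k (2 * ω t)).add (hasSum_two (Ca * ω t))
  have e3 := e1.norm_le_of_bounded e2 (fun n => by
    rw [norm_mul, Complex.norm_real, Real.norm_eq_abs, abs_of_nonneg hsq]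
    exact hterm n)
  rw [norm_mul, Complex.norm_real, Real.norm_eq_abs, abs_of_nonneg hsq] at e3
  have e4 : t ≤ 1 - ‖z‖^2 := by rw [ht]; nlinarith [norm_nonneg z]
  calc ‖deriv (FF ω g δ) z‖ * t ≤ ‖deriv (FF ω g δ) z‖ * (1 - ‖z‖^2) :=
        mul_le_mul_of_nonneg_left e4 (norm_nonneg _)
    _ ≤ 2 * ω t + 2 * (Ca * ω t) := by rw [mul_comm]; exact e3
    _ = (2 + 2 * Ca) * ω t := by ring

lemma GD.sfin (h : GD ω Ca A g B L δ) : SFinite ω (FF ω g δ) (TH B δ) (Real.exp (-10) / 2) := by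
  refine ⟨10, fun z hz0 hz hT => ?_⟩
  have hzp : 0 < ‖z‖ := norm_pos_iff.2 hz0
  obtain ⟨k, hk⟩ := h.theta_small hz hT
  set t : ℝ := 1 - ‖z‖ with ht
  have ht0 : 0 < t := by rw [ht]; linarith
  have ht1 : t < 1 := by rw [ht]; linarith
  have hωt := h.mod.pos' ht0 ht1
  have hδk := h.δ0 k
  have hδk1 : δ k ≤ 1 := by linarith [h.δ1 k]
  have hLk := h.Lpos k
  have hmz := norm_mob_lt (h.cn_lt k) hz
  obtain ⟨e1, e2⟩ := (h.ld k).Blow _ hmz hk
  have hncn : 1 - ‖cn (δ k)‖ = δ k := by rw [norm_cn hδk1]; ring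
  have e3 := one_sub_mob_le_left (h.cn_lt k) hz
  have e4 := one_sub_mob_le_right (h.cn_lt k) hz
  rw [hncn, ← ht] at e3 e4
  have e5 : δ k / (4 * L k) ≤ t := by
    have h1 : 1 / L k ≤ 4 * (t / δ k) := e2.trans e3
    rw [mul_div_assoc', div_le_div_iff₀ hLk hδk] at h1
    rw [div_le_iff₀ (by positivity)]
    linarith
  have e6 : t ≤ 4 * L k * δ k := by
    have h1 : 1 / L k ≤ 4 * (δ k / t) := e2.trans e4
    rw [mul_div_assoc', div_le_div_iff₀ hLk ht0] at h1
    linarith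
  have e7 : ‖1 - z‖ ≤ 8 * L k * δ k := by
    have h1 := one_sub_normSq_mob (h.cn_lt k) hz.le
    rw [h1, conj_cn] at e2
    have hd := (cn_den hδk hδk1 hz.le).1
    have hd0 : 0 < ‖1 - cn (δ k) * z‖ := by linarith
    rw [div_le_div_iff₀ hLk (by positivity), one_mul] at e2
    have h2 : 1 - ‖cn (δ k)‖^2 ≤ 2 * δ k := by
      have := one_sub_sq_le ‖cn (δ k)‖
      rw [hncn] at this
      exact this
    have h3 : 1 - ‖z‖^2 ≤ 2 * (4 * L k * δ k) := by
      have := one_sub_sq_le ‖z‖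
      rw [← ht] at this
      linarith
    have h4 : 0 ≤ 1 - ‖z‖^2 := by nlinarith [norm_nonneg z]
    have h5 : (1 - ‖cn (δ k)‖^2) * (1 - ‖z‖^2) ≤ (2 * δ k) * (2 * (4 * L k * δ k)) :=
      mul_le_mul h2 h3 h4 (by positivity)
    have h6 : ‖1 - cn (δ k) * z‖^2 ≤ (4 * L k * δ k)^2 := by
      calc ‖1 - cn (δ k) * z‖^2 ≤ (1 - ‖cn (δ k)‖^2) * (1 - ‖z‖^2) * L k := e2
        _ ≤ (2 * δ k) * (2 * (4 * L k * δ k)) * L k := mul_le_mul_of_nonneg_right h5 hLk.le
        _ = (4 * L k * δ k)^2 := by ring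
    have h8 : ‖1 - cn (δ k) * z‖ ≤ 4 * L k * δ k :=
      (sq_le_sq₀ (norm_nonneg _) (by positivity)).1 h6
    have h9 := one_sub_le_cn hδk hδk1 hz.le
    linarith
  have e8 := h.near_k hz e7 e5
  have e9 : ‖hh ω g δ k z‖ ≤ ω (δ k) * 4 := by
    rw [hh, norm_mul, Complex.norm_real, Real.norm_eq_abs, abs_of_pos (h.wpos k)]
    apply mul_le_mul_of_nonneg_left _ (h.wpos k).le
    refine (norm_sub_le _ _).trans ?_
    linarith [(h.ld k).gone]
  have e10 : ‖FF ω g δ z‖ ≤ 5 * ω (δ k) := by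
    have : FF ω g δ z = (FF ω g δ z - hh ω g δ k z) + hh ω g δ k z := by ring
    rw [this]
    refine (norm_add_le _ _).trans ?_
    linarith
  have e11 : ω (δ k) ≤ 2 * ω t := by
    have h1 : ω (δ k) ≤ 2 * ω (δ k / KK L k) := h.plateau k
    have h2 : δ k / KK L k ≤ δ k / (4 * L k) := by
      apply div_le_div_of_nonneg_left hδk.le (by positivity)
      unfold KK
      have : (1:ℝ) ≤ 2^k := one_le_pow₀ (by norm_num)
      nlinarith
    have h3 : ω (δ k / KK L k) ≤ ω t :=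
      h.mod.mono' (div_pos hδk (by linarith [h.K16 k])) (h2.trans e5) ht1
    linarith
  rw [div_le_iff₀ hωt]
  linarith

lemma GD.theta_deriv (h : GD ω Ca A g B L δ) (k : ℕ) :
    ‖deriv (B k) 0‖ / 2 ≤ (1 - ‖cn (δ k)‖^2) * ‖deriv (TH B δ) (cn (δ k))‖ := by
  have hδk := h.δ0 k
  have hδk1 : δ k ≤ 1 := by linarith [h.δ1 k]
  have hLk := h.Lpos k
  have hz := h.cn_lt k
  have hz1 : cn (δ k) ≠ 1 := by intro hc; rw [hc] at hz; simp at hz
  set T' : ℂ → ℂ := bprod (fun n z => if n = k then 1 else B n (mob (cn (δ n)) z)) with hT'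
  have hFS := h.fs.remove k
  -- lower bound of `T'`
  have hx : ∀ n, n ≠ k → 1 - ‖B n (mob (cn (δ n)) (cn (δ k)))‖ ≤ (1 / (32 * L k)) * ((1/2) * (1/2)^n) := by
    intro n hn
    have hδn := h.δ0 n
    have hLn := h.Lpos n
    have hδn1 : δ n ≤ 1 := by linarith [h.δ1 n]
    have h1 := (h.ld n).one_sub_B (norm_mob_lt (h.cn_lt n) hz).le
    have hn1 : 1 - ‖cn (δ n)‖ = δ n := by rw [norm_cn hδn1]; ring
    have hk1 : 1 - ‖cn (δ k)‖ = δ k := by rw [norm_cn hδk1]; ring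
    have hKn : 0 < 16 * L n * 2^n := by positivity
    have hKk : 0 < 16 * L k * 2^k := by positivity
    have h2 : 1 - ‖mob (cn (δ n)) (cn (δ k))‖^2 ≤ 4 * (1 / ((16 * L n * 2^n) * (16 * L k * 2^k))) := by
      rcases lt_or_gt_of_ne hn with hlt | hlt
      · have e1 := one_sub_mob_le_left (h.cn_lt n) hz
        rw [hn1, hk1] at e1
        refine e1.trans ?_
        apply mul_le_mul_of_nonneg_left _ (by norm_num)
        rw [div_le_div_iff₀ hδn (by positivity)]
        have := h.sep n k hlt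
        linarith
      · have e1 := one_sub_mob_le_right (h.cn_lt n) hz
        rw [hn1, hk1] at e1
        refine e1.trans ?_
        apply mul_le_mul_of_nonneg_left _ (by norm_num)
        rw [div_le_div_iff₀ hδk (by positivity)]
        have := h.sep k n hlt
        linarith
    refine h1.trans ((mul_le_mul_of_nonneg_left h2 hLn.le).trans ?_)
    have e3 : L n * (4 * (1 / ((16 * L n * 2^n) * (16 * L k * 2^k)))) =
        (1 / (32 * L k)) * ((1/2) * (1/2)^n) * (1 / 2^k) := by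
      rw [one_div_pow]
      field_simp
      norm_num
    rw [e3]
    apply mul_le_of_le_one_right (by positivity)
    rw [div_le_one (by positivity)]
    exact one_le_pow₀ (by norm_num)
  have hS := hasSum_half (1 / (32 * L k))
  have hL1 := (h.ld k).L1
  have hle32 : 1 / (32 * L k) ≤ 1/32 := by
    apply one_div_le_one_div_of_le (by norm_num); linarith
  have hT1 : 1 - 1 / (32 * L k) ≤ ‖T' (cn (δ k))‖ := by
    apply hFS.lower hz.le hz1 (x := fun n => (1 / (32 * L k)) * ((1/2) * (1/2)^n))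
      (fun n => by positivity) (fun n => by
        have h1 : (1/2:ℝ)^n ≤ 1 := pow_le_one₀ (by norm_num) (by norm_num)
        have h2 : (1/2:ℝ) * (1/2)^n ≤ 1 := by linarith
        have h3 : (0:ℝ) ≤ 1/2 * (1/2)^n := by positivity
        nlinarith) hS
    intro n
    by_cases hn : n = k
    · simp only [hn, if_true, norm_one]
      have : 0 ≤ (1 / (32 * L k)) * ((1/2) * (1/2:ℝ)^k) := by positivity
      linarith
    · simp only [hn, if_false]
      linarith [hx n hn]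
  have hTle : ‖T' (cn (δ k))‖ ≤ 1 := hFS.norm_le_one hz.le hz1
  -- Schwarz-Pick for `T'`
  have hsp := schwarz_pick hFS.differentiableOn (fun w hw => by
    rw [mem_ball_zero_iff] at hw
    exact hFS.norm_le_one hw.le (by rintro rfl; simp at hw)) hz
  rw [← hT'] at hsp
  have hsp' : (1 - ‖cn (δ k)‖^2) * ‖deriv T' (cn (δ k))‖ ≤ 1 / (16 * L k) := by
    refine hsp.trans ((one_sub_sq_le _).trans ?_)
    have : 2 * (1 / (32 * L k)) = 1 / (16 * L k) := by field_simp; norm_num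
    linarith
  -- the derivative of the product
  set b : ℂ → ℂ := fun z => B k (mob (cn (δ k)) z) with hb
  have hbd : HasDerivAt b (deriv (B k) 0 * deriv (mob (cn (δ k))) (cn (δ k))) (cn (δ k)) := by
    have h1 : HasDerivAt (B k) (deriv (B k) 0) (mob (cn (δ k)) (cn (δ k))) := by
      rw [mob_self]
      exact ((h.ld k).Bdiff 0 (by simp)).hasDerivAt
    exact h1.comp _ (differentiableAt_mob hz hz.le).hasDerivAt
  have hTd : DifferentiableAt ℂ T' (cn (δ k)) :=
    hFS.differentiableOn.differentiableAt (isOpen_ball.mem_nhds (by simpa using hz))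
  have hprod : TH B δ =ᶠ[𝓝 (cn (δ k))] fun z => b z * T' z := by
    filter_upwards [isOpen_ball.mem_nhds (show cn (δ k) ∈ ball (0:ℂ) 1 by simpa using hz)] with z hz'
    rw [mem_ball_zero_iff] at hz'
    exact h.fs.split k hz'.le (by rintro rfl; simp at hz')
  have hder : deriv (TH B δ) (cn (δ k)) =
      deriv (B k) 0 * deriv (mob (cn (δ k))) (cn (δ k)) * T' (cn (δ k)) +
        b (cn (δ k)) * deriv T' (cn (δ k)) := by
    rw [hprod.deriv_eq]
    exact (hbd.mul hTd.hasDerivAt).deriv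
  have hsq : 0 ≤ 1 - ‖cn (δ k)‖^2 := by nlinarith [norm_nonneg (cn (δ k))]
  have hm := schwarz_mob hz hz.le
  rw [mob_self, norm_zero] at hm
  have hbn : ‖b (cn (δ k))‖ ≤ 1 := (h.ld k).Ble _ (norm_mob_le hz hz.le)
  have hκ := (h.ld k).BL
  have e1 : (1 - ‖cn (δ k)‖^2) * ‖deriv (B k) 0 * deriv (mob (cn (δ k))) (cn (δ k)) * T' (cn (δ k))‖ =
      ‖deriv (B k) 0‖ * ‖T' (cn (δ k))‖ := by
    rw [norm_mul, norm_mul]
    calc (1 - ‖cn (δ k)‖^2) * (‖deriv (B k) 0‖ * ‖deriv (mob (cn (δ k))) (cn (δ k))‖ * ‖T' (cn (δ k))‖)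
        = ((1 - ‖cn (δ k)‖^2) * ‖deriv (mob (cn (δ k))) (cn (δ k))‖) *
          (‖deriv (B k) 0‖ * ‖T' (cn (δ k))‖) := by ring
      _ = _ := by rw [hm]; ring
  have e2 : (1 - ‖cn (δ k)‖^2) * ‖b (cn (δ k)) * deriv T' (cn (δ k))‖ ≤ 1 / (16 * L k) := by
    rw [norm_mul]
    calc (1 - ‖cn (δ k)‖^2) * (‖b (cn (δ k))‖ * ‖deriv T' (cn (δ k))‖)
        = ‖b (cn (δ k))‖ * ((1 - ‖cn (δ k)‖^2) * ‖deriv T' (cn (δ k))‖) := by ring
      _ ≤ 1 * ((1 - ‖cn (δ k)‖^2) * ‖deriv T' (cn (δ k))‖) :=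
          mul_le_mul_of_nonneg_right hbn (mul_nonneg hsq (norm_nonneg _))
      _ ≤ _ := by rw [one_mul]; exact hsp'
  have e3 : ‖deriv (B k) 0 * deriv (mob (cn (δ k))) (cn (δ k)) * T' (cn (δ k))‖ -
      ‖b (cn (δ k)) * deriv T' (cn (δ k))‖ ≤ ‖deriv (TH B δ) (cn (δ k))‖ := by
    rw [hder]
    exact norm_sub_le_norm_add _ _
  have e4 := mul_le_mul_of_nonneg_left e3 hsq
  rw [mul_sub, e1] at e4
  have e5 : ‖deriv (B k) 0‖ * (31/32) ≤ ‖deriv (B k) 0‖ * ‖T' (cn (δ k))‖ :=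
    mul_le_mul_of_nonneg_left (by linarith) (norm_nonneg _)
  have e6 : 1 / (16 * L k) = (1 / L k) / 16 := by field_simp
  have e7 := norm_nonneg (deriv (B k) 0)
  linarith

lemma GD.not_inB (h : GD ω Ca A g B L δ) (hA : Tendsto A atTop atTop) :
    ¬ InB ω (fun z => FF ω g δ z * TH B δ z) := by
  rintro ⟨-, C', r', hr', hC'⟩
  obtain ⟨-, C, r, hr, hC⟩ := h.FFinB
  have hδ0 : Tendsto δ atTop (𝓝 0) := by
    refine squeeze_zero (fun n => (h.δ0 n).le) (g := fun n => (1/2:ℝ)^n) (fun n => ?_)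
      (tendsto_pow_atTop_nhds_zero_of_lt_one (by norm_num) (by norm_num))
    have h1 := h.Lδ n
    have h2 := (h.ld n).L1
    have h3 := h.δ0 n
    nlinarith
  have hev := ((hA.eventually_gt_atTop (max 4 ((8192 * (|C| + |C'|))^2))).and
    ((hδ0.eventually_lt_const (show (0:ℝ) < 1 - r by linarith)).and
    (hδ0.eventually_lt_const (show (0:ℝ) < 1 - r' by linarith)))).exists
  obtain ⟨k, hk1, hk2, hk3⟩ := hev
  have hk4 : 4 < A k := lt_of_le_of_lt (le_max_left _ _) hk1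
  have hk5 : (8192 * (|C| + |C'|))^2 < A k := lt_of_le_of_lt (le_max_right _ _) hk1
  have hδk := h.δ0 k
  have hδk1 : δ k ≤ 1 := by linarith [h.δ1 k]
  have hLk := h.Lpos k
  have hL1 := (h.ld k).L1
  have hz := h.cn_lt k
  have hzn := norm_cn hδk1
  have hw := h.wpos k
  have hn1 : 1 - ‖cn (δ k)‖ = δ k := by rw [hzn]; ring
  have d1 := hC (cn (δ k)) (by rw [hzn]; linarith) hz
  have d2 := hC' (cn (δ k)) (by rw [hzn]; linarith) hz
  rw [hn1] at d1 d2
  have hmem : ball (0:ℂ) 1 ∈ 𝓝 (cn (δ k)) := isOpen_ball.mem_nhds (by simpa using hz)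
  have hFd : DifferentiableAt ℂ (FF ω g δ) (cn (δ k)) := h.FFdiff.differentiableAt hmem
  have hTd : DifferentiableAt ℂ (TH B δ) (cn (δ k)) := h.fs.differentiableOn.differentiableAt hmem
  have hder : deriv (fun z => FF ω g δ z * TH B δ z) (cn (δ k)) =
      deriv (FF ω g δ) (cn (δ k)) * TH B δ (cn (δ k)) +
        FF ω g δ (cn (δ k)) * deriv (TH B δ) (cn (δ k)) :=
    (hFd.hasDerivAt.mul hTd.hasDerivAt).deriv
  have hTle : ‖TH B δ (cn (δ k))‖ ≤ 1 :=
    h.fs.norm_le_one hz.le (by intro hc; rw [hc] at hz; simp at hz)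
  -- lower bound for `FF`
  have hF : ω (δ k) * (A k - 2) ≤ ‖FF ω g δ (cn (δ k))‖ := by
    have e1 := h.near_k (k := k) hz (by
      rw [one_sub_cn, Complex.norm_real, Real.norm_eq_abs, abs_of_pos hδk]
      nlinarith) (by
      rw [hn1, div_le_iff₀ (by positivity)]
      nlinarith)
    have e2 : ω (δ k) * (A k - 1) ≤ ‖hh ω g δ k (cn (δ k))‖ := by
      rw [hh, norm_mul, Complex.norm_real, Real.norm_eq_abs, abs_of_pos hw, mob_self]
      apply mul_le_mul_of_nonneg_left _ hw.le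
      have := norm_sub_norm_le (g k 0) (g k 1)
      rw [(h.ld k).gzero] at this
      linarith [(h.ld k).gone]
    have e3 := norm_sub_norm_le (hh ω g δ k (cn (δ k))) (FF ω g δ (cn (δ k)))
    rw [norm_sub_rev] at e3
    nlinarith
  have hTD := h.theta_deriv k
  have hκ := (h.ld k).Bzero
  have hsqrt0 : 0 < Real.sqrt (A k) := Real.sqrt_pos.2 (by linarith)
  have hsq1 : Real.sqrt (A k) * Real.sqrt (A k) = A k := Real.mul_self_sqrt (by linarith)
  have hsq2 : Real.sqrt (1 / A k) = 1 / Real.sqrt (A k) := by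
    rw [Real.sqrt_div (by norm_num), Real.sqrt_one]
  rw [hsq2] at hκ
  have hsqrtbig : 8192 * (|C| + |C'|) < Real.sqrt (A k) := by
    apply Real.lt_sqrt_of_sq_lt hk5
  have hz2 : (1 - ‖cn (δ k)‖^2) ≤ 2 * δ k := by
    have := one_sub_sq_le ‖cn (δ k)‖
    rw [hn1] at this
    exact this
  have f1 : 1 / Real.sqrt (A k) / 1024 / 4 ≤ δ k * ‖deriv (TH B δ) (cn (δ k))‖ := by
    have : (1 - ‖cn (δ k)‖^2) * ‖deriv (TH B δ) (cn (δ k))‖ ≤
        (2 * δ k) * ‖deriv (TH B δ) (cn (δ k))‖ := mul_le_mul_of_nonneg_right hz2 (norm_nonneg _)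
    linarith
  -- combine
  have f2 : ‖FF ω g δ (cn (δ k))‖ * (δ k * ‖deriv (TH B δ) (cn (δ k))‖) ≤
      (|C| + |C'|) * ω (δ k) := by
    have e1 : FF ω g δ (cn (δ k)) * deriv (TH B δ) (cn (δ k)) =
        deriv (fun z => FF ω g δ z * TH B δ z) (cn (δ k)) -
          deriv (FF ω g δ) (cn (δ k)) * TH B δ (cn (δ k)) := by rw [hder]; ring
    have e2 : ‖FF ω g δ (cn (δ k))‖ * ‖deriv (TH B δ) (cn (δ k))‖ ≤
        ‖deriv (fun z => FF ω g δ z * TH B δ z) (cn (δ k))‖ + ‖deriv (FF ω g δ) (cn (δ k))‖ := by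
      rw [← norm_mul, e1]
      refine (norm_sub_le _ _).trans ?_
      rw [norm_mul (deriv (FF ω g δ) (cn (δ k)))]
      have := mul_le_mul_of_nonneg_left hTle (norm_nonneg (deriv (FF ω g δ) (cn (δ k))))
      linarith
    have e3 := mul_le_mul_of_nonneg_left e2 hδk.le
    have e4 : C * ω (δ k) ≤ |C| * ω (δ k) := mul_le_mul_of_nonneg_right (le_abs_self _) hw.le
    have e5 : C' * ω (δ k) ≤ |C'| * ω (δ k) := mul_le_mul_of_nonneg_right (le_abs_self _) hw.le
    nlinarith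
  have f3 : (ω (δ k) * (A k - 2)) * (1 / Real.sqrt (A k) / 1024 / 4) ≤ (|C| + |C'|) * ω (δ k) := by
    refine le_trans ?_ f2
    exact mul_le_mul hF f1 (by positivity) (norm_nonneg _)
  have f4 : (A k / 2) ≤ A k - 2 := by linarith
  have f5 : (ω (δ k) * (A k / 2)) * (1 / Real.sqrt (A k) / 1024 / 4) ≤ (|C| + |C'|) * ω (δ k) := by
    refine le_trans ?_ f3
    apply mul_le_mul_of_nonneg_right _ (by positivity)
    exact mul_le_mul_of_nonneg_left f4 hw.le
  have f6 : (ω (δ k) * (A k / 2)) * (1 / Real.sqrt (A k) / 1024 / 4) =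
      ω (δ k) * (Real.sqrt (A k) / 8192) := by
    have : A k / Real.sqrt (A k) = Real.sqrt (A k) := Real.div_sqrt
    calc (ω (δ k) * (A k / 2)) * (1 / Real.sqrt (A k) / 1024 / 4) =
        ω (δ k) * ((A k / Real.sqrt (A k)) / 8192) := by field_simp; norm_num
      _ = _ := by rw [this]
  rw [f6] at f5
  have f7 : Real.sqrt (A k) / 8192 ≤ |C| + |C'| := by
    by_contra hcon
    push Not at hcon
    have := mul_lt_mul_of_pos_left hcon hw
    linarith
  linarith

lemma GD.bounded (h : GD ω Ca A g B L δ) (hb : ∀ n, A n * ω (δ n) ≤ (1/2)^n) {z : ℂ} (hz : ‖z‖ < 1) :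
    ‖FF ω g δ z‖ ≤ 34 := by
  have e1 : HasSum (fun n => hh ω g δ n z) (FF ω g δ z) := (h.summ hz).hasSum
  have e2 := hasSum_two 17
  have e3 := e1.norm_le_of_bounded e2 (fun n => by
    rw [hh, norm_mul, Complex.norm_real, Real.norm_eq_abs, abs_of_pos (h.wpos n)]
    have h1 : ‖g n (mob (cn (δ n)) z) - g n 1‖ ≤ 17 * A n := by
      refine (norm_sub_le _ _).trans ?_
      have h2 := (h.ld n).gbd _ (norm_mob_lt (h.cn_lt n) hz).le
      have h3 := (h.ld n).gone
      have h4 := (h.ld n).hA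
      linarith
    have h5 := mul_le_mul_of_nonneg_left h1 (h.wpos n).le
    have h6 := hb n
    linarith)
  linarith

end Pool.Agent.Helper34.Bw
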