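import Pool.Agent.Helper34.Bw.NearInner

set_option autoImplicit false

namespace Pool.Agent.Helper34.Bw

open Complex Metric Set Filter Topology ComplexConjugate MeasureTheory

/-- the Cayley-type function -/
noncomputable def cay (r : ℝ) (w : ℂ) : ℂ := (1 + r * w) / (1 - r * w)

lemma cay_den {r : ℝ} (hr0 : 0 ≤ r) (hr1 : r < 1) {w : ℂ} (hw : ‖w‖ ≤ 1) : (1 : ℂ) - r * w ≠ 0 := by
  intro h
  have h1 : (r : ℂ) * w = 1 := (sub_eq_zero.1 h).symm
  have h2 : ‖(r : ℂ) * w‖ = 1 := by rw [h1, norm_one]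
  rw [norm_mul, Complex.norm_real, Real.norm_eq_abs, abs_of_nonneg hr0] at h2
  nlinarith [norm_nonneg w]

lemma cay_re (r : ℝ) (w : ℂ) :
    (cay r w).re = (1 - r^2 * ‖w‖^2) / ‖1 - r * w‖^2 := by
  rw [cay, Complex.div_re, ← Complex.normSq_eq_norm_sq, ← Complex.normSq_eq_norm_sq, ← add_div]
  congr 1
  simp only [Complex.add_re, Complex.one_re, Complex.mul_re, Complex.ofReal_re, Complex.ofReal_im,
    Complex.sub_re, Complex.add_im, Complex.one_im, Complex.mul_im, Complex.sub_im,
    Complex.normSq_apply]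
  ring

lemma cay_bound {s : ℝ} (hs0 : 0 < s) (hs1 : s ≤ 1) {w : ℂ} (hw : ‖w‖ < 1) :
    (‖1 - w‖ < s → (cay (1 - s^2/16) w).re ≤ 32 / s^2) ∧
    (s ≤ ‖1 - w‖ → (cay (1 - s^2/16) w).re ≤ 3/8 + 8 * (1 - ‖w‖^2)^2 / s^4) := by
  set r : ℝ := 1 - s^2/16 with hr
  have hs2 : s^2 ≤ 1 := pow_le_one₀ hs0.le hs1
  have hs2' : 0 < s^2 := by positivity
  have hr0 : 0 ≤ r := by rw [hr]; linarith
  have hr1 : r < 1 := by rw [hr]; linarith
  have hw0 := norm_nonneg w
  have hden := cay_den hr0 hr1 hw.le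
  have hdpos : 0 < ‖(1 : ℂ) - r * w‖ := norm_pos_iff.2 hden
  constructor
  · intro _
    rw [cay_re]
    have h1 : 1 - r * ‖w‖ ≤ ‖(1 : ℂ) - r * w‖ := by
      have := norm_sub_norm_le (1:ℂ) (r * w)
      rw [norm_one, norm_mul, Complex.norm_real, Real.norm_eq_abs, abs_of_nonneg hr0] at this
      exact this
    have hrw : r * ‖w‖ ≤ r := by nlinarith
    have h2 : 0 < 1 - r * ‖w‖ := by linarith
    have h3 : s^2/16 ≤ 1 - r * ‖w‖ := by rw [hr] at hrw ⊢; linarith
    rw [div_le_div_iff₀ (by positivity) (by positivity)]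
    have h4 : (1 - r * ‖w‖)^2 ≤ ‖(1 : ℂ) - r * w‖^2 := pow_le_pow_left₀ h2.le h1 2
    have h5 : 1 - r^2 * ‖w‖^2 = (1 - r * ‖w‖) * (1 + r * ‖w‖) := by ring
    rw [h5]
    calc (1 - r * ‖w‖) * (1 + r * ‖w‖) * s^2 ≤ (1 - r * ‖w‖) * 2 * (16 * (1 - r * ‖w‖)) := by
          apply mul_le_mul _ (by linarith) (by positivity) (by positivity)
          apply mul_le_mul_of_nonneg_left _ h2.le
          have : r * ‖w‖ ≤ 1 := by linarith
          linarith
      _ = 32 * (1 - r * ‖w‖)^2 := by ring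
      _ ≤ 32 * ‖(1 : ℂ) - r * w‖^2 := by linarith
  · intro hsw
    rw [cay_re]
    have h1 : s * (15/16) ≤ ‖(1 : ℂ) - r * w‖ := by
      have e1 : (1 : ℂ) - r * w = (1 - w) + ((s^2/16 : ℝ) : ℂ) * w := by
        rw [hr]; push_cast; ring
      have e2 : ‖1 - w‖ ≤ ‖(1 : ℂ) - r * w‖ + ‖((s^2/16 : ℝ) : ℂ) * w‖ := by
        have : 1 - w = ((1 : ℂ) - r * w) - ((s^2/16 : ℝ) : ℂ) * w := by rw [e1]; ring
        rw [this]; exact norm_sub_le _ _
      rw [norm_mul, Complex.norm_real, Real.norm_eq_abs, abs_of_nonneg (by positivity)] at e2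
      have e3 : s^2/16 * ‖w‖ ≤ s * (1/16) := by nlinarith
      linarith
    have h2 : (s * (15/16))^2 ≤ ‖(1 : ℂ) - r * w‖^2 := pow_le_pow_left₀ (by positivity) h1 2
    set x : ℝ := 1 - ‖w‖^2 with hx
    have hx0 : 0 ≤ x := by rw [hx]; nlinarith
    have h3 : 1 - r^2 * ‖w‖^2 ≤ s^2/8 + x := by
      have : ‖w‖^2 ≤ 1 := pow_le_one₀ hw0 hw.le
      have e1 : 1 - r^2 ≤ s^2/8 := by rw [hr]; nlinarith
      have e2 : r^2 * x ≤ x := by
        have : r^2 ≤ 1 := pow_le_one₀ hr0 hr1.le
        nlinarith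
      rw [hx] at e2 ⊢
      linarith
    have h4 : (1 - r^2 * ‖w‖^2) / ‖(1 : ℂ) - r * w‖^2 ≤ (s^2/8 + x) / (s * (15/16))^2 := by
      apply div_le_div₀ (by positivity) h3 (by positivity) h2
    refine h4.trans ?_
    have h5 : (s^2/8 + x) / (s * (15/16))^2 = 32/225 + 256/225 * (x / s^2) := by
      field_simp; ring
    have h6 : 8 * x^2 / s^4 = 8 * (x / s^2)^2 := by field_simp
    rw [h5, h6]
    have h7 : 0 ≤ x / s^2 := by positivity
    nlinarith [sq_nonneg (x / s^2 - 1/8)]

lemma circleAverage_eq (f : ℂ → ℂ) : Real.circleAverage f 0 1 =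
    (2 * Real.pi)⁻¹ • ∫ θ in (0:ℝ)..(2 * Real.pi), f (cp θ) := by
  rw [Real.circleAverage]
  congr 1
  apply intervalIntegral.integral_congr
  intro θ _
  simp [cp, circleMap]

lemma cp_periodic : Function.Periodic cp (2 * Real.pi) := by
  intro θ
  unfold cp
  rw [show ((θ + 2 * Real.pi : ℝ) : ℂ) * I = θ * I + 2 * Real.pi * I by push_cast; ring,
    Complex.exp_add, Complex.exp_two_pi_mul_I, mul_one]

/-- Many grid points where `F` is close to `1`. -/
lemma exists_grid {κ : ℝ} {F : ℂ → ℂ} (hF : Good κ F) {s : ℝ} (hs0 : 0 < s) (hs1 : s ≤ 1)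
    (hDe : De F < s^4 * (2 * Real.pi) / 64) (M : ℕ) (hM : 1 ≤ M) :
    ∃ α : ℝ, (M : ℝ) * s^2 / 64 ≤
      (((Finset.range M).filter (fun j : ℕ => ‖1 - F (cp (α + 2 * Real.pi * j / M))‖ < s)).card : ℝ) := by
  have hcF : Continuous fun θ : ℝ => F (cp θ) := hF.diff.continuous.comp continuous_cp
  set r : ℝ := 1 - s^2/16 with hr
  have hs2 : s^2 ≤ 1 := pow_le_one₀ hs0.le hs1
  have hs2' : 0 < s^2 := by positivity
  have hr0 : 0 ≤ r := by rw [hr]; linarith
  have hr1 : r < 1 := by rw [hr]; linarith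
  have hlt : ∀ θ, ‖F (cp θ)‖ < 1 := fun θ => hF.lt_one _ (norm_cp θ).le
  have hcH : Continuous fun θ : ℝ => cay r (F (cp θ)) := by
    unfold cay
    exact (continuous_const.add (continuous_const.mul hcF)).div
      (continuous_const.sub (continuous_const.mul hcF))
      (fun θ => cay_den hr0 hr1 (hlt θ).le)
  -- mean value
  have hmv : ∫ θ in (0:ℝ)..(2 * Real.pi), (cay r (F (cp θ))).re = 2 * Real.pi := by
    have h1 : DiffContOnCl ℂ (fun z => cay r (F z)) (ball 0 |(1:ℝ)|) := by
      rw [abs_one]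
      apply DifferentiableOn.diffContOnCl
      rw [closure_ball _ one_ne_zero]
      intro z hz
      have hz1 : ‖z‖ ≤ 1 := by simpa using hz
      have hFz : DifferentiableAt ℂ F z := hF.diff z
      unfold cay
      apply DifferentiableAt.differentiableWithinAt
      exact ((hFz.const_mul _).const_add _).div ((hFz.const_mul _).const_sub _)
        (cay_den hr0 hr1 (hF.lt_one z hz1).le)
    have h2 := h1.circleAverage
    rw [circleAverage_eq] at h2
    have h3 : cay r (F 0) = 1 := by rw [hF.zero]; simp [cay]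
    rw [h3, inv_smul_eq_iff₀ (by positivity)] at h2
    have h4 : (∫ θ in (0:ℝ)..(2 * Real.pi), cay r (F (cp θ))).re =
        ∫ θ in (0:ℝ)..(2 * Real.pi), (cay r (F (cp θ))).re :=
      (Complex.reCLM.intervalIntegral_comp_comm (hcH.intervalIntegrable _ _)).symm
    rw [← h4, h2]
    simp
  set W : ℝ → ℝ := fun θ => (cay r (F (cp θ))).re - 3/8 - 8 * (1 - ‖F (cp θ)‖^2)^2 / s^4 with hW
  have hcW : Continuous W := by
    apply Continuous.sub
    · exact (Complex.continuous_re.comp hcH).sub continuous_const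
    · exact (continuous_const.mul ((continuous_const.sub (hcF.norm.pow 2)).pow 2)).div_const _
  have hWper : Function.Periodic W (2 * Real.pi) := by
    intro θ
    simp only [hW, cp_periodic θ]
  have hWint : Real.pi ≤ ∫ θ in (0:ℝ)..(2 * Real.pi), W θ := by
    have h1 : ∫ θ in (0:ℝ)..(2 * Real.pi), W θ = 2 * Real.pi - 3/8 * (2 * Real.pi) - 8 / s^4 * De F := by
      simp only [hW]
      rw [intervalIntegral.integral_sub, intervalIntegral.integral_sub, hmv,
        intervalIntegral.integral_const]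
      · rw [De, ← intervalIntegral.integral_const_mul]
        congr 1
        · simp; ring
        · apply intervalIntegral.integral_congr
          intro θ _
          simp only
          ring
      · exact (Complex.continuous_re.comp hcH).intervalIntegrable _ _
      · exact intervalIntegrable_const
      · exact ((Complex.continuous_re.comp hcH).sub continuous_const).intervalIntegrable _ _
      · exact ((continuous_const.mul ((continuous_const.sub (hcF.norm.pow 2)).pow 2)).div_const _).intervalIntegrable _ _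
    rw [h1]
    have h2 : 8 / s^4 * De F ≤ 8 / s^4 * (s^4 * (2 * Real.pi) / 64) :=
      mul_le_mul_of_nonneg_left hDe.le (by positivity)
    have h3 : 8 / s^4 * (s^4 * (2 * Real.pi) / 64) = Real.pi / 4 := by
      field_simp; ring
    rw [h3] at h2
    linarith
  -- average over rotations
  set T : ℝ → ℝ := fun α => ∑ j ∈ Finset.range M, W (α + 2 * Real.pi * j / M) with hT
  have hcT : Continuous T := by
    apply continuous_finsetSum
    intro j _
    exact hcW.comp (by fun_prop)
  have hTint : (M : ℝ) * Real.pi ≤ ∫ α in (0:ℝ)..(2 * Real.pi), T α := by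
    simp only [hT]
    rw [intervalIntegral.integral_finsetSum (f := fun (j : ℕ) (α : ℝ) => W (α + 2 * Real.pi * j / M))
      (fun j _ =>
      (hcW.comp (by fun_prop : Continuous fun α : ℝ => α + 2 * Real.pi * j / M)).intervalIntegrable _ _)]
    have h1 : ∀ j ∈ Finset.range M, Real.pi ≤
        ∫ α in (0:ℝ)..(2 * Real.pi), W (α + 2 * Real.pi * j / M) := by
      intro j _
      rw [intervalIntegral.integral_comp_add_right (fun x => W x)]
      have h2 := hWper.intervalIntegral_add_eq (0 + 2 * Real.pi * j / M) 0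
      rw [zero_add] at h2 ⊢
      rw [zero_add] at h2
      rw [add_comm (2 * Real.pi) (2 * Real.pi * j / M), h2]
      exact hWint
    calc (M : ℝ) * Real.pi = ∑ _j ∈ Finset.range M, Real.pi := by simp
      _ ≤ _ := Finset.sum_le_sum h1
  have hα : ∃ α : ℝ, (M : ℝ) / 2 ≤ T α := by
    by_contra hcon
    push Not at hcon
    have h1 : ∫ α in (0:ℝ)..(2 * Real.pi), T α < ∫ _ in (0:ℝ)..(2 * Real.pi), (M : ℝ) / 2 := by
      apply intervalIntegral.integral_lt_integral_of_continuousOn_of_le_of_exists_lt (by positivity)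
        hcT.continuousOn continuousOn_const (fun x _ => (hcon x).le)
      exact ⟨0, ⟨le_rfl, by positivity⟩, hcon 0⟩
    rw [intervalIntegral.integral_const, smul_eq_mul] at h1
    linarith
  obtain ⟨α, hα⟩ := hα
  refine ⟨α, ?_⟩
  have hTle : T α ≤ ∑ j ∈ Finset.range M,
      (if ‖1 - F (cp (α + 2 * Real.pi * j / M))‖ < s then 32 / s^2 else 0) := by
    apply Finset.sum_le_sum
    intro j _
    have hb := cay_bound hs0 hs1 (hlt (α + 2 * Real.pi * j / M))
    have h0 : 0 ≤ 8 * (1 - ‖F (cp (α + 2 * Real.pi * j / M))‖^2)^2 / s^4 := by positivity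
    split_ifs with h
    · have := hb.1 h
      simp only [hW]
      linarith
    · push Not at h
      have := hb.2 h
      simp only [hW]
      linarith
  rw [← Finset.sum_filter, Finset.sum_const, nsmul_eq_mul] at hTle
  have h1 := hα.trans hTle
  rw [mul_div_assoc', le_div_iff₀ hs2'] at h1
  linarith

end Pool.Agent.Helper34.Bw
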