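import Pool.Agent.Helper34.Bw.Suff2
import Pool.Agent.Helper34.Bw.Window

set_option autoImplicit false

namespace Pool.Agent.Helper34.Bw

open Complex Metric Set Filter Topology ComplexConjugate

/-- maximum principle for the derivative -/
lemma deriv_le_of_bound {ω : ℝ → ℝ} {h : ℂ → ℂ} (hh : DifferentiableOn ℂ h (ball 0 1))
    {C₁ r₀ : ℝ} (hb : ∀ z : ℂ, r₀ < ‖z‖ → ‖z‖ < 1 → ‖deriv h z‖ * (1 - ‖z‖) ≤ C₁ * ω (1 - ‖z‖))
    {s : ℝ} (hs0 : 0 < s) (hs1 : s < 1) (hsr : r₀ < 1 - s) {z : ℂ} (hz : ‖z‖ ≤ 1 - s) :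
    ‖deriv h z‖ ≤ C₁ * (ω s / s) := by
  have hd : DifferentiableOn ℂ (deriv h) (ball 0 1) := hh.deriv isOpen_ball
  have h1 : DiffContOnCl ℂ (deriv h) (ball 0 (1 - s)) := by
    apply DifferentiableOn.diffContOnCl
    rw [closure_ball _ (by linarith)]
    exact hd.mono (closedBall_subset_ball (by linarith))
  have hb' : ∀ w ∈ frontier (ball (0:ℂ) (1 - s)), ‖deriv h w‖ ≤ C₁ * (ω s / s) := by
    intro w hw
    rw [frontier_ball _ (by linarith), mem_sphere_zero_iff_norm] at hw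
    have := hb w (by rw [hw]; exact hsr) (by rw [hw]; linarith)
    rw [hw, sub_sub_cancel] at this
    rw [mul_div_assoc', le_div_iff₀ hs0]
    exact this
  apply Complex.norm_le_of_forall_mem_frontier_norm_le isBounded_ball h1 hb'
  rw [closure_ball _ (by linarith), mem_closedBall_zero_iff]
  exact hz

/-- rational parametrisation of the circle -/
noncomputable def upt (x : ℝ) : ℂ := (1 + x * I) / (1 - x * I)

lemma upt_den (x : ℝ) : (1 : ℂ) - x * I ≠ 0 := by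
  intro h
  have := congrArg Complex.re h
  simp at this

lemma norm_upt (x : ℝ) : ‖upt x‖ = 1 := by
  have h : ‖(1 : ℂ) + x * I‖ = ‖(1 : ℂ) - x * I‖ := by
    have : (1 : ℂ) - x * I = conj (1 + x * I) := by
      rw [map_add, map_mul, Complex.conj_I, Complex.conj_ofReal, map_one]; ring
    rw [this, RCLike.norm_conj]
  rw [upt, norm_div, h, div_self (norm_ne_zero_iff.2 (upt_den x))]

lemma one_sub_upt (x : ℝ) : ‖1 - upt x‖ = 2 * |x| / ‖(1 : ℂ) - x * I‖ := by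
  have : 1 - upt x = -(2 * x * I) / (1 - x * I) := by
    rw [upt, eq_div_iff (upt_den x), sub_mul, div_mul_cancel₀ _ (upt_den x)]
    ring
  rw [this, norm_div, norm_neg, norm_mul, norm_mul, Complex.norm_I, Complex.norm_real, mul_one,
    Complex.norm_ofNat, Real.norm_eq_abs]

lemma one_le_den (x : ℝ) : 1 ≤ ‖(1 : ℂ) - x * I‖ := by
  have := Complex.abs_re_le_norm ((1 : ℂ) - x * I)
  simpa using this

lemma den_le_two {x : ℝ} (h0 : 0 ≤ x) (h1 : x ≤ 1) : ‖(1 : ℂ) - x * I‖ ≤ 2 := by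
  refine (norm_sub_le _ _).trans ?_
  rw [norm_one, norm_mul, Complex.norm_I, Complex.norm_real, Real.norm_eq_abs, abs_of_nonneg h0]
  linarith

lemma le_one_sub_upt {x : ℝ} (h0 : 0 ≤ x) (h1 : x ≤ 1) : x ≤ ‖1 - upt x‖ := by
  rw [one_sub_upt, abs_of_nonneg h0, le_div_iff₀ (by linarith [one_le_den x])]
  nlinarith [den_le_two h0 h1]

lemma one_sub_upt_le {x : ℝ} (h0 : 0 ≤ x) : ‖1 - upt x‖ ≤ 2 * x := by
  rw [one_sub_upt, abs_of_nonneg h0]
  exact div_le_self (by positivity) (one_le_den x)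

/-- points pseudohyperbolically close to `a` -/
lemma close_of_mob {a z : ℂ} (ha : ‖a‖ < 1) (hz : ‖z‖ < 1) {q : ℝ} (hq0 : 0 ≤ q) (hq1 : q < 1)
    (h : ‖mob a z‖ ≤ q) :
    ‖z - a‖ ≤ q / (1 - q) * (1 - ‖a‖^2) ∧ (1 - q) / (1 + q) * (1 - ‖a‖^2) ≤ 1 - ‖z‖^2 := by
  have h0 := den_ne ha hz.le
  set D := ‖1 - conj a * z‖ with hD
  have hDpos : 0 < D := norm_pos_iff.2 h0
  have e1 : ‖z - a‖ ≤ q * D := by
    have : ‖z - a‖ = ‖mob a z‖ * D := by
      rw [mob, norm_div, div_mul_cancel₀ _ hDpos.ne']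
    rw [this]
    exact mul_le_mul_of_nonneg_right h hDpos.le
  have hA : 0 < 1 - ‖a‖^2 := by nlinarith [norm_nonneg a]
  have e2 : 1 - conj a * z = ((1 - ‖a‖^2 : ℝ) : ℂ) - conj a * (z - a) := by
    have hna : (a * conj a) = ((‖a‖^2 : ℝ) : ℂ) := by
      rw [Complex.mul_conj, Complex.normSq_eq_norm_sq]
    push_cast at hna ⊢
    linear_combination -hna
  have e3 : D ≤ (1 - ‖a‖^2) + ‖z - a‖ := by
    rw [hD, e2]
    refine (norm_sub_le _ _).trans ?_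
    rw [Complex.norm_real, Real.norm_eq_abs, abs_of_pos hA, norm_mul, RCLike.norm_conj]
    nlinarith [norm_nonneg (z - a)]
  have e4 : (1 - ‖a‖^2) ≤ D + ‖z - a‖ := by
    have : ((1 - ‖a‖^2 : ℝ) : ℂ) = (1 - conj a * z) + conj a * (z - a) := by rw [e2]; ring
    have h1 : ‖((1 - ‖a‖^2 : ℝ) : ℂ)‖ ≤ D + ‖conj a * (z - a)‖ := by
      rw [this]; exact norm_add_le _ _
    rw [Complex.norm_real, Real.norm_eq_abs, abs_of_pos hA, norm_mul, RCLike.norm_conj] at h1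
    nlinarith [norm_nonneg (z - a)]
  constructor
  · have h1 : D * (1 - q) ≤ 1 - ‖a‖^2 := by linarith
    rw [div_mul_eq_mul_div, le_div_iff₀ (by linarith)]
    nlinarith
  · have h1 : (1 - ‖a‖^2) ≤ D * (1 + q) := by linarith
    have h2 := one_sub_normSq_mob ha hz.le
    have h3 : 1 - q^2 ≤ 1 - ‖mob a z‖^2 := by nlinarith [norm_nonneg (mob a z)]
    rw [h2, ← hD, le_div_iff₀ (by positivity)] at h3
    rw [div_mul_eq_mul_div, div_le_iff₀ (by linarith)]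
    have h5 : (1 - ‖a‖^2)^2 ≤ (D * (1 + q))^2 := pow_le_pow_left₀ hA.le h1 2
    -- (1-q^2) D^2 ≤ A Z,  A^2 ≤ D^2 (1+q)^2
    have h6 : (1 - q) * (1 - ‖a‖^2)^2 ≤ (1 + q) * ((1 - ‖a‖^2) * (1 - ‖z‖^2)) := by
      calc (1 - q) * (1 - ‖a‖^2)^2 ≤ (1 - q) * (D * (1 + q))^2 :=
            mul_le_mul_of_nonneg_left h5 (by linarith)
        _ = (1 + q) * ((1 - q^2) * D^2) := by ring
        _ ≤ (1 + q) * ((1 - ‖a‖^2) * (1 - ‖z‖^2)) := mul_le_mul_of_nonneg_left h3 (by linarith)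
    have h7 : (1 - ‖a‖^2) * ((1 - q) * (1 - ‖a‖^2)) ≤ (1 - ‖a‖^2) * ((1 - ‖z‖^2) * (1 + q)) := by
      nlinarith
    exact le_of_mul_le_mul_left h7 hA

end Pool.Agent.Helper34.Bw
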