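import Pool.Agent.Helper34.Bw.Grid
import Pool.Agent.Helper34.Bw.NecA

set_option autoImplicit false

namespace Pool.Agent.Helper34.Bw

open Complex Metric Set Filter Topology ComplexConjugate MeasureTheory

/-- rotated grid of `M`-th roots of unity -/
noncomputable def gr (M : ℕ) (α : ℝ) (j : ℕ) : ℂ := cp (α + 2 * Real.pi * j / M)

lemma norm_gr (M : ℕ) (α : ℝ) (j : ℕ) : ‖gr M α j‖ = 1 := norm_cp _

lemma cp_add (x y : ℝ) : cp (x + y) = cp x * cp y := by
  unfold cp; rw [← Complex.exp_add]; congr 1; push_cast; ring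

lemma gr_eq (M : ℕ) (α : ℝ) (j : ℕ) : gr M α j = cp α * (exp (2 * Real.pi * I / M))^j := by
  rw [gr, cp_add, ← Complex.exp_nat_mul]
  congr 1
  unfold cp
  congr 1
  push_cast
  ring

lemma sum_gr_pow {M : ℕ} (hM : 1 ≤ M) (α : ℝ) {i : ℕ} (hi0 : 0 < i) (hi : i < M) :
    ∑ j ∈ Finset.range M, (gr M α j)^i = 0 := by
  have hprim : IsPrimitiveRoot (exp (2 * Real.pi * I / M)) M :=
    Complex.isPrimitiveRoot_exp M (by omega)
  set ξ := exp (2 * Real.pi * I / M) with hξ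
  have h1 : ∑ j ∈ Finset.range M, (gr M α j)^i = (cp α)^i * ∑ j ∈ Finset.range M, (ξ^i)^j := by
    rw [Finset.mul_sum]
    apply Finset.sum_congr rfl
    intro j _
    rw [gr_eq, mul_pow, ← pow_mul, ← pow_mul, mul_comm j i]
  have hne : ξ^i ≠ 1 := hprim.pow_ne_one_of_pos_of_lt hi0.ne' hi
  have h2 : (∑ j ∈ Finset.range M, (ξ^i)^j) * (ξ^i - 1) = 0 := by
    rw [geom_sum_mul, ← pow_mul, mul_comm i M, pow_mul, hprim.pow_eq_one, one_pow, sub_self]
  have h3 : ∑ j ∈ Finset.range M, (ξ^i)^j = 0 := by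
    rcases mul_eq_zero.1 h2 with h | h
    · exact h
    · exact absurd (sub_eq_zero.1 h) hne
  rw [h1, h3, mul_zero]

lemma gr_pow_M {M : ℕ} (hM : 1 ≤ M) (α : ℝ) (j : ℕ) : (gr M α j)^M = (cp α)^M := by
  have hprim : IsPrimitiveRoot (exp (2 * Real.pi * I / M)) M :=
    Complex.isPrimitiveRoot_exp M (by omega)
  rw [gr_eq, mul_pow, ← pow_mul, mul_comm j M, pow_mul, hprim.pow_eq_one, one_pow, mul_one]

lemma gr_sub_ne {M : ℕ} {α : ℝ} {j : ℕ} {q : ℂ} (hq : ‖q‖ < 1) : gr M α j - q ≠ 0 := by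
  intro h
  have : ‖gr M α j‖ = ‖q‖ := by rw [sub_eq_zero.1 h]
  rw [norm_gr] at this
  linarith

lemma sum_inv_gr {M : ℕ} (hM : 1 ≤ M) (α : ℝ) {q : ℂ} (hq : ‖q‖ < 1) :
    (∑ j ∈ Finset.range M, (gr M α j - q)⁻¹) * ((cp α)^M - q^M) = M * q^(M-1) := by
  rw [Finset.sum_mul]
  have h1 : ∀ j ∈ Finset.range M, (gr M α j - q)⁻¹ * ((cp α)^M - q^M) =
      ∑ i ∈ Finset.range M, (gr M α j)^i * q^(M-1-i) := by
    intro j _
    rw [← gr_pow_M hM α j, ← geom_sum₂_mul, mul_comm _ (gr M α j - q), ← mul_assoc,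
      inv_mul_cancel₀ (gr_sub_ne hq), one_mul]
  rw [Finset.sum_congr rfl h1, Finset.sum_comm]
  have h2 : ∀ i ∈ Finset.range M, ∑ j ∈ Finset.range M, (gr M α j)^i * q^(M-1-i) =
      if i = 0 then (M : ℂ) * q^(M-1) else 0 := by
    intro i hi
    rw [← Finset.sum_mul]
    split_ifs with h0
    · subst h0; simp
    · rw [sum_gr_pow hM α (by omega) (Finset.mem_range.1 hi), zero_mul]
  rw [Finset.sum_congr rfl h2, Finset.sum_ite_eq' (Finset.range M) 0]
  simp only [Finset.mem_range]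
  rw [if_pos (by omega)]

lemma poisson_re {ζ q : ℂ} (hζ : ‖ζ‖ = 1) :
    ((ζ + q) / (ζ - q)).re = (1 - ‖q‖^2) / ‖ζ - q‖^2 := by
  rw [Complex.div_re, ← Complex.normSq_eq_norm_sq, ← Complex.normSq_eq_norm_sq, ← add_div]
  congr 1
  have h1 : ζ.re * ζ.re + ζ.im * ζ.im = 1 := by
    have := Complex.normSq_eq_norm_sq ζ
    rw [Complex.normSq_apply, hζ] at this
    linarith
  simp only [Complex.add_re, Complex.add_im, Complex.sub_re, Complex.sub_im, Complex.normSq_apply]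
  linear_combination h1

lemma grid_sum {M : ℕ} (hM : 1 ≤ M) (α : ℝ) {q : ℂ} (hq : ‖q‖ < 1) :
    ∑ j ∈ Finset.range M, (1 - ‖q‖^2) / ‖gr M α j - q‖^2 ≤ M * ((1 + ‖q‖^M) / (1 - ‖q‖^M)) := by
  have hqM : ‖q‖^M < 1 := pow_lt_one₀ (norm_nonneg _) hq (by omega)
  have hne : (cp α)^M - q^M ≠ 0 := by
    intro h
    have : ‖(cp α)^M‖ = ‖q^M‖ := by rw [sub_eq_zero.1 h]
    rw [norm_pow, norm_pow, norm_cp, one_pow] at this
    linarith
  have h1 : ∑ j ∈ Finset.range M, (1 - ‖q‖^2) / ‖gr M α j - q‖^2 =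
      (∑ j ∈ Finset.range M, (gr M α j + q) / (gr M α j - q)).re := by
    rw [Complex.re_sum]
    apply Finset.sum_congr rfl
    intro j _
    rw [poisson_re (norm_gr M α j)]
  have h2 : ∑ j ∈ Finset.range M, (gr M α j + q) / (gr M α j - q) =
      M * (((cp α)^M + q^M) / ((cp α)^M - q^M)) := by
    have h3 : ∀ j ∈ Finset.range M, (gr M α j + q) / (gr M α j - q) =
        1 + 2 * q * (gr M α j - q)⁻¹ := by
      intro j _
      have := gr_sub_ne (M := M) (α := α) (j := j) hq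
      field_simp
      ring
    rw [Finset.sum_congr rfl h3, Finset.sum_add_distrib, ← Finset.mul_sum]
    have h4 : ∑ j ∈ Finset.range M, (gr M α j - q)⁻¹ = M * q^(M-1) / ((cp α)^M - q^M) := by
      rw [eq_div_iff hne]; exact sum_inv_gr hM α hq
    rw [h4]
    have h5 : q^M = q * q^(M-1) := by
      rw [← pow_succ', Nat.sub_add_cancel hM]
    simp only [Finset.sum_const, Finset.card_range, nsmul_eq_mul, mul_one]
    rw [mul_div_assoc', mul_div_assoc', eq_div_iff hne, add_mul, div_mul_cancel₀ _ hne, h5]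
    ring
  rw [h1, h2]
  refine (Complex.re_le_norm _).trans ?_
  rw [norm_mul, Complex.norm_natCast, norm_div]
  apply mul_le_mul_of_nonneg_left _ (Nat.cast_nonneg M)
  apply div_le_div₀ (by positivity) _ (by linarith) _
  · refine (norm_add_le _ _).trans ?_
    rw [norm_pow, norm_pow, norm_cp, one_pow]
  · have := norm_sub_norm_le ((cp α)^M) (q^M)
    rw [norm_pow, norm_pow, norm_cp, one_pow] at this
    exact this

/-- Carleson-type bound for the full grid at depth `1/(2M)`. -/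
lemma grid_mob {M : ℕ} (hM : 1 ≤ M) (α : ℝ) {w : ℂ} (hw : ‖w‖ < 1) :
    ∑ j ∈ Finset.range M, (1 - ‖mob (((1 - 1/(2*M) : ℝ) : ℂ) * gr M α j) w‖^2) ≤ 5 := by
  have hMr : (1:ℝ) ≤ M := by exact_mod_cast hM
  set r : ℝ := 1 - 1/(2*M) with hr
  have hη0 : 0 < 1/(2*(M:ℝ)) := by positivity
  have hη1 : 1/(2*(M:ℝ)) ≤ 1/2 := by
    rw [div_le_div_iff₀ (by positivity) (by norm_num)]; linarith
  have hr0 : 0 < r := by rw [hr]; linarith
  have hr1 : r < 1 := by rw [hr]; linarith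
  set q : ℂ := (r : ℂ) * w with hq
  have hqn : ‖q‖ = r * ‖w‖ := by
    rw [hq, norm_mul, Complex.norm_real, Real.norm_eq_abs, abs_of_pos hr0]
  have hq1 : ‖q‖ < 1 := by rw [hqn]; nlinarith [norm_nonneg w]
  have hterm : ∀ j ∈ Finset.range M, (1 - ‖mob ((r : ℂ) * gr M α j) w‖^2) ≤
      1 / M * ((1 - ‖q‖^2) / ‖gr M α j - q‖^2) := by
    intro j _
    have ha : ‖(r : ℂ) * gr M α j‖ = r := by
      rw [norm_mul, norm_gr, mul_one, Complex.norm_real, Real.norm_eq_abs, abs_of_pos hr0]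
    rw [one_sub_normSq_mob (by rw [ha]; exact hr1) hw.le, ha]
    have h1 : ‖1 - conj ((r : ℂ) * gr M α j) * w‖ = ‖gr M α j - q‖ := by
      have h2 : gr M α j - q = gr M α j * (1 - conj ((r : ℂ) * gr M α j) * w) := by
        have h3 : gr M α j * conj (gr M α j) = 1 := by
          rw [Complex.mul_conj, Complex.normSq_eq_norm_sq, norm_gr]; simp
        rw [map_mul, Complex.conj_ofReal, hq]
        linear_combination ((r : ℂ) * w) * h3
      rw [h2, norm_mul, norm_gr, one_mul]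
    rw [h1, mul_div_assoc']
    apply div_le_div_of_nonneg_right _ (by positivity)
    apply mul_le_mul
    · have : 1 - r^2 ≤ 2 * (1 - r) := one_sub_sq_le r
      refine this.trans (le_of_eq ?_)
      rw [hr]; field_simp; ring
    · rw [hqn]
      have : (r * ‖w‖)^2 ≤ ‖w‖^2 := by
        apply pow_le_pow_left₀ (by positivity)
        nlinarith [norm_nonneg w]
      linarith
    · nlinarith [norm_nonneg w]
    · positivity
  refine (Finset.sum_le_sum hterm).trans ?_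
  rw [← Finset.mul_sum]
  have hx : ‖q‖^M ≤ 2/3 := by
    have h1 : ‖q‖^M ≤ r^M := by
      apply pow_le_pow_left₀ (norm_nonneg _)
      rw [hqn]; nlinarith [norm_nonneg w]
    have h2 : r^M ≤ Real.exp (-(1/2)) := by
      have h3 : r ≤ Real.exp (-(1/(2*M))) := by
        have := Real.add_one_le_exp (-(1/(2*(M:ℝ))))
        rw [hr]; linarith
      calc r^M ≤ (Real.exp (-(1/(2*M))))^M := pow_le_pow_left₀ hr0.le h3 M
        _ = Real.exp (-(1/2)) := by
            rw [← Real.exp_nat_mul]; congr 1; field_simp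
    have h3 : Real.exp (-(1/2)) ≤ 2/3 := by
      have := Real.add_one_le_exp (1/2 : ℝ)
      rw [Real.exp_neg, inv_le_comm₀ (Real.exp_pos _) (by norm_num)]
      linarith
    linarith
  have hx0 : 0 ≤ ‖q‖^M := by positivity
  have h1 := grid_sum hM α hq1
  have h2 : (1 + ‖q‖^M) / (1 - ‖q‖^M) ≤ 5 := by
    rw [div_le_iff₀ (by linarith)]; linarith
  calc 1 / (M:ℝ) * ∑ j ∈ Finset.range M, (1 - ‖q‖^2) / ‖gr M α j - q‖^2
      ≤ 1 / (M:ℝ) * (M * ((1 + ‖q‖^M) / (1 - ‖q‖^M))) :=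
        mul_le_mul_of_nonneg_left h1 (by positivity)
    _ = (1 + ‖q‖^M) / (1 - ‖q‖^M) := by field_simp
    _ ≤ 5 := h2

lemma exp_le_of_quarter {x : ℝ} (hx : 1/4 ≤ x) (hx1 : x ≤ 1) : Real.exp (-(4 * (1 - x))) ≤ x := by
  have hx0 : 0 < x := by linarith
  rw [← Real.le_log_iff_exp_le hx0]
  have h1 := Real.one_sub_inv_le_log_of_pos hx0
  have h2 : -(4 * (1 - x)) ≤ 1 - x⁻¹ := by
    have : 1 - x⁻¹ = -((1 - x) / x) := by field_simp; ring
    rw [this, neg_le_neg_iff, div_le_iff₀ hx0]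
    nlinarith
  linarith

/-- lower bound of a product of Möbius factors away from the zeros -/
lemma prod_mob_lower {M : ℕ} (hM : 1 ≤ M) (α : ℝ) {w : ℂ} (hw : ‖w‖ < 1) {S : Finset ℕ}
    (hS : S ⊆ Finset.range M)
    (hfar : ∀ j ∈ S, 1/2 ≤ ‖mob (((1 - 1/(2*M) : ℝ) : ℂ) * gr M α j) w‖) :
    Real.exp (-10) ≤ ‖∏ j ∈ S, mob (((1 - 1/(2*M) : ℝ) : ℂ) * gr M α j) w‖ := by
  have hMr : (1:ℝ) ≤ M := by exact_mod_cast hM
  have hη0 : 0 < 1/(2*(M:ℝ)) := by positivity
  have hη1 : 1/(2*(M:ℝ)) ≤ 1/2 := by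
    rw [div_le_div_iff₀ (by positivity) (by norm_num)]; linarith
  have ha : ∀ j, ‖((1 - 1/(2*M) : ℝ) : ℂ) * gr M α j‖ < 1 := by
    intro j
    rw [norm_mul, norm_gr, mul_one, Complex.norm_real, Real.norm_eq_abs, abs_of_pos (by linarith)]
    linarith
  rw [norm_prod]
  have hsq : Real.exp (-20) ≤ (∏ j ∈ S, ‖mob (((1 - 1/(2*M) : ℝ) : ℂ) * gr M α j) w‖)^2 := by
    rw [← Finset.prod_pow]
    calc Real.exp (-20) ≤ Real.exp (∑ j ∈ S,
          -(4 * (1 - ‖mob (((1 - 1/(2*M) : ℝ) : ℂ) * gr M α j) w‖^2))) := by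
          apply Real.exp_le_exp.2
          rw [Finset.sum_neg_distrib, ← Finset.mul_sum, neg_le_neg_iff]
          have h1 := grid_mob hM α hw
          have h2 : ∑ j ∈ S, (1 - ‖mob (((1 - 1/(2*M) : ℝ) : ℂ) * gr M α j) w‖^2) ≤
              ∑ j ∈ Finset.range M, (1 - ‖mob (((1 - 1/(2*M) : ℝ) : ℂ) * gr M α j) w‖^2) := by
            apply Finset.sum_le_sum_of_subset_of_nonneg hS
            intro j _ _
            have := norm_mob_le (ha j) hw.le
            nlinarith [norm_nonneg (mob (((1 - 1/(2*M) : ℝ) : ℂ) * gr M α j) w)]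
          linarith
      _ = ∏ j ∈ S, Real.exp (-(4 * (1 - ‖mob (((1 - 1/(2*M) : ℝ) : ℂ) * gr M α j) w‖^2))) :=
          Real.exp_sum _ _
      _ ≤ ∏ j ∈ S, ‖mob (((1 - 1/(2*M) : ℝ) : ℂ) * gr M α j) w‖^2 := by
          apply Finset.prod_le_prod (fun _ _ => (Real.exp_pos _).le)
          intro j hj
          have h1 := norm_mob_le (ha j) hw.le
          have h2 := hfar j hj
          apply exp_le_of_quarter
          · nlinarith
          · exact pow_le_one₀ (norm_nonneg _) h1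
  have h3 : Real.exp (-10) ^ 2 = Real.exp (-20) := by
    rw [← Real.exp_nat_mul]; norm_num
  rw [← h3] at hsq
  exact le_of_sq_le_sq hsq (Finset.prod_nonneg fun _ _ => norm_nonneg _)

end Pool.Agent.Helper34.Bw
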