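import Pool.Agent.Helper34.Bw.Landau

set_option autoImplicit false

namespace Pool.Agent.Helper34.Bw

open Complex Metric Set Filter Topology MeasureTheory

lemma circleMap_zero_eq (r θ : ℝ) : circleMap 0 r θ = (r : ℂ) * exp (θ * I) := by
  simp [circleMap]

/-- An inner function is bounded by one. -/
lemma IsInner.norm_le_one {Θ : ℂ → ℂ} (h : IsInner Θ) {w : ℂ} (hw : ‖w‖ < 1) : ‖Θ w‖ ≤ 1 := by
  obtain ⟨hd, ⟨M, hM⟩, hae⟩ := h
  have hwb : w ∈ ball (0 : ℂ) 1 := by simpa using hw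
  -- the Poisson kernel
  set P : ℝ → ℝ := fun θ => poissonKernel 0 w (circleMap 0 1 θ) with hP
  have hPval : ∀ θ, P θ = (1 - ‖w‖ ^ 2) / ‖circleMap 0 1 θ - w‖ ^ 2 := by
    intro θ
    simp only [hP, poissonKernel_def, sub_zero, norm_circleMap_zero, abs_one, one_pow]
  have hne : ∀ θ : ℝ, circleMap 0 1 θ - w ≠ 0 := by
    intro θ h0
    have : ‖circleMap 0 1 θ‖ = ‖w‖ := by rw [sub_eq_zero.1 h0]
    rw [norm_circleMap_zero, abs_one] at this
    linarith
  have hPc : Continuous P := by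
    have : P = fun θ => (1 - ‖w‖ ^ 2) / ‖circleMap 0 1 θ - w‖ ^ 2 := funext hPval
    rw [this]
    apply Continuous.div continuous_const
    · exact (((continuous_circleMap 0 1).sub continuous_const).norm).pow 2
    · intro θ
      exact pow_ne_zero 2 (norm_ne_zero_iff.2 (hne θ))
  have hP0 : ∀ θ, 0 ≤ P θ := by
    intro θ
    rw [hPval]
    apply div_nonneg _ (by positivity)
    nlinarith [norm_nonneg w]
  have hP1 : (2 * Real.pi)⁻¹ * ∫ θ in (0:ℝ)..(2 * Real.pi), P θ = 1 := by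
    have h1 := DiffContOnCl.circleAverage_poissonKernel_smul (f := fun _ : ℂ => (1:ℝ) • (1:ℂ))
      (c := 0) (R := 1) (diffContOnCl_const) hwb
    have h2 : Real.circleAverage (poissonKernel 0 w • fun _ : ℂ => (1:ℝ) • (1:ℂ)) 0 1 =
        (((2 * Real.pi)⁻¹ * ∫ θ in (0:ℝ)..(2 * Real.pi), P θ : ℝ) : ℂ) := by
      rw [Real.circleAverage]
      simp only [Pi.smul_apply', Complex.real_smul, one_smul, mul_one]
      rw [intervalIntegral.integral_ofReal]
      push_cast
      rfl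
    rw [h2] at h1
    have h3 : (((2 * Real.pi)⁻¹ * ∫ θ in (0:ℝ)..(2 * Real.pi), P θ : ℝ) : ℂ) = ((1:ℝ) : ℂ) := by
      rw [h1]; simp
    exact Complex.ofReal_injective h3
  -- for every r < 1
  have hstep : ∀ r ∈ Ioo (0:ℝ) 1, ‖Θ ((r : ℂ) * w)‖ ≤
      (2 * Real.pi)⁻¹ * ∫ θ in (0:ℝ)..(2 * Real.pi), P θ * ‖Θ ((r : ℂ) * exp (θ * I))‖ := by
    intro r hr
    have hmem : ∀ z : ℂ, ‖z‖ ≤ 1 → (r : ℂ) * z ∈ ball (0:ℂ) 1 := by
      intro z hz
      rw [mem_ball_zero_iff, norm_mul, Complex.norm_real, Real.norm_eq_abs, abs_of_pos hr.1]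
      nlinarith [hr.1, hr.2, norm_nonneg z]
    have hF : DiffContOnCl ℂ (fun z => Θ ((r : ℂ) * z)) (ball 0 1) := by
      apply DifferentiableOn.diffContOnCl
      rw [closure_ball _ one_ne_zero]
      intro z hz
      have hz' : ‖z‖ ≤ 1 := by simpa using hz
      have h1 : DifferentiableAt ℂ Θ ((r : ℂ) * z) :=
        hd.differentiableAt (isOpen_ball.mem_nhds (hmem z hz'))
      exact (h1.comp z (by fun_prop : DifferentiableAt ℂ (fun z : ℂ => (r : ℂ) * z) z)).differentiableWithinAt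
    have h1 := hF.circleAverage_poissonKernel_smul hwb
    have h2 : Real.circleAverage (poissonKernel 0 w • fun z => Θ ((r : ℂ) * z)) 0 1 =
        (2 * Real.pi)⁻¹ • ∫ θ in (0:ℝ)..(2 * Real.pi), (P θ : ℂ) * Θ ((r : ℂ) * exp (θ * I)) := by
      rw [Real.circleAverage]
      congr 1
      apply intervalIntegral.integral_congr
      intro θ _
      simp [hP, Complex.real_smul, circleMap_zero_eq]
    rw [h2] at h1
    have h3 : ‖Θ ((r : ℂ) * w)‖ = (2 * Real.pi)⁻¹ *
        ‖∫ θ in (0:ℝ)..(2 * Real.pi), (P θ : ℂ) * Θ ((r : ℂ) * exp (θ * I))‖ := by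
      rw [← h1, norm_smul, Real.norm_eq_abs, abs_of_pos (by positivity)]
    rw [h3]
    apply mul_le_mul_of_nonneg_left _ (by positivity)
    have hcont : Continuous fun θ : ℝ => Θ ((r : ℂ) * exp (θ * I)) := by
      rw [continuous_iff_continuousAt]
      intro θ
      have h1 : ContinuousAt Θ ((r : ℂ) * exp (θ * I)) :=
        (hd.differentiableAt (isOpen_ball.mem_nhds
          (hmem _ (by rw [Complex.norm_exp_ofReal_mul_I])))).continuousAt
      exact h1.comp (f := fun θ : ℝ => (r : ℂ) * exp (θ * I)) (by fun_prop)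
    apply intervalIntegral.norm_integral_le_of_norm_le (by positivity)
    · apply Eventually.of_forall
      intro θ _
      rw [norm_mul, Complex.norm_real, Real.norm_eq_abs, abs_of_nonneg (hP0 θ)]
    · exact (hPc.mul hcont.norm).intervalIntegrable _ _
  -- limit
  have hlim : Tendsto (fun r : ℝ => ∫ θ in (0:ℝ)..(2 * Real.pi), P θ * ‖Θ ((r : ℂ) * exp (θ * I))‖)
      (𝓝[<] 1) (𝓝 (∫ θ in (0:ℝ)..(2 * Real.pi), P θ * 1)) := by
    have hmem : ∀ r ∈ Ioo (0:ℝ) 1, ∀ θ : ℝ, (r : ℂ) * exp (θ * I) ∈ ball (0:ℂ) 1 := by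
      intro r hr θ
      rw [mem_ball_zero_iff, norm_mul, Complex.norm_real, Real.norm_eq_abs, abs_of_pos hr.1,
        Complex.norm_exp_ofReal_mul_I, mul_one]
      exact hr.2
    apply intervalIntegral.tendsto_integral_filter_of_dominated_convergence (fun θ => P θ * M)
    · filter_upwards [Ioo_mem_nhdsLT (show (0:ℝ) < 1 by norm_num)] with r hr
      have hcont : Continuous fun θ : ℝ => Θ ((r : ℂ) * exp (θ * I)) := by
        rw [continuous_iff_continuousAt]
        intro θ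
        have h1 : ContinuousAt Θ ((r : ℂ) * exp (θ * I)) :=
          (hd.differentiableAt (isOpen_ball.mem_nhds (hmem r hr θ))).continuousAt
        exact h1.comp (f := fun θ : ℝ => (r : ℂ) * exp (θ * I)) (by fun_prop)
      exact (hPc.mul hcont.norm).aestronglyMeasurable
    · filter_upwards [Ioo_mem_nhdsLT (show (0:ℝ) < 1 by norm_num)] with r hr
      apply Eventually.of_forall
      intro θ _
      rw [norm_mul, Real.norm_eq_abs, abs_of_nonneg (hP0 θ), norm_norm]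
      exact mul_le_mul_of_nonneg_left (hM _ (hmem r hr θ)) (hP0 θ)
    · exact (hPc.mul continuous_const).intervalIntegrable _ _
    · filter_upwards [hae] with θ hθ _
      obtain ⟨v, hv, hv2⟩ := hθ
      have := hv2.norm
      rw [hv] at this
      exact this.const_mul _
  have h1 : Tendsto (fun r : ℝ => ‖Θ ((r : ℂ) * w)‖) (𝓝[<] 1) (𝓝 ‖Θ w‖) := by
    have hc : ContinuousAt Θ w := (hd.differentiableAt (isOpen_ball.mem_nhds hwb)).continuousAt
    have h2 : Tendsto (fun r : ℝ => (r : ℂ) * w) (𝓝[<] 1) (𝓝 w) := by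
      have : Tendsto (fun r : ℝ => (r : ℂ) * w) (𝓝 1) (𝓝 (((1:ℝ) : ℂ) * w)) :=
        (by fun_prop : Continuous fun r : ℝ => (r : ℂ) * w).tendsto 1
      simp only [Complex.ofReal_one, one_mul] at this
      exact this.mono_left nhdsWithin_le_nhds
    exact (hc.tendsto.comp h2).norm
  have h2 := le_of_tendsto_of_tendsto h1 (hlim.const_mul ((2 * Real.pi)⁻¹)) (by
    filter_upwards [Ioo_mem_nhdsLT (show (0:ℝ) < 1 by norm_num)] with r hr
    exact hstep r hr)
  simp only [mul_one] at h2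
  rwa [hP1] at h2

lemma exp_mul_mem {w ζ : ℂ} (hw : w.re < 0) (hζ : ‖ζ‖ = 1) : exp w * ζ ∈ ball (0:ℂ) 1 := by
  rw [mem_ball_zero_iff, norm_mul, hζ, mul_one, Complex.norm_exp]
  exact Real.exp_lt_one_iff.2 hw

/-- The key estimate: an inner function that is bounded below near a boundary point. -/
lemma inner_key {Θ : ℂ → ℂ} (h : IsInner Θ) {ε : ℝ} (hε0 : 0 < ε) (hε1 : ε ≤ 1) {θ₀ a τ : ℝ}
    (hτ0 : 0 < τ) (hτa : τ < a)
    (hlow : ∀ w : ℂ, -a ≤ w.re → w.re < 0 → |w.im| ≤ a → ε ≤ ‖Θ (exp w * exp (θ₀ * I))‖) :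
    Real.exp (-(2 * Real.log (1 / ε)) * (τ / (a + τ))) ≤
      ‖Θ (exp ((-τ : ℝ) : ℂ) * exp (θ₀ * I))‖ := by
  have ha : 0 < a := hτ0.trans hτa
  set lam : ℝ := Real.log (1 / ε) with hlam
  have hlam0 : 0 ≤ lam := Real.log_nonneg (by rw [le_div_iff₀ hε0]; linarith)
  have hexp : Real.exp (-lam) = ε := by
    rw [hlam, one_div, Real.log_inv, neg_neg, Real.exp_log hε0]
  set ζ : ℂ := exp (θ₀ * I) with hζ
  have hζ1 : ‖ζ‖ = 1 := Complex.norm_exp_ofReal_mul_I θ₀
  set q : ℂ → ℂ := fun w => (-w) / ((a : ℂ) + (-w)) with hq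
  set G : ℂ → ℂ := fun w => exp (-(2 * lam : ℝ) * q w) / Θ (exp w * ζ) with hG
  have hnormG : ∀ w, ‖G w‖ = Real.exp (-(2 * lam) * (q w).re) / ‖Θ (exp w * ζ)‖ := by
    intro w
    simp only [hG]
    rw [norm_div, Complex.norm_exp]
    congr 2
    rw [← Complex.ofReal_neg, Complex.re_ofReal_mul]
  have hqre : ∀ w : ℂ, w.re < 0 → 0 ≤ (q w).re := fun w hw =>
    re_div_add_nonneg ha.le (by simp; linarith)
  have hGB : ∀ w : ℂ, -a ≤ w.re → w.re < 0 → |w.im| ≤ a → ‖G w‖ ≤ 1 / ‖Θ (exp w * ζ)‖ := by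
    intro w h1 h2 h3
    rw [hnormG]
    apply div_le_div_of_nonneg_right _ (norm_nonneg _)
    rw [Real.exp_le_one_iff]
    have := hqre w h2
    nlinarith
  have hmain := landau (G := G) hτ0 hτa (B := 1 / ε) ?_ ?_ ?_ ?_
  · -- conclusion
    have h1 : (q ((-τ : ℝ) : ℂ)).re = τ / (a + τ) := by
      simp only [hq]
      have : (-((-τ : ℝ) : ℂ)) / ((a : ℂ) + -((-τ : ℝ) : ℂ)) = ((τ / (a + τ) : ℝ) : ℂ) := by
        push_cast
        rw [neg_neg]
      rw [this, Complex.ofReal_re]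
    rw [hnormG, h1] at hmain
    have h2 : 0 < ‖Θ (exp ((-τ : ℝ) : ℂ) * ζ)‖ := lt_of_lt_of_le hε0
      (hlow _ (by simp; linarith) (by simpa using hτ0) (by simpa using ha.le))
    rwa [div_le_one h2] at hmain
  · -- differentiability
    intro w h1 h2 h3
    have hΘ : DifferentiableAt ℂ Θ (exp w * ζ) :=
      h.1.differentiableAt (isOpen_ball.mem_nhds (exp_mul_mem h2 hζ1))
    have hne : Θ (exp w * ζ) ≠ 0 := by
      rw [← norm_pos_iff]; exact lt_of_lt_of_le hε0 (hlow w h1 h2 h3)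
    have hden : (a : ℂ) + (-w) ≠ 0 := by
      intro h0
      have := congrArg Complex.re h0
      simp at this
      linarith
    have hq' : DifferentiableAt ℂ q w := by
      change DifferentiableAt ℂ (fun w : ℂ => (-w) / ((a : ℂ) + (-w))) w
      exact DifferentiableAt.fun_div (by fun_prop) (by fun_prop) hden
    have hcomp : DifferentiableAt ℂ (fun w => Θ (exp w * ζ)) w :=
      hΘ.comp w (by fun_prop : DifferentiableAt ℂ (fun w : ℂ => exp w * ζ) w)
    exact DifferentiableAt.div ((hq'.const_mul _).cexp) hcomp hne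
  · -- sides
    intro w h1 h2 h3 h4
    rw [hnormG]
    have hpos : 0 < ‖Θ (exp w * ζ)‖ := lt_of_lt_of_le hε0 (hlow w h1 h2 h3)
    rw [div_le_one hpos]
    refine le_trans ?_ (hlow w h1 h2 h3)
    rw [← hexp]
    apply Real.exp_le_exp.2
    have h5 : 1 / 2 ≤ (q w).re := by
      apply half_le_re_div_add ha (by simp; linarith)
      rw [Complex.normSq_apply]
      simp only [Complex.neg_re, Complex.neg_im]
      rcases h4 with h4 | h4
      · rw [h4]; nlinarith
      · have : w.im ^ 2 = a ^ 2 := by rw [← sq_abs, h4]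
        nlinarith
    nlinarith
  · intro w h1 h2 h3
    refine (hGB w h1 h2 h3).trans ?_
    exact one_div_le_one_div_of_le hε0 (hlow w h1 h2 h3)
  · -- a.e. radial limits
    have hshift : ∀ᵐ y : ℝ, ∃ v : ℂ, ‖v‖ = 1 ∧
        Tendsto (fun r : ℝ => Θ (r * exp ((θ₀ + y : ℝ) * I))) (𝓝[<] 1) (𝓝 v) :=
      (measurePreserving_add_left volume θ₀).quasiMeasurePreserving.ae h.2.2
    filter_upwards [hshift] with y hy hya η hη
    obtain ⟨v, hv, hlim⟩ := hy
    have hr : Tendsto (fun ρ : ℝ => Real.exp (-ρ)) (𝓝[>] 0) (𝓝[<] 1) := by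
      rw [tendsto_nhdsWithin_iff]
      constructor
      · have : Tendsto (fun ρ : ℝ => Real.exp (-ρ)) (𝓝 0) (𝓝 (Real.exp (-0))) :=
          (by fun_prop : Continuous fun ρ : ℝ => Real.exp (-ρ)).tendsto 0
        rw [neg_zero, Real.exp_zero] at this
        exact this.mono_left nhdsWithin_le_nhds
      · filter_upwards [self_mem_nhdsWithin] with ρ hρ
        exact Real.exp_lt_one_iff.2 (by simpa using hρ)
    have h1 := (hlim.comp hr).norm
    rw [hv] at h1
    have h2 : Tendsto (fun ρ : ℝ => 1 / ‖Θ (exp (((-ρ : ℝ) : ℂ) + (y : ℂ) * I) * ζ)‖) (𝓝[>] 0)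
        (𝓝 (1 / 1)) := by
      have h3 : (fun ρ : ℝ => ‖Θ (exp (((-ρ : ℝ) : ℂ) + (y : ℂ) * I) * ζ)‖) =
          fun ρ : ℝ => ‖Θ (((Real.exp (-ρ) : ℝ) : ℂ) * exp ((θ₀ + y : ℝ) * I))‖ := by
        funext ρ
        congr 2
        rw [Complex.exp_add, hζ]
        push_cast
        rw [add_mul, Complex.exp_add]
        ring
      have h4 : Tendsto (fun ρ : ℝ => ‖Θ (exp (((-ρ : ℝ) : ℂ) + (y : ℂ) * I) * ζ)‖) (𝓝[>] 0) (𝓝 1) := by
        rw [h3]; exact h1
      exact Tendsto.div tendsto_const_nhds h4 one_ne_zero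
    rw [div_one] at h2
    have h3 : ∀ᶠ ρ : ℝ in 𝓝[>] 0, 1 / ‖Θ (exp (((-ρ : ℝ) : ℂ) + (y : ℂ) * I) * ζ)‖ ≤ 1 + η :=
      (h2.eventually_lt_const (by linarith)).mono (fun _ h => h.le)
    filter_upwards [h3, Ioc_mem_nhdsGT ha] with ρ h5 h6
    exact (hGB _ (by simp; linarith [h6.2]) (by simpa using h6.1) (by simpa using hya)).trans h5

end Pool.Agent.Helper34.Bw
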