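import Pool.Agent.Helper34.Bw.Mob

set_option autoImplicit false

namespace Pool.Agent.Helper34.Bw

open Complex Metric Set Filter Topology MeasureTheory intervalIntegral
open scoped Interval

lemma le_one_of_pow_le {x C : ℝ} (h : ∀ n : ℕ, x ^ n ≤ C) : x ≤ 1 := by
  by_contra hx
  push Not at hx
  obtain ⟨n, hn⟩ := pow_unbounded_of_one_lt C hx
  linarith [h n]

section rect

variable {a τ : ℝ}

lemma pt_sub (x y : ℝ) : ((x : ℂ) + (y : ℂ) * I) - ((-τ : ℝ) : ℂ) = ((x + τ : ℝ) : ℂ) + (y : ℂ) * I := by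
  push_cast; ring

lemma inv_im (x y : ℝ) : ((((x : ℂ) + (y : ℂ) * I) - ((-τ : ℝ) : ℂ))⁻¹).im =
    -y / ((x + τ)^2 + y^2) := by
  rw [pt_sub, Complex.inv_im, Complex.normSq_add_mul_I]
  simp

lemma inv_re (x y : ℝ) : ((((x : ℂ) + (y : ℂ) * I) - ((-τ : ℝ) : ℂ))⁻¹).re =
    (x + τ) / ((x + τ)^2 + y^2) := by
  rw [pt_sub, Complex.inv_re, Complex.normSq_add_mul_I]
  simp

lemma norm_pt_sub_ge_im (x y : ℝ) : |y| ≤ ‖((x : ℂ) + (y : ℂ) * I) - ((-τ : ℝ) : ℂ)‖ := by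
  rw [pt_sub]
  have := Complex.abs_im_le_norm (((x + τ : ℝ) : ℂ) + (y : ℂ) * I)
  simpa using this

lemma norm_pt_sub_ge_re (x y : ℝ) : |x + τ| ≤ ‖((x : ℂ) + (y : ℂ) * I) - ((-τ : ℝ) : ℂ)‖ := by
  rw [pt_sub]
  have := Complex.abs_re_le_norm (((x + τ : ℝ) : ℂ) + (y : ℂ) * I)
  simpa using this

/-- One step of the Landau trick on a rectangle. -/
lemma landau_step {G : ℂ → ℂ} (hτ0 : 0 < τ) (hτa : τ < a) {ρ : ℝ} (hρ0 : 0 < ρ) (hρ : ρ ≤ τ / 2)
    (hd : ∀ w : ℂ, -a ≤ w.re → w.re < 0 → |w.im| ≤ a → DifferentiableAt ℂ G w)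
    (hside : ∀ w : ℂ, -a ≤ w.re → w.re < 0 → |w.im| ≤ a → (w.re = -a ∨ |w.im| = a) → ‖G w‖ ≤ 1)
    (hint : IntervalIntegrable (fun y : ℝ => ‖G (((-ρ : ℝ) : ℂ) + (y : ℂ) * I)‖) volume (-a) a) :
    ‖G ((-τ : ℝ) : ℂ)‖ * (1 / 4) ≤ 2 + 2 * a / (a - τ) + (2 / τ) *
      ∫ y in (-a)..a, ‖G (((-ρ : ℝ) : ℂ) + (y : ℂ) * I)‖ := by
  have ha : 0 < a := hτ0.trans hτa
  have hρa : -a ≤ -ρ := by linarith
  set w₀ : ℂ := ((-τ : ℝ) : ℂ) with hw₀
  have hw₀re : w₀.re = -τ := by simp [hw₀]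
  have hw₀im : w₀.im = 0 := by simp [hw₀]
  -- the rectangle
  have hrect : ([[(⟨-a, -a⟩ : ℂ).re, (⟨-ρ, a⟩ : ℂ).re]] ×ℂ [[(⟨-a, -a⟩ : ℂ).im, (⟨-ρ, a⟩ : ℂ).im]])
      ⊆ {w : ℂ | -a ≤ w.re ∧ w.re < 0 ∧ |w.im| ≤ a} := by
    intro w hw
    rw [mem_reProdIm] at hw
    simp only [uIcc_of_le hρa, uIcc_of_le (show -a ≤ a by linarith)] at hw
    exact ⟨hw.1.1, by linarith [hw.1.2], abs_le.2 hw.2⟩
  have hG0 : DifferentiableAt ℂ G w₀ := hd w₀ (by rw [hw₀re]; linarith) (by rw [hw₀re]; linarith)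
    (by rw [hw₀im]; simpa using ha.le)
  have hC := Complex.integral_boundary_rect_eq_zero_of_differentiable_on_off_countable
    (dslope G w₀) ⟨-a, -a⟩ ⟨-ρ, a⟩ {w₀} (countable_singleton _) (by
      intro w hw
      have h3 := hrect hw
      by_cases h : w = w₀
      · subst h
        exact (continuousAt_dslope_same.2 hG0).continuousWithinAt
      · exact ((continuousAt_dslope_of_ne h).2 (hd w h3.1 h3.2.1 h3.2.2).continuousAt).continuousWithinAt)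
    (by
      intro w hw
      have h3 := hrect (by
        have h1 := hw.1
        rw [mem_reProdIm] at h1 ⊢
        exact ⟨Ioo_subset_Icc_self h1.1, Ioo_subset_Icc_self h1.2⟩)
      have h : w ≠ w₀ := hw.2
      exact (differentiableAt_dslope_of_ne h).2 (hd w h3.1 h3.2.1 h3.2.2))
  simp only [smul_eq_mul] at hC
  -- differentiability of G along the sides
  have hcont : ∀ w : ℂ, -a ≤ w.re → w.re < 0 → |w.im| ≤ a → ContinuousAt G w :=
    fun w h1 h2 h3 => (hd w h1 h2 h3).continuousAt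
  -- horizontal side
  have hhor : ∀ y : ℝ, |y| = a →
      IntervalIntegrable (fun x : ℝ => G ((x : ℂ) + (y : ℂ) * I) * (((x : ℂ) + (y : ℂ) * I) - w₀)⁻¹)
        volume (-a) (-ρ) ∧
      IntervalIntegrable (fun x : ℝ => (((x : ℂ) + (y : ℂ) * I) - w₀)⁻¹) volume (-a) (-ρ) ∧
      ‖∫ x in (-a)..(-ρ), G ((x : ℂ) + (y : ℂ) * I) * (((x : ℂ) + (y : ℂ) * I) - w₀)⁻¹‖ ≤ 1 := by
    intro y hy
    have hne : ∀ x : ℝ, ((x : ℂ) + (y : ℂ) * I) - w₀ ≠ 0 := by
      intro x h0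
      have := norm_pt_sub_ge_im (τ := τ) x y
      rw [h0, norm_zero, hy] at this
      linarith
    have hcD : Continuous (fun x : ℝ => (((x : ℂ) + (y : ℂ) * I) - w₀)⁻¹) := by
      apply Continuous.inv₀ _ hne
      fun_prop
    have hcG : ContinuousOn (fun x : ℝ => G ((x : ℂ) + (y : ℂ) * I)) (uIcc (-a) (-ρ)) := by
      intro x hx
      rw [uIcc_of_le hρa] at hx
      have h1 : ContinuousAt G ((x : ℂ) + (y : ℂ) * I) :=
        hcont _ (by simpa using hx.1) (by simp; linarith [hx.2]) (by simpa using hy.le)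
      exact (h1.comp (f := fun x : ℝ => (x : ℂ) + (y : ℂ) * I) (by fun_prop)).continuousWithinAt
    refine ⟨(hcG.mul hcD.continuousOn).intervalIntegrable, hcD.intervalIntegrable _ _, ?_⟩
    have h1 : ∀ x ∈ Ι (-a) (-ρ), ‖G ((x : ℂ) + (y : ℂ) * I) * (((x : ℂ) + (y : ℂ) * I) - w₀)⁻¹‖ ≤
        1 / a := by
      intro x hx
      rw [uIoc_of_le hρa] at hx
      rw [norm_mul, norm_inv]
      have h2 : ‖G ((x : ℂ) + (y : ℂ) * I)‖ ≤ 1 :=
        hside _ (by simpa using hx.1.le) (by simp; linarith [hx.2]) (by simpa using hy.le)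
          (Or.inr (by simpa using hy))
      have h3 := norm_pt_sub_ge_im (τ := τ) x y
      rw [hy] at h3
      have h4 : ‖((x : ℂ) + (y : ℂ) * I) - w₀‖⁻¹ ≤ a⁻¹ := inv_anti₀ ha h3
      rw [one_div]
      calc _ ≤ 1 * a⁻¹ := mul_le_mul h2 h4 (by positivity) zero_le_one
        _ = a⁻¹ := one_mul _
    refine (norm_integral_le_of_norm_le_const h1).trans ?_
    rw [abs_of_nonneg (by linarith), div_mul_eq_mul_div, one_mul, div_le_one ha]
    linarith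
  -- vertical sides
  have hver : ∀ x : ℝ, -a ≤ x → x < 0 → x ≠ -τ →
      IntervalIntegrable (fun y : ℝ => G ((x : ℂ) + (y : ℂ) * I) * (((x : ℂ) + (y : ℂ) * I) - w₀)⁻¹)
        volume (-a) a ∧
      IntervalIntegrable (fun y : ℝ => (((x : ℂ) + (y : ℂ) * I) - w₀)⁻¹) volume (-a) a := by
    intro x hx1 hx2 hx3
    have hne : ∀ y : ℝ, ((x : ℂ) + (y : ℂ) * I) - w₀ ≠ 0 := by
      intro y h0
      have := norm_pt_sub_ge_re (τ := τ) x y
      rw [h0, norm_zero] at this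
      have h2 : x + τ = 0 := abs_eq_zero.1 (le_antisymm this (abs_nonneg _))
      apply hx3; linarith
    have hcD : Continuous (fun y : ℝ => (((x : ℂ) + (y : ℂ) * I) - w₀)⁻¹) := by
      apply Continuous.inv₀ _ hne
      fun_prop
    have hcG : ContinuousOn (fun y : ℝ => G ((x : ℂ) + (y : ℂ) * I)) (uIcc (-a) a) := by
      intro y hy
      rw [uIcc_of_le (by linarith)] at hy
      have h1 : ContinuousAt G ((x : ℂ) + (y : ℂ) * I) :=
        hcont _ (by simpa using hx1) (by simpa using hx2) (by simpa using abs_le.2 hy)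
      exact (h1.comp (f := fun y : ℝ => (x : ℂ) + (y : ℂ) * I) (by fun_prop)).continuousWithinAt
    exact ⟨(hcG.mul hcD.continuousOn).intervalIntegrable, hcD.intervalIntegrable _ _⟩
  -- rewrite dslope
  have hds : ∀ w : ℂ, w ≠ w₀ → dslope G w₀ w = G w * (w - w₀)⁻¹ - G w₀ * (w - w₀)⁻¹ := by
    intro w hw
    rw [dslope_of_ne _ hw, slope_def_field, div_eq_mul_inv, sub_mul]
  have hb := hhor (-a) (by rw [abs_neg, abs_of_pos ha])
  have ht := hhor a (abs_of_pos ha)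
  have hr := hver (-ρ) (by linarith) (by linarith) (by intro h; linarith)
  have hl := hver (-a) le_rfl (by linarith) (by intro h; linarith)
  have e1 : (∫ x : ℝ in (-a)..(-ρ), dslope G w₀ ((x : ℂ) + ((-a : ℝ) : ℂ) * I)) =
      (∫ x : ℝ in (-a)..(-ρ), G ((x : ℂ) + ((-a : ℝ) : ℂ) * I) * (((x : ℂ) + ((-a : ℝ) : ℂ) * I) - w₀)⁻¹) -
      G w₀ * ∫ x : ℝ in (-a)..(-ρ), (((x : ℂ) + ((-a : ℝ) : ℂ) * I) - w₀)⁻¹ := by
    rw [← intervalIntegral.integral_const_mul, ← intervalIntegral.integral_sub hb.1 (hb.2.1.const_mul _)]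
    apply intervalIntegral.integral_congr
    intro x _
    apply hds
    intro h
    have := congrArg Complex.im h
    simp [hw₀im] at this
    linarith
  have e2 : (∫ x : ℝ in (-a)..(-ρ), dslope G w₀ ((x : ℂ) + ((a : ℝ) : ℂ) * I)) =
      (∫ x : ℝ in (-a)..(-ρ), G ((x : ℂ) + ((a : ℝ) : ℂ) * I) * (((x : ℂ) + ((a : ℝ) : ℂ) * I) - w₀)⁻¹) -
      G w₀ * ∫ x : ℝ in (-a)..(-ρ), (((x : ℂ) + ((a : ℝ) : ℂ) * I) - w₀)⁻¹ := by
    rw [← intervalIntegral.integral_const_mul, ← intervalIntegral.integral_sub ht.1 (ht.2.1.const_mul _)]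
    apply intervalIntegral.integral_congr
    intro x _
    apply hds
    intro h
    have := congrArg Complex.im h
    simp [hw₀im] at this
    linarith
  have e3 : (∫ y : ℝ in (-a)..a, dslope G w₀ (((-ρ : ℝ) : ℂ) + (y : ℂ) * I)) =
      (∫ y : ℝ in (-a)..a, G (((-ρ : ℝ) : ℂ) + (y : ℂ) * I) * ((((-ρ : ℝ) : ℂ) + (y : ℂ) * I) - w₀)⁻¹) -
      G w₀ * ∫ y : ℝ in (-a)..a, ((((-ρ : ℝ) : ℂ) + (y : ℂ) * I) - w₀)⁻¹ := by
    rw [← intervalIntegral.integral_const_mul, ← intervalIntegral.integral_sub hr.1 (hr.2.const_mul _)]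
    apply intervalIntegral.integral_congr
    intro x _
    apply hds
    intro h
    have := congrArg Complex.re h
    simp [hw₀re] at this
    linarith
  have e4 : (∫ y : ℝ in (-a)..a, dslope G w₀ (((-a : ℝ) : ℂ) + (y : ℂ) * I)) =
      (∫ y : ℝ in (-a)..a, G (((-a : ℝ) : ℂ) + (y : ℂ) * I) * ((((-a : ℝ) : ℂ) + (y : ℂ) * I) - w₀)⁻¹) -
      G w₀ * ∫ y : ℝ in (-a)..a, ((((-a : ℝ) : ℂ) + (y : ℂ) * I) - w₀)⁻¹ := by
    rw [← intervalIntegral.integral_const_mul, ← intervalIntegral.integral_sub hl.1 (hl.2.const_mul _)]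
    apply intervalIntegral.integral_congr
    intro x _
    apply hds
    intro h
    have := congrArg Complex.re h
    simp [hw₀re] at this
    linarith
  rw [e1, e2, e3, e4] at hC
  set B1 := ∫ x : ℝ in (-a)..(-ρ), G ((x : ℂ) + ((-a : ℝ) : ℂ) * I) * (((x : ℂ) + ((-a : ℝ) : ℂ) * I) - w₀)⁻¹ with hB1
  set B2 := ∫ x : ℝ in (-a)..(-ρ), G ((x : ℂ) + ((a : ℝ) : ℂ) * I) * (((x : ℂ) + ((a : ℝ) : ℂ) * I) - w₀)⁻¹ with hB2
  set B3 := ∫ y : ℝ in (-a)..a, G (((-ρ : ℝ) : ℂ) + (y : ℂ) * I) * ((((-ρ : ℝ) : ℂ) + (y : ℂ) * I) - w₀)⁻¹ with hB3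
  set B4 := ∫ y : ℝ in (-a)..a, G (((-a : ℝ) : ℂ) + (y : ℂ) * I) * ((((-a : ℝ) : ℂ) + (y : ℂ) * I) - w₀)⁻¹ with hB4
  set D1 := ∫ x : ℝ in (-a)..(-ρ), (((x : ℂ) + ((-a : ℝ) : ℂ) * I) - w₀)⁻¹ with hD1
  set D2 := ∫ x : ℝ in (-a)..(-ρ), (((x : ℂ) + ((a : ℝ) : ℂ) * I) - w₀)⁻¹ with hD2
  set D3 := ∫ y : ℝ in (-a)..a, ((((-ρ : ℝ) : ℂ) + (y : ℂ) * I) - w₀)⁻¹ with hD3
  set D4 := ∫ y : ℝ in (-a)..a, ((((-a : ℝ) : ℂ) + (y : ℂ) * I) - w₀)⁻¹ with hD4
  have hJ : G w₀ * (D1 - D2 + I * D3 - I * D4) = B1 - B2 + I * B3 - I * B4 := by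
    linear_combination -hC
  -- lower bound for J
  have i1 : 1 / 4 ≤ D1.im := by
    have h1 : D1.im = ∫ x : ℝ in (-a)..(-ρ), ((((x : ℂ) + ((-a : ℝ) : ℂ) * I) - w₀)⁻¹).im :=
      (Complex.imCLM.intervalIntegral_comp_comm hb.2.1).symm
    rw [h1]
    have h2 : ∫ x : ℝ in (-a)..(-ρ), (1 / (2 * a)) ≤
        ∫ x : ℝ in (-a)..(-ρ), ((((x : ℂ) + ((-a : ℝ) : ℂ) * I) - w₀)⁻¹).im := by
      apply intervalIntegral.integral_mono_on hρa (by simp)
        ⟨hb.2.1.1.im, hb.2.1.2.im⟩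
      intro x hx
      have hpos : 0 < (x + τ)^2 + (-a)^2 := by
        have : 0 < (-a)^2 := by rw [neg_sq]; positivity
        positivity
      change 1 / (2 * a) ≤ ((((x : ℂ) + ((-a : ℝ) : ℂ) * I) - w₀)⁻¹).im
      rw [inv_im, neg_neg, div_le_div_iff₀ (by positivity) hpos]
      have : (x + τ)^2 ≤ a^2 := by
        rw [sq_le_sq, abs_of_pos ha, abs_le]
        constructor <;> linarith [hx.1, hx.2]
      nlinarith
    rw [intervalIntegral.integral_const, smul_eq_mul] at h2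
    refine le_trans ?_ h2
    rw [mul_one_div, div_le_div_iff₀ (by norm_num) (by positivity)]
    linarith
  have i2 : D2.im ≤ 0 := by
    have h1 : D2.im = ∫ x : ℝ in (-a)..(-ρ), ((((x : ℂ) + ((a : ℝ) : ℂ) * I) - w₀)⁻¹).im :=
      (Complex.imCLM.intervalIntegral_comp_comm ht.2.1).symm
    have h2 : 0 ≤ ∫ x : ℝ in (-a)..(-ρ), -((((x : ℂ) + ((a : ℝ) : ℂ) * I) - w₀)⁻¹).im := by
      apply intervalIntegral.integral_nonneg hρa
      intro x hx
      rw [inv_im, ← neg_div, neg_neg]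
      positivity
    rw [intervalIntegral.integral_neg] at h2
    linarith
  have i3 : 0 ≤ D3.re := by
    have h1 : D3.re = ∫ y : ℝ in (-a)..a, (((((-ρ : ℝ) : ℂ) + (y : ℂ) * I) - w₀)⁻¹).re :=
      (Complex.reCLM.intervalIntegral_comp_comm hr.2).symm
    rw [h1]
    apply intervalIntegral.integral_nonneg (by linarith)
    intro x hx
    rw [inv_re]
    apply div_nonneg (by linarith) (by positivity)
  have i4 : D4.re ≤ 0 := by
    have h1 : D4.re = ∫ y : ℝ in (-a)..a, (((((-a : ℝ) : ℂ) + (y : ℂ) * I) - w₀)⁻¹).re :=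
      (Complex.reCLM.intervalIntegral_comp_comm hl.2).symm
    have h2 : 0 ≤ ∫ y : ℝ in (-a)..a, -(((((-a : ℝ) : ℂ) + (y : ℂ) * I) - w₀)⁻¹).re := by
      apply intervalIntegral.integral_nonneg (by linarith)
      intro x hx
      rw [inv_re, ← neg_div]
      apply div_nonneg (by linarith) (by positivity)
    rw [intervalIntegral.integral_neg] at h2
    linarith
  have hJim : 1 / 4 ≤ ‖D1 - D2 + I * D3 - I * D4‖ := by
    refine le_trans ?_ ((le_abs_self _).trans (Complex.abs_im_le_norm _))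
    simp only [Complex.sub_im, Complex.add_im, Complex.mul_im, Complex.I_re, Complex.I_im]
    linarith
  -- upper bounds
  have u3 : ‖B3‖ ≤ (2 / τ) * ∫ y in (-a)..a, ‖G (((-ρ : ℝ) : ℂ) + (y : ℂ) * I)‖ := by
    rw [← intervalIntegral.integral_const_mul]
    apply intervalIntegral.norm_integral_le_of_norm_le (by linarith) _ (hint.const_mul _)
    apply Eventually.of_forall
    intro y _
    rw [norm_mul, norm_inv, mul_comm]
    apply mul_le_mul_of_nonneg_right _ (norm_nonneg _)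
    have h3 := norm_pt_sub_ge_re (τ := τ) (-ρ) y
    rw [abs_of_pos (by linarith)] at h3
    have h4 : τ / 2 ≤ ‖(((-ρ : ℝ) : ℂ) + (y : ℂ) * I) - w₀‖ := by linarith
    calc ‖(((-ρ : ℝ) : ℂ) + (y : ℂ) * I) - w₀‖⁻¹ ≤ (τ / 2)⁻¹ := inv_anti₀ (by positivity) h4
      _ = 2 / τ := by rw [inv_div]
  have u4 : ‖B4‖ ≤ 2 * a / (a - τ) := by
    have h1 : ∀ y ∈ Ι (-a) a, ‖G (((-a : ℝ) : ℂ) + (y : ℂ) * I) * ((((-a : ℝ) : ℂ) + (y : ℂ) * I) - w₀)⁻¹‖ ≤
        1 / (a - τ) := by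
      intro y hy
      rw [uIoc_of_le (by linarith)] at hy
      rw [norm_mul, norm_inv]
      have h2 : ‖G (((-a : ℝ) : ℂ) + (y : ℂ) * I)‖ ≤ 1 :=
        hside _ (by simp) (by simpa using ha) (by simpa using abs_le.2 ⟨hy.1.le, hy.2⟩)
          (Or.inl (by simp))
      have h3 := norm_pt_sub_ge_re (τ := τ) (-a) y
      rw [abs_of_neg (by linarith)] at h3
      have h4 : ‖(((-a : ℝ) : ℂ) + (y : ℂ) * I) - w₀‖⁻¹ ≤ (a - τ)⁻¹ :=
        inv_anti₀ (by linarith) (by linarith)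
      rw [one_div]
      calc _ ≤ 1 * (a - τ)⁻¹ := mul_le_mul h2 h4 (by positivity) zero_le_one
        _ = (a - τ)⁻¹ := one_mul _
    refine (norm_integral_le_of_norm_le_const h1).trans ?_
    rw [abs_of_nonneg (by linarith), div_mul_eq_mul_div, one_mul]
    apply le_of_eq
    ring
  calc ‖G w₀‖ * (1 / 4) ≤ ‖G w₀‖ * ‖D1 - D2 + I * D3 - I * D4‖ :=
        mul_le_mul_of_nonneg_left hJim (norm_nonneg _)
    _ = ‖B1 - B2 + I * B3 - I * B4‖ := by rw [← norm_mul, hJ]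
    _ ≤ ‖B1‖ + ‖B2‖ + ‖B3‖ + ‖B4‖ := by
        refine (norm_sub_le _ _).trans ?_
        have h1 : ‖B1 - B2 + I * B3‖ ≤ ‖B1 - B2‖ + ‖I * B3‖ := norm_add_le _ _
        have h2 : ‖B1 - B2‖ ≤ ‖B1‖ + ‖B2‖ := norm_sub_le _ _
        have h3 : ‖I * B3‖ = ‖B3‖ := by rw [norm_mul, Complex.norm_I, one_mul]
        have h4 : ‖I * B4‖ = ‖B4‖ := by rw [norm_mul, Complex.norm_I, one_mul]
        linarith
    _ ≤ _ := by linarith [hb.2.2, ht.2.2]

/-- The Landau trick on a rectangle with boundary information almost everywhere on one side. -/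
lemma landau {G : ℂ → ℂ} (hτ0 : 0 < τ) (hτa : τ < a) {B : ℝ}
    (hd : ∀ w : ℂ, -a ≤ w.re → w.re < 0 → |w.im| ≤ a → DifferentiableAt ℂ G w)
    (hside : ∀ w : ℂ, -a ≤ w.re → w.re < 0 → |w.im| ≤ a → (w.re = -a ∨ |w.im| = a) → ‖G w‖ ≤ 1)
    (hB : ∀ w : ℂ, -a ≤ w.re → w.re < 0 → |w.im| ≤ a → ‖G w‖ ≤ B)
    (hae : ∀ᵐ y : ℝ, |y| ≤ a → ∀ η > 0, ∀ᶠ ρ : ℝ in 𝓝[>] 0,
      ‖G (((-ρ : ℝ) : ℂ) + (y : ℂ) * I)‖ ≤ 1 + η) :
    ‖G ((-τ : ℝ) : ℂ)‖ ≤ 1 := by
  have ha : 0 < a := hτ0.trans hτa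
  set B' := max B 1 with hB'
  have hB1 : 1 ≤ B' := le_max_right _ _
  apply le_one_of_pow_le (C := 4 * (2 + 2 * a / (a - τ) + (2 / τ) * (2 * a)))
  intro n
  -- continuity in y
  have hcont : ∀ ρ : ℝ, 0 < ρ → ρ ≤ τ / 2 →
      ContinuousOn (fun y : ℝ => ‖G (((-ρ : ℝ) : ℂ) + (y : ℂ) * I)‖) (uIcc (-a) a) := by
    intro ρ h0 h1 y hy
    rw [uIcc_of_le (by linarith)] at hy
    have h2 : ContinuousAt G (((-ρ : ℝ) : ℂ) + (y : ℂ) * I) :=
      (hd _ (by simp; linarith) (by simpa using h0) (by simpa using abs_le.2 hy)).continuousAt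
    exact ((h2.comp (f := fun y : ℝ => ((-ρ : ℝ) : ℂ) + (y : ℂ) * I)
      (by fun_prop)).norm).continuousWithinAt
  have hstep : ∀ ρ : ℝ, 0 < ρ → ρ ≤ τ / 2 → ‖G ((-τ : ℝ) : ℂ)‖ ^ n * (1 / 4) ≤
      2 + 2 * a / (a - τ) + (2 / τ) *
      ∫ y in (-a)..a, (max ‖G (((-ρ : ℝ) : ℂ) + (y : ℂ) * I)‖ 1) ^ n := by
    intro ρ h0 h1
    have hc := hcont ρ h0 h1
    have := landau_step (G := fun w => G w ^ n) hτ0 hτa h0 h1
      (fun w h1 h2 h3 => (hd w h1 h2 h3).pow n)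
      (fun w h1 h2 h3 h4 => by
        rw [norm_pow]; exact pow_le_one₀ (norm_nonneg _) (hside w h1 h2 h3 h4))
      (by
        simp only [norm_pow]
        exact (hc.pow n).intervalIntegrable)
    simp only [norm_pow] at this
    refine this.trans ?_
    have h2 : ∫ y in (-a)..a, ‖G (((-ρ : ℝ) : ℂ) + (y : ℂ) * I)‖ ^ n ≤
        ∫ y in (-a)..a, (max ‖G (((-ρ : ℝ) : ℂ) + (y : ℂ) * I)‖ 1) ^ n := by
      apply intervalIntegral.integral_mono_on (by linarith) (hc.pow n).intervalIntegrable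
        ((hc.sup continuousOn_const).pow n).intervalIntegrable
      intro y _
      exact pow_le_pow_left₀ (norm_nonneg _) (le_max_left _ _) n
    have h3 : 0 ≤ 2 / τ := by positivity
    have := mul_le_mul_of_nonneg_left h2 h3
    linarith
  have hlim : Tendsto (fun ρ : ℝ => ∫ y in (-a)..a, (max ‖G (((-ρ : ℝ) : ℂ) + (y : ℂ) * I)‖ 1) ^ n)
      (𝓝[>] 0) (𝓝 (∫ _ in (-a)..a, (1 : ℝ))) := by
    apply intervalIntegral.tendsto_integral_filter_of_dominated_convergence (fun _ => B' ^ n)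
    · filter_upwards [Ioc_mem_nhdsGT (show (0:ℝ) < τ / 2 by positivity)] with ρ hρ
      have := ((hcont ρ hρ.1 hρ.2).sup continuousOn_const).pow n (f := fun y : ℝ =>
        max ‖G (((-ρ : ℝ) : ℂ) + (y : ℂ) * I)‖ 1)
      exact (this.mono uIoc_subset_uIcc).aestronglyMeasurable measurableSet_uIoc
    · filter_upwards [Ioc_mem_nhdsGT (show (0:ℝ) < τ / 2 by positivity)] with ρ hρ
      apply Eventually.of_forall
      intro y hy
      rw [uIoc_of_le (by linarith)] at hy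
      rw [norm_pow, Real.norm_eq_abs, abs_of_nonneg (le_trans zero_le_one (le_max_right _ _))]
      apply pow_le_pow_left₀ (le_trans zero_le_one (le_max_right _ _))
      apply max_le_max _ le_rfl
      exact hB _ (by simp; linarith [hρ.2]) (by simpa using hρ.1)
        (by simpa using abs_le.2 ⟨hy.1.le, hy.2⟩)
    · exact intervalIntegrable_const
    · filter_upwards [hae] with y hy hya
      rw [uIoc_of_le (by linarith)] at hya
      have hy' := hy (abs_le.2 ⟨hya.1.le, hya.2⟩)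
      have h1 : Tendsto (fun ρ : ℝ => max ‖G (((-ρ : ℝ) : ℂ) + (y : ℂ) * I)‖ 1) (𝓝[>] 0) (𝓝 1) := by
        rw [Metric.tendsto_nhds]
        intro η hη
        filter_upwards [hy' (η / 2) (by positivity)] with ρ hρ
        rw [Real.dist_eq, abs_of_nonneg (by linarith [le_max_right ‖G (((-ρ : ℝ) : ℂ) + (y : ℂ) * I)‖ 1])]
        have : max ‖G (((-ρ : ℝ) : ℂ) + (y : ℂ) * I)‖ 1 ≤ 1 + η / 2 := max_le hρ (by linarith)
        linarith
      simpa using h1.pow n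
  have h2 : Tendsto (fun ρ : ℝ => 2 + 2 * a / (a - τ) + (2 / τ) *
      ∫ y in (-a)..a, (max ‖G (((-ρ : ℝ) : ℂ) + (y : ℂ) * I)‖ 1) ^ n) (𝓝[>] 0)
      (𝓝 (2 + 2 * a / (a - τ) + (2 / τ) * ∫ _ in (-a)..a, (1 : ℝ))) :=
    (hlim.const_mul _).const_add _
  have h3 := ge_of_tendsto h2 (by
    filter_upwards [Ioc_mem_nhdsGT (show (0:ℝ) < τ / 2 by positivity)] with ρ hρ
    exact hstep ρ hρ.1 hρ.2)
  rw [intervalIntegral.integral_const, smul_eq_mul, mul_one] at h3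
  have h4 : a - -a = 2 * a := by ring
  rw [h4] at h3
  linarith

end rect

/-- the real part of `v / (a + v)` -/
lemma re_div_add (a : ℝ) (v : ℂ) :
    (v / ((a : ℂ) + v)).re = (Complex.normSq v + a * v.re) / Complex.normSq ((a : ℂ) + v) := by
  rw [Complex.div_re, ← add_div]
  congr 1
  simp only [Complex.add_re, Complex.ofReal_re, Complex.add_im, Complex.ofReal_im, zero_add,
    Complex.normSq_apply]
  ring

lemma re_div_add_nonneg {a : ℝ} (ha : 0 ≤ a) {v : ℂ} (hv : 0 ≤ v.re) :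
    0 ≤ (v / ((a : ℂ) + v)).re := by
  rw [re_div_add]
  exact div_nonneg (add_nonneg (Complex.normSq_nonneg _) (mul_nonneg ha hv)) (Complex.normSq_nonneg _)

lemma half_le_re_div_add {a : ℝ} (ha : 0 < a) {v : ℂ} (hv : 0 ≤ v.re)
    (h : a ^ 2 ≤ Complex.normSq v) : 1 / 2 ≤ (v / ((a : ℂ) + v)).re := by
  rw [re_div_add]
  have h1 : Complex.normSq ((a : ℂ) + v) = a ^ 2 + 2 * a * v.re + Complex.normSq v := by
    simp only [Complex.normSq_apply, Complex.add_re, Complex.ofReal_re, Complex.add_im,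
      Complex.ofReal_im, zero_add]
    ring
  have h2 : 0 < Complex.normSq ((a : ℂ) + v) := by
    rw [h1]
    have := Complex.normSq_nonneg v
    positivity
  rw [div_le_div_iff₀ (by norm_num) h2, h1]
  nlinarith

end Pool.Agent.Helper34.Bw
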