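import Pool.Agent.Helper34.Bw.GridSum

set_option autoImplicit false

namespace Pool.Agent.Helper34.Bw

open Complex Metric Set Filter Topology ComplexConjugate MeasureTheory

lemma exists_subset_sum (S₀ : Finset ℕ) (ζ : ℕ → ℂ) (hζ : ∀ j, ‖ζ j‖ = 1) :
    ∃ S ⊆ S₀, (S₀.card : ℝ) / 4 ≤ ‖∑ j ∈ S, ζ j‖ := by
  classical
  set a := ∑ j ∈ S₀.filter (fun j => 0 < (ζ j).re), (ζ j).re with ha
  set b := ∑ j ∈ S₀.filter (fun j => ¬ 0 < (ζ j).re), (ζ j).re with hb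
  set c := ∑ j ∈ S₀.filter (fun j => 0 < (ζ j).im), (ζ j).im with hc
  set d := ∑ j ∈ S₀.filter (fun j => ¬ 0 < (ζ j).im), (ζ j).im with hd
  have h1 : ∑ j ∈ S₀, |(ζ j).re| = a - b := by
    rw [← Finset.sum_filter_add_sum_filter_not S₀ (fun j => 0 < (ζ j).re), ha, hb]
    have e1 : ∑ j ∈ S₀.filter (fun j => 0 < (ζ j).re), |(ζ j).re| =
        ∑ j ∈ S₀.filter (fun j => 0 < (ζ j).re), (ζ j).re := by
      apply Finset.sum_congr rfl
      intro j hj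
      exact abs_of_pos (Finset.mem_filter.1 hj).2
    have e2 : ∑ j ∈ S₀.filter (fun j => ¬ 0 < (ζ j).re), |(ζ j).re| =
        -∑ j ∈ S₀.filter (fun j => ¬ 0 < (ζ j).re), (ζ j).re := by
      rw [← Finset.sum_neg_distrib]
      apply Finset.sum_congr rfl
      intro j hj
      exact abs_of_nonpos (not_lt.1 (Finset.mem_filter.1 hj).2)
    rw [e1, e2]; ring
  have h2 : ∑ j ∈ S₀, |(ζ j).im| = c - d := by
    rw [← Finset.sum_filter_add_sum_filter_not S₀ (fun j => 0 < (ζ j).im), hc, hd]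
    have e1 : ∑ j ∈ S₀.filter (fun j => 0 < (ζ j).im), |(ζ j).im| =
        ∑ j ∈ S₀.filter (fun j => 0 < (ζ j).im), (ζ j).im := by
      apply Finset.sum_congr rfl
      intro j hj
      exact abs_of_pos (Finset.mem_filter.1 hj).2
    have e2 : ∑ j ∈ S₀.filter (fun j => ¬ 0 < (ζ j).im), |(ζ j).im| =
        -∑ j ∈ S₀.filter (fun j => ¬ 0 < (ζ j).im), (ζ j).im := by
      rw [← Finset.sum_neg_distrib]
      apply Finset.sum_congr rfl
      intro j hj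
      exact abs_of_nonpos (not_lt.1 (Finset.mem_filter.1 hj).2)
    rw [e1, e2]; ring
  have h3 : (S₀.card : ℝ) ≤ (a - b) + (c - d) := by
    rw [← h1, ← h2, ← Finset.sum_add_distrib]
    calc (S₀.card : ℝ) = ∑ _j ∈ S₀, (1:ℝ) := by simp
      _ ≤ _ := by
        apply Finset.sum_le_sum
        intro j _
        have := Complex.norm_le_abs_re_add_abs_im (ζ j)
        rw [hζ] at this
        exact this
  have key : (S₀.card : ℝ) / 4 ≤ a ∨ (S₀.card : ℝ) / 4 ≤ -b ∨ (S₀.card : ℝ) / 4 ≤ c ∨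
      (S₀.card : ℝ) / 4 ≤ -d := by
    by_contra hcon
    push Not at hcon
    obtain ⟨e1, e2, e3, e4⟩ := hcon
    linarith
  rcases key with h | h | h | h
  · refine ⟨S₀.filter (fun j => 0 < (ζ j).re), Finset.filter_subset _ _, h.trans ?_⟩
    rw [ha, ← Complex.re_sum]
    exact Complex.re_le_norm _
  · refine ⟨S₀.filter (fun j => ¬ 0 < (ζ j).re), Finset.filter_subset _ _, h.trans ?_⟩
    rw [hb, ← Complex.re_sum]
    exact (neg_le_abs _).trans (Complex.abs_re_le_norm _)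
  · refine ⟨S₀.filter (fun j => 0 < (ζ j).im), Finset.filter_subset _ _, h.trans ?_⟩
    rw [hc, ← Complex.im_sum]
    exact Complex.im_le_norm _
  · refine ⟨S₀.filter (fun j => ¬ 0 < (ζ j).im), Finset.filter_subset _ _, h.trans ?_⟩
    rw [hd, ← Complex.im_sum]
    exact (neg_le_abs _).trans (Complex.abs_im_le_norm _)

/-- a Bloch function changes little over pseudohyperbolic distance `1/2` -/
lemma bloch_close {g : ℂ → ℂ} (hg : Differentiable ℂ g)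
    (hb : ∀ z, ‖z‖ < 1 → (1 - ‖z‖^2) * ‖deriv g z‖ ≤ 1) {a w : ℂ} (ha : ‖a‖ < 1) (hw : ‖w‖ < 1)
    (h : ‖mob a w‖ ≤ 1/2) : ‖g w - g a‖ ≤ 2/3 := by
  have hna : ‖-a‖ < 1 := by rwa [norm_neg]
  have hd : ∀ u ∈ closedBall (0:ℂ) (1/2), DifferentiableAt ℂ (fun u => g (mob (-a) u)) u := by
    intro u hu
    have hu1 : ‖u‖ ≤ 1/2 := by simpa using hu
    exact (hg _).comp u (differentiableAt_mob hna (by linarith))
  have hb' : ∀ u ∈ closedBall (0:ℂ) (1/2), ‖deriv (fun u => g (mob (-a) u)) u‖ ≤ 4/3 := by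
    intro u hu
    have hu1 : ‖u‖ ≤ 1/2 := by simpa using hu
    have hu2 : ‖u‖ < 1 := by linarith
    have h1 : deriv (fun u => g (mob (-a) u)) u = deriv g (mob (-a) u) * deriv (mob (-a)) u :=
      ((hg _).hasDerivAt.comp u (differentiableAt_mob hna hu2.le).hasDerivAt).deriv
    rw [h1, norm_mul]
    have h2 := hb (mob (-a) u) (norm_mob_lt hna hu2)
    have h3 := schwarz_mob hna hu2.le
    have h4 : 0 < 1 - ‖u‖^2 := by nlinarith [norm_nonneg u]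
    have h5 : (1 - ‖u‖^2) * (‖deriv g (mob (-a) u)‖ * ‖deriv (mob (-a)) u‖) ≤ 1 := by
      calc (1 - ‖u‖^2) * (‖deriv g (mob (-a) u)‖ * ‖deriv (mob (-a)) u‖)
          = ((1 - ‖u‖^2) * ‖deriv (mob (-a)) u‖) * ‖deriv g (mob (-a) u)‖ := by ring
        _ ≤ 1 := by rw [h3]; exact h2
    have h6 : 3/4 ≤ 1 - ‖u‖^2 := by nlinarith [norm_nonneg u]
    have h7 : 0 ≤ ‖deriv g (mob (-a) u)‖ * ‖deriv (mob (-a)) u‖ := by positivity
    nlinarith
  have hconv : Convex ℝ (closedBall (0:ℂ) (1/2)) := convex_closedBall _ _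
  have h1 := hconv.norm_image_sub_le_of_norm_deriv_le (𝕜 := ℂ) hd hb' (x := 0) (y := mob a w)
    (by simp) (by simpa using h)
  rw [mob_neg_mob ha hw.le, mob_zero, neg_neg, sub_zero] at h1
  linarith

/-- The local data at one scale. -/
structure LD (A : ℝ) (g B : ℂ → ℂ) (L : ℝ) : Prop where
  hA : 1 ≤ A
  L1 : 1 ≤ L
  gdiff : Differentiable ℂ g
  geven : g (-1) = g 1
  gzero : ‖g 0‖ = A
  gone : ‖g 1‖ ≤ 1
  gbd : ∀ z, ‖z‖ ≤ 1 → ‖g z‖ ≤ 16 * A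
  gder : ∀ z, ‖z‖ ≤ 1 → ‖deriv g z‖ ≤ L
  gbloch : ∀ z, ‖z‖ < 1 → (1 - ‖z‖^2) * ‖deriv g z‖ ≤ 1
  Bdiff : ∀ z, ‖z‖ ≤ 1 → DifferentiableAt ℂ B z
  Ble : ∀ z, ‖z‖ ≤ 1 → ‖B z‖ ≤ 1
  Beq : ∀ z, ‖z‖ = 1 → ‖B z‖ = 1
  Bder : ∀ z, ‖z‖ ≤ 1 → ‖deriv B z‖ ≤ L
  Bone : B (-1) = 1
  Blow : ∀ z, ‖z‖ < 1 → ‖B z‖ < Real.exp (-10) → ‖g z‖ ≤ 3 ∧ 1 / L ≤ 1 - ‖z‖^2
  Bzero : Real.sqrt (1 / A) / 1024 ≤ ‖deriv B 0‖
  BL : 1 / L ≤ ‖deriv B 0‖

lemma norm_prod_mob_zero {M : ℕ} (hM : 1 ≤ M) (α : ℝ) {S : Finset ℕ}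
    (hS : S ⊆ Finset.range M) :
    1/2 ≤ ‖∏ j ∈ S, mob (((1 - 1/(2*M) : ℝ) : ℂ) * gr M α j) 0‖ := by
  have hMr : (1:ℝ) ≤ M := by exact_mod_cast hM
  have hη1 : 1/(2*(M:ℝ)) ≤ 1/2 := by
    rw [div_le_div_iff₀ (by positivity) (by norm_num)]; linarith
  rw [norm_prod]
  have h1 : ∀ j ∈ S, ‖mob (((1 - 1/(2*M) : ℝ) : ℂ) * gr M α j) 0‖ = 1 - 1/(2*M) := by
    intro j _
    rw [mob_zero, norm_neg, norm_mul, norm_gr, mul_one, Complex.norm_real, Real.norm_eq_abs,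
      abs_of_pos (by linarith)]
  rw [Finset.prod_congr rfl h1, Finset.prod_const]
  have h2 := one_add_mul_le_pow (a := -(1/(2*(M:ℝ)))) (by linarith) S.card
  have h3 : (S.card : ℝ) ≤ M := by
    have := Finset.card_le_card hS
    rw [Finset.card_range] at this
    exact_mod_cast this
  have h4 : (S.card : ℝ) * (1/(2*(M:ℝ))) ≤ 1/2 := by
    calc (S.card : ℝ) * (1/(2*(M:ℝ))) ≤ M * (1/(2*(M:ℝ))) :=
          mul_le_mul_of_nonneg_right h3 (by positivity)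
      _ = 1/2 := by field_simp
  have h5 : (1 + -(1/(2*(M:ℝ)))) = 1 - 1/(2*M) := by ring
  rw [h5] at h2
  linarith

lemma norm_deriv_prod_mob {M : ℕ} (hM : 1 ≤ M) (α : ℝ) {S : Finset ℕ}
    (hS : S ⊆ Finset.range M) :
    1/(4*M) * ‖∑ j ∈ S, gr M α j‖ ≤
      ‖deriv (fun z => ∏ j ∈ S, mob (((1 - 1/(2*M) : ℝ) : ℂ) * gr M α j) z) 0‖ := by
  have hMr : (1:ℝ) ≤ M := by exact_mod_cast hM
  have hη0 : 0 < 1/(2*(M:ℝ)) := by positivity
  have hη1 : 1/(2*(M:ℝ)) ≤ 1/2 := by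
    rw [div_le_div_iff₀ (by positivity) (by norm_num)]; linarith
  set r : ℝ := 1 - 1/(2*M) with hr
  have hr0 : 0 < r := by rw [hr]; linarith
  have hr1 : r < 1 := by rw [hr]; linarith
  have ha : ∀ j, ‖(r : ℂ) * gr M α j‖ = r := by
    intro j
    rw [norm_mul, norm_gr, mul_one, Complex.norm_real, Real.norm_eq_abs, abs_of_pos hr0]
  have hne : ∀ j ∈ S, mob ((r : ℂ) * gr M α j) 0 ≠ 0 := by
    intro j _
    rw [mob_zero, neg_ne_zero, ← norm_pos_iff, ha]; exact hr0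
  have hdif : ∀ j ∈ S, DifferentiableAt ℂ (fun z => mob ((r : ℂ) * gr M α j) z) 0 := by
    intro j _
    exact differentiableAt_mob (by rw [ha]; exact hr1) (by simp)
  have hlog := logDeriv_prod (s := S) (f := fun j z => mob ((r : ℂ) * gr M α j) z) (x := 0)
    hne hdif
  rw [logDeriv_apply] at hlog
  have hP0 : ∏ j ∈ S, mob ((r : ℂ) * gr M α j) 0 ≠ 0 := Finset.prod_ne_zero_iff.2 hne
  rw [div_eq_iff hP0] at hlog
  rw [hlog, norm_mul]
  have h1 : ∀ j ∈ S, logDeriv (fun z => mob ((r : ℂ) * gr M α j) z) 0 =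
      -(((1 - r^2) / r : ℝ) : ℂ) * conj (gr M α j) := by
    intro j _
    rw [logDeriv_apply]
    have h2 := (hasDerivAt_mob (a := (r : ℂ) * gr M α j) (z := 0) (by rw [ha]; exact hr1)
      (by simp)).deriv
    have h2' : deriv (fun z => mob ((r : ℂ) * gr M α j) z) 0 =
      ((1 - ‖(r : ℂ) * gr M α j‖^2 : ℝ) : ℂ) / (1 - conj ((r : ℂ) * gr M α j) * 0)^2 := h2
    rw [h2', mob_zero, ha]
    have h3 : gr M α j * conj (gr M α j) = 1 := by
      rw [Complex.mul_conj, Complex.normSq_eq_norm_sq, norm_gr]; simp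
    have h4 : (r : ℂ) ≠ 0 := by exact_mod_cast hr0.ne'
    have h5 : gr M α j ≠ 0 := by rw [← norm_pos_iff, norm_gr]; norm_num
    have h6 : conj (gr M α j) = (gr M α j)⁻¹ := eq_inv_of_mul_eq_one_right h3
    rw [h6]
    push_cast
    field_simp
    ring
  rw [Finset.sum_congr rfl h1, ← Finset.mul_sum, norm_mul, norm_neg, Complex.norm_real,
    Real.norm_eq_abs, abs_of_pos (by apply div_pos _ hr0; nlinarith), ← map_sum, RCLike.norm_conj]
  have h7 := norm_prod_mob_zero hM α hS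
  have h8 : 1/(2*(M:ℝ)) ≤ (1 - r^2) / r := by
    rw [le_div_iff₀ hr0]
    have : 1 - r = 1/(2*(M:ℝ)) := by rw [hr]; ring
    rw [← this]
    nlinarith
  calc 1/(4*(M:ℝ)) * ‖∑ j ∈ S, gr M α j‖
      = (1/(2*(M:ℝ)) * ‖∑ j ∈ S, gr M α j‖) * (1/2) := by field_simp; ring
    _ ≤ ((1 - r^2) / r * ‖∑ j ∈ S, gr M α j‖) * ‖∏ j ∈ S, mob ((r : ℂ) * gr M α j) 0‖ := by
        apply mul_le_mul _ h7 (by norm_num)
        · apply mul_nonneg _ (norm_nonneg _)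
          apply div_nonneg _ hr0.le
          nlinarith
        · exact mul_le_mul_of_nonneg_right h8 (norm_nonneg _)

end Pool.Agent.Helper34.Bw
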