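import Pool.Agent.Helper34.Bw.Local
import Pool.Agent.Helper34.Bw.NecA

set_option autoImplicit false

namespace Pool.Agent.Helper34.Bw

open Complex Metric Set Filter Topology ComplexConjugate MeasureTheory

theorem exists_LD {A : ℝ} (hA : 1 ≤ A) : ∃ g B L, LD A g B L := by
  have hA0 : 0 < A := by linarith
  set s : ℝ := Real.sqrt (Real.sqrt (1 / A)) with hs
  have hs2 : s^2 = Real.sqrt (1 / A) := Real.sq_sqrt (Real.sqrt_nonneg _)
  have hs4 : s^4 = 1 / A := by
    rw [show s^4 = (s^2)^2 by ring, hs2, Real.sq_sqrt (by positivity)]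
  have hs0 : 0 < s := by rw [hs]; positivity
  have hs1 : s ≤ 1 := by
    rw [hs, Real.sqrt_le_one, Real.sqrt_le_one, div_le_one hA0]
    exact hA
  obtain ⟨F, hF, hDe⟩ := exists_near_inner (κ := 1 / (64 * A)) (by positivity)
    (by rw [div_lt_one (by positivity)]; linarith) (τ₀ := s^4 * (2 * Real.pi) / 64) (by positivity)
  obtain ⟨b, hb, hFb⟩ := hF.bloch
  -- the entire function `G = A (1 - F)^4`
  set G : ℂ → ℂ := fun z => (A : ℂ) * (1 - F z)^4 with hG
  have hGd : Differentiable ℂ G := by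
    intro z
    exact (((differentiableAt_const _).sub (hF.diff z)).pow 4).const_mul _
  have hGder : ∀ z, deriv G z = (A : ℂ) * (4 * (1 - F z)^3 * -(deriv F z)) := by
    intro z
    have h1 : HasDerivAt (fun z => 1 - F z) (-(deriv F z)) z := by
      have := (hF.diff z).hasDerivAt.const_sub 1
      exact this
    have h2 := (h1.pow 4).const_mul (A : ℂ)
    have h3 := h2.deriv
    rw [show deriv G z = deriv (fun y => (A : ℂ) * ((fun z => 1 - F z) ^ 4) y) z from rfl, h3]
    push_cast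
    ring
  obtain ⟨D, hD⟩ := (isCompact_closedBall (0:ℂ) 1).exists_bound_of_continuousOn
    (f := deriv G) (by
      have : Continuous (deriv G) := (hGd.contDiff (n := 1)).continuous_deriv le_rfl
      exact this.continuousOn)
  have hD' : ∀ z, ‖z‖ ≤ 1 → ‖deriv G z‖ ≤ D := fun z hz => hD z (by simpa using hz)
  have hD0 : 0 ≤ D := (norm_nonneg _).trans (hD' 0 (by simp))
  obtain ⟨M, hM1, hMD⟩ : ∃ M : ℕ, 1 ≤ M ∧ D ≤ M := by
    obtain ⟨m, hm⟩ := exists_nat_ge D
    exact ⟨max 1 m, le_max_left _ _, hm.trans (by exact_mod_cast le_max_right 1 m)⟩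
  have hMr : (1:ℝ) ≤ M := by exact_mod_cast hM1
  have hMpos : (0:ℝ) < M := by linarith
  obtain ⟨α, hα⟩ := exists_grid hF hs0 hs1 hDe M hM1
  set J := (Finset.range M).filter (fun j : ℕ => ‖1 - F (cp (α + 2 * Real.pi * j / M))‖ < s) with hJ
  have hJne : J.Nonempty := by
    rw [← Finset.card_pos]
    have : (0:ℝ) < (J.card : ℝ) := lt_of_lt_of_le (by positivity) hα
    exact_mod_cast this
  obtain ⟨j₀, hj₀⟩ := hJne
  have hj₀' := (Finset.mem_filter.1 hj₀).2
  set ξ : ℂ := cp (α + 2 * Real.pi * j₀ / M) with hξ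
  have hξn : ‖ξ‖ = 1 := norm_cp _
  set α' : ℝ := -(2 * Real.pi * j₀ / M) with hα'
  have hgr : ∀ j : ℕ, ξ * gr M α' j = cp (α + 2 * Real.pi * j / M) := by
    intro j
    rw [hξ, gr, ← cp_add, hα']
    congr 1
    ring
  have hξz : ∀ z : ℂ, ‖ξ * z‖ = ‖z‖ := fun z => by rw [norm_mul, hξn, one_mul]
  set g : ℂ → ℂ := fun z => G (ξ * z) with hg
  have hgd : Differentiable ℂ g := hGd.comp (differentiable_id.const_mul ξ)
  have hgder : ∀ z, ‖deriv g z‖ = ‖deriv G (ξ * z)‖ := by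
    intro z
    have h1 : HasDerivAt (fun z : ℂ => ξ * z) ξ z := by
      simpa using (hasDerivAt_id z).const_mul ξ
    have h2 := (hGd (ξ * z)).hasDerivAt.comp z h1
    have h3 : deriv g z = deriv G (ξ * z) * ξ := h2.deriv
    rw [h3, norm_mul, hξn, mul_one]
  have hFle : ∀ z, ‖z‖ ≤ 1 → ‖1 - F z‖ ≤ 2 := by
    intro z hz
    refine (norm_sub_le _ _).trans ?_
    rw [norm_one]
    linarith [hF.lt_one z hz]
  have hgbloch : ∀ z, ‖z‖ < 1 → (1 - ‖z‖^2) * ‖deriv g z‖ ≤ 1 := by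
    intro z hz
    rw [hgder, hGder, norm_mul, norm_mul, norm_mul, norm_neg, norm_pow, Complex.norm_real,
      Real.norm_eq_abs, abs_of_pos hA0, Complex.norm_ofNat]
    have h1 := hFb (ξ * z) (by rw [hξz]; exact hz)
    rw [hξz] at h1
    have h2 := hFle (ξ * z) (by rw [hξz]; exact hz.le)
    have h3 : ‖1 - F (ξ * z)‖^3 ≤ 8 := by
      have := pow_le_pow_left₀ (norm_nonneg _) h2 3
      linarith
    have h4 : 0 ≤ (1 - ‖z‖^2) * ‖deriv F (ξ * z)‖ := by
      apply mul_nonneg _ (norm_nonneg _)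
      nlinarith [norm_nonneg z]
    have h5 : b ≤ 1 / (32 * A) := by
      have : 2 * (1 / (64 * A)) = 1 / (32 * A) := by field_simp; norm_num
      linarith
    calc (1 - ‖z‖^2) * (A * (4 * ‖1 - F (ξ * z)‖^3 * ‖deriv F (ξ * z)‖))
        = (4 * A) * (‖1 - F (ξ * z)‖^3 * ((1 - ‖z‖^2) * ‖deriv F (ξ * z)‖)) := by ring
      _ ≤ (4 * A) * (8 * (1 / (32 * A))) := by
          apply mul_le_mul_of_nonneg_left _ (by positivity)
          exact mul_le_mul h3 (h1.trans h5) h4 (by norm_num)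
      _ = 1 := by field_simp; norm_num
  obtain ⟨S, hSJ, hScard⟩ := exists_subset_sum J (fun j => gr M α' j) (fun j => norm_gr _ _ _)
  have hSr : S ⊆ Finset.range M := hSJ.trans (Finset.filter_subset _ _)
  set P : ℂ → ℂ := fun z => ∏ j ∈ S, mob (((1 - 1/(2*M) : ℝ) : ℂ) * gr M α' j) z with hP
  have hη0 : 0 < 1/(2*(M:ℝ)) := by positivity
  have hη1 : 1/(2*(M:ℝ)) ≤ 1/2 := by
    rw [div_le_div_iff₀ (by positivity) (by norm_num)]; linarith
  have hr0 : (0:ℝ) < 1 - 1/(2*M) := by linarith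
  have han : ∀ j, ‖((1 - 1/(2*M) : ℝ) : ℂ) * gr M α' j‖ = 1 - 1/(2*M) := by
    intro j
    rw [norm_mul, norm_gr, mul_one, Complex.norm_real, Real.norm_eq_abs, abs_of_pos hr0]
  have ha1 : ∀ j, ‖((1 - 1/(2*M) : ℝ) : ℂ) * gr M α' j‖ < 1 := by
    intro j; rw [han]; linarith
  have hPd : ∀ z, ‖z‖ ≤ 1 → DifferentiableAt ℂ P z := by
    intro z hz
    exact DifferentiableAt.fun_finsetProd (fun j _ => differentiableAt_mob (ha1 j) hz)
  have hPle : ∀ z, ‖z‖ ≤ 1 → ‖P z‖ ≤ 1 := by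
    intro z hz
    simp only [hP]
    rw [norm_prod]
    exact Finset.prod_le_one (fun _ _ => norm_nonneg _) (fun j _ => norm_mob_le (ha1 j) hz)
  have hPeq : ∀ z, ‖z‖ = 1 → ‖P z‖ = 1 := by
    intro z hz
    simp only [hP]
    rw [norm_prod]
    exact Finset.prod_eq_one (fun j _ => norm_mob_eq_one (ha1 j) hz)
  have hPm1 : ‖P (-1)‖ = 1 := hPeq _ (by simp)
  set B : ℂ → ℂ := fun z => conj (P (-1)) * P z with hB
  have hBn : ∀ z, ‖B z‖ = ‖P z‖ := by
    intro z
    simp only [hB]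
    rw [norm_mul, RCLike.norm_conj, hPm1, one_mul]
  have hBd : ∀ z, ‖z‖ ≤ 1 → DifferentiableAt ℂ B z := fun z hz => (hPd z hz).const_mul _
  have hBder : ∀ z, ‖z‖ ≤ 1 → ‖deriv B z‖ = ‖deriv P z‖ := by
    intro z hz
    have h1 : deriv B z = conj (P (-1)) * deriv P z := ((hPd z hz).hasDerivAt.const_mul _).deriv
    rw [h1, norm_mul, RCLike.norm_conj, hPm1, one_mul]
  -- lower bound of the derivative at `0`
  have hPz : s^2 / 1024 ≤ ‖deriv P 0‖ := by
    have h1 := norm_deriv_prod_mob hM1 α' hSr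
    refine le_trans ?_ h1
    have h2 : (M:ℝ) * s^2 / 64 / 4 ≤ ‖∑ j ∈ S, gr M α' j‖ :=
      (div_le_div_of_nonneg_right hα (by norm_num)).trans hScard
    calc s^2 / 1024 = 1/(4*(M:ℝ)) * ((M:ℝ) * s^2 / 64 / 4) := by field_simp; norm_num
      _ ≤ 1/(4*(M:ℝ)) * ‖∑ j ∈ S, gr M α' j‖ := mul_le_mul_of_nonneg_left h2 (by positivity)
  have hPzpos : 0 < ‖deriv P 0‖ := lt_of_lt_of_le (by positivity) hPz
  -- bound of the derivative of `P` on the closed disc
  obtain ⟨D₂, hD₂⟩ : ∃ D₂ : ℝ, ∀ z, ‖z‖ ≤ 1 → ‖deriv P z‖ ≤ D₂ := by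
    have hU : IsOpen {z : ℂ | ∀ j ∈ S, 1 - conj (((1 - 1/(2*M) : ℝ) : ℂ) * gr M α' j) * z ≠ 0} := by
      have : {z : ℂ | ∀ j ∈ S, 1 - conj (((1 - 1/(2*M) : ℝ) : ℂ) * gr M α' j) * z ≠ 0} =
          ⋂ j ∈ S, {z : ℂ | 1 - conj (((1 - 1/(2*M) : ℝ) : ℂ) * gr M α' j) * z ≠ 0} := by
        ext z; simp
      rw [this]
      apply isOpen_biInter_finset
      intro j _
      exact isOpen_ne_fun (by fun_prop) continuous_const
    set U := {z : ℂ | ∀ j ∈ S, 1 - conj (((1 - 1/(2*M) : ℝ) : ℂ) * gr M α' j) * z ≠ 0} with hUdef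
    have hPU : DifferentiableOn ℂ P U := by
      intro z hz
      apply DifferentiableAt.differentiableWithinAt
      apply DifferentiableAt.fun_finsetProd
      intro j hj
      have h1 : DifferentiableAt ℂ (fun z : ℂ =>
        (z - ((1 - 1/(2*M) : ℝ) : ℂ) * gr M α' j) /
          (1 - conj (((1 - 1/(2*M) : ℝ) : ℂ) * gr M α' j) * z)) z :=
        DifferentiableAt.div (by fun_prop) (by fun_prop) (hz j hj)
      exact h1
    have hcont : ContinuousOn (deriv P) (closedBall 0 1) := by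
      apply ((hPU.deriv hU).continuousOn).mono
      intro z hz j _
      exact den_ne (ha1 j) (by simpa using hz)
    obtain ⟨D₂, hD₂⟩ := (isCompact_closedBall (0:ℂ) 1).exists_bound_of_continuousOn hcont
    exact ⟨D₂, fun z hz => hD₂ z (by simpa using hz)⟩
  have hD₂0 : 0 ≤ D₂ := (norm_nonneg _).trans (hD₂ 0 (by simp))
  set L : ℝ := D + D₂ + 6 * M + 1 / ‖deriv P 0‖ + 1 with hL
  have hinv0 : 0 < 1 / ‖deriv P 0‖ := by positivity
  have hL1 : 1 ≤ L := by rw [hL]; linarith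
  have hg1 : ∀ j ∈ J, ‖g (gr M α' j)‖ ≤ 1 := by
    intro j hj
    have h1 := (Finset.mem_filter.1 hj).2
    simp only [hg, hG]
    rw [hgr, norm_mul, norm_pow, Complex.norm_real, Real.norm_eq_abs, abs_of_pos hA0]
    have h2 : ‖1 - F (cp (α + 2 * Real.pi * j / M))‖^4 ≤ s^4 :=
      pow_le_pow_left₀ (norm_nonneg _) h1.le 4
    rw [hs4] at h2
    calc A * ‖1 - F (cp (α + 2 * Real.pi * j / M))‖^4 ≤ A * (1/A) :=
          mul_le_mul_of_nonneg_left h2 hA0.le
      _ = 1 := by field_simp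
  refine ⟨g, B, L, ?_⟩
  refine
    { hA := hA
      L1 := hL1
      gdiff := hgd
      geven := ?_
      gzero := ?_
      gone := ?_
      gbd := ?_
      gder := ?_
      gbloch := hgbloch
      Bdiff := hBd
      Ble := fun z hz => by rw [hBn]; exact hPle z hz
      Beq := fun z hz => by rw [hBn]; exact hPeq z hz
      Bder := fun z hz => by
        rw [hBder z hz]
        have := hD₂ z hz
        rw [hL]; linarith
      Bone := ?_
      Blow := ?_
      Bzero := ?_
      BL := ?_ }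
  · simp only [hg, hG]
    rw [mul_neg, mul_one, hF.even]
  · simp only [hg, hG]
    rw [mul_zero, hF.zero, sub_zero, one_pow, mul_one, Complex.norm_real, Real.norm_eq_abs,
      abs_of_pos hA0]
  · have h1 := hg1 j₀ hj₀
    have h2 : gr M α' j₀ = 1 := by
      rw [gr, hα']
      rw [show -(2 * Real.pi * (j₀:ℝ) / M) + 2 * Real.pi * j₀ / M = 0 by ring]
      simp [cp]
    rwa [h2] at h1
  · intro z hz
    simp only [hg, hG]
    rw [norm_mul, norm_pow, Complex.norm_real, Real.norm_eq_abs, abs_of_pos hA0]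
    have h2 := hFle (ξ * z) (by rw [hξz]; exact hz)
    have h3 : ‖1 - F (ξ * z)‖^4 ≤ 16 := by
      have := pow_le_pow_left₀ (norm_nonneg _) h2 4
      linarith
    nlinarith
  · intro z hz
    rw [hgder]
    have := hD' (ξ * z) (by rw [hξz]; exact hz)
    rw [hL]; linarith
  · simp only [hB]
    rw [mul_comm, Complex.mul_conj, Complex.normSq_eq_norm_sq, hPm1]
    simp
  · intro z hz hBz
    rw [hBn] at hBz
    have h1 : ∃ j ∈ S, ‖mob (((1 - 1/(2*M) : ℝ) : ℂ) * gr M α' j) z‖ < 1/2 := by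
      by_contra hcon
      push Not at hcon
      have := prod_mob_lower hM1 α' hz hSr hcon
      simp only [hP] at hBz
      linarith
    obtain ⟨j, hjS, hj⟩ := h1
    have hjJ := hSJ hjS
    set a : ℂ := ((1 - 1/(2*M) : ℝ) : ℂ) * gr M α' j with ha
    have hcl := bloch_close hgd hgbloch (ha1 j) hz hj.le
    have h2 : ‖g a - g (gr M α' j)‖ ≤ 1/2 := by
      have hconv : Convex ℝ (closedBall (0:ℂ) 1) := convex_closedBall _ _
      have h3 := hconv.norm_image_sub_le_of_norm_deriv_le (𝕜 := ℂ) (f := g) (C := D)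
        (x := gr M α' j) (y := a) (fun u _ => hgd u) (fun u hu => by
          rw [hgder]
          exact hD' _ (by rw [hξz]; simpa using hu))
        (by rw [mem_closedBall_zero_iff, norm_gr])
        (by rw [mem_closedBall_zero_iff]; exact (ha1 j).le)
      have h4 : ‖a - gr M α' j‖ = 1/(2*M) := by
        have : a - gr M α' j = -((1/(2*M) : ℝ) : ℂ) * gr M α' j := by
          rw [ha]; push_cast; ring
        rw [this, norm_mul, norm_gr, mul_one, norm_neg, Complex.norm_real, Real.norm_eq_abs,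
          abs_of_pos hη0]
      rw [h4] at h3
      calc ‖g a - g (gr M α' j)‖ ≤ D * (1/(2*M)) := h3
        _ ≤ M * (1/(2*M)) := mul_le_mul_of_nonneg_right hMD hη0.le
        _ = 1/2 := by field_simp
    constructor
    · have h5 := hg1 j hjJ
      have h6 : g z = (g z - g a) + (g a - g (gr M α' j)) + g (gr M α' j) := by ring
      rw [h6]
      refine (norm_add₃_le).trans ?_
      linarith
    · have h7 := (close_of_mob (ha1 j) hz (by norm_num : (0:ℝ) ≤ 1/2) (by norm_num) hj.le).2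
      rw [han] at h7
      refine le_trans ?_ h7
      have h8 : 1/(6*(M:ℝ)) ≤ (1 - 1/2) / (1 + 1/2) * (1 - (1 - 1/(2*(M:ℝ)))^2) := by
        have e : 1/(6*(M:ℝ)) = 1/3 * (1/(2*M)) := by field_simp; norm_num
        rw [e]
        nlinarith
      refine le_trans ?_ h8
      apply one_div_le_one_div_of_le (by positivity)
      rw [hL]; linarith
  · rw [hBder 0 (by simp), ← hs2]
    exact hPz
  · rw [hBder 0 (by simp)]
    rw [div_le_iff₀ (by linarith)]
    have h9 : ‖deriv P 0‖ * (1 / ‖deriv P 0‖) = 1 := by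
      field_simp
    calc (1:ℝ) = ‖deriv P 0‖ * (1 / ‖deriv P 0‖) := h9.symm
      _ ≤ ‖deriv P 0‖ * L := by
          apply mul_le_mul_of_nonneg_left _ hPzpos.le
          rw [hL]; linarith

end Pool.Agent.Helper34.Bw
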