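import Pool.Agent.Helper34.Bw.Defs

set_option autoImplicit false

namespace Pool.Agent.Helper34.Bw

open Complex Metric Set Filter Topology ComplexConjugate

/-- The disc automorphism `z ↦ (z - a) / (1 - conj a * z)`. -/
noncomputable def mob (a z : ℂ) : ℂ := (z - a) / (1 - conj a * z)

lemma den_ne {a z : ℂ} (ha : ‖a‖ < 1) (hz : ‖z‖ ≤ 1) : 1 - conj a * z ≠ 0 := by
  intro h
  have h1 : conj a * z = 1 := (sub_eq_zero.1 h).symm
  have h2 : ‖conj a * z‖ = 1 := by rw [h1]; simp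
  rw [norm_mul, RCLike.norm_conj] at h2
  nlinarith [norm_nonneg a, norm_nonneg z]

lemma mob_identity (a z : ℂ) :
    ‖1 - conj a * z‖^2 - ‖z - a‖^2 = (1 - ‖a‖^2) * (1 - ‖z‖^2) := by
  rw [← Complex.normSq_eq_norm_sq, ← Complex.normSq_eq_norm_sq, ← Complex.normSq_eq_norm_sq,
    ← Complex.normSq_eq_norm_sq]
  simp only [Complex.normSq_apply, Complex.sub_re, Complex.sub_im, Complex.one_re, Complex.one_im,
    Complex.mul_re, Complex.mul_im, Complex.conj_re, Complex.conj_im]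
  ring

lemma one_sub_normSq_mob {a z : ℂ} (ha : ‖a‖ < 1) (hz : ‖z‖ ≤ 1) :
    1 - ‖mob a z‖^2 = (1 - ‖a‖^2) * (1 - ‖z‖^2) / ‖1 - conj a * z‖^2 := by
  have h0 : ‖1 - conj a * z‖ ≠ 0 := norm_ne_zero_iff.2 (den_ne ha hz)
  rw [← mob_identity, mob, norm_div, div_pow, sub_div, div_self (pow_ne_zero 2 h0)]

lemma norm_mob_le {a z : ℂ} (ha : ‖a‖ < 1) (hz : ‖z‖ ≤ 1) : ‖mob a z‖ ≤ 1 := by
  have h := one_sub_normSq_mob ha hz
  have h1 : 0 ≤ (1 - ‖a‖^2) * (1 - ‖z‖^2) / ‖1 - conj a * z‖^2 := by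
    apply div_nonneg _ (sq_nonneg _)
    apply mul_nonneg <;> nlinarith [norm_nonneg a, norm_nonneg z]
  nlinarith [norm_nonneg (mob a z)]

lemma norm_mob_lt {a z : ℂ} (ha : ‖a‖ < 1) (hz : ‖z‖ < 1) : ‖mob a z‖ < 1 := by
  have h := one_sub_normSq_mob ha hz.le
  have h1 : 0 < (1 - ‖a‖^2) * (1 - ‖z‖^2) / ‖1 - conj a * z‖^2 := by
    apply div_pos
    · apply mul_pos <;> nlinarith [norm_nonneg a, norm_nonneg z]
    · have := norm_pos_iff.2 (den_ne ha hz.le)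
      positivity
  nlinarith [norm_nonneg (mob a z)]

lemma norm_mob_eq_one {a z : ℂ} (ha : ‖a‖ < 1) (hz : ‖z‖ = 1) : ‖mob a z‖ = 1 := by
  have h := one_sub_normSq_mob ha hz.le
  rw [hz] at h
  have h2 : ‖mob a z‖ ^ 2 = 1 := by
    have : (1 - ‖a‖^2) * (1 - (1:ℝ)^2) / ‖1 - conj a * z‖^2 = 0 := by ring
    linarith
  nlinarith [norm_nonneg (mob a z)]

lemma hasDerivAt_mob {a z : ℂ} (ha : ‖a‖ < 1) (hz : ‖z‖ ≤ 1) :
    HasDerivAt (mob a) (((1 - ‖a‖^2 : ℝ) : ℂ) / (1 - conj a * z)^2) z := by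
  have h0 := den_ne ha hz
  have h1 : HasDerivAt (fun z : ℂ => z - a) 1 z := (hasDerivAt_id z).sub_const a
  have h2 : HasDerivAt (fun z : ℂ => 1 - conj a * z) (-(conj a)) z := by
    have := ((hasDerivAt_id z).const_mul (conj a)).const_sub 1
    simpa using this
  have h3 := h1.div h2 h0
  have h4 : (1 * (1 - conj a * z) - (z - a) * -(conj a)) / (1 - conj a * z) ^ 2 =
      ((1 - ‖a‖^2 : ℝ) : ℂ) / (1 - conj a * z)^2 := by
    congr 1
    have hna : (a * conj a) = ((‖a‖^2 : ℝ) : ℂ) := by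
      rw [Complex.mul_conj, Complex.normSq_eq_norm_sq]
    push_cast at hna ⊢
    linear_combination -hna
  rw [h4] at h3
  exact h3

lemma differentiableAt_mob {a z : ℂ} (ha : ‖a‖ < 1) (hz : ‖z‖ ≤ 1) :
    DifferentiableAt ℂ (mob a) z := (hasDerivAt_mob ha hz).differentiableAt

lemma norm_deriv_mob {a z : ℂ} (ha : ‖a‖ < 1) (hz : ‖z‖ ≤ 1) :
    ‖deriv (mob a) z‖ = (1 - ‖a‖^2) / ‖1 - conj a * z‖^2 := by
  rw [(hasDerivAt_mob ha hz).deriv, norm_div, norm_pow, Complex.norm_real, Real.norm_eq_abs,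
    abs_of_nonneg]
  nlinarith [norm_nonneg a]

lemma schwarz_mob {a z : ℂ} (ha : ‖a‖ < 1) (hz : ‖z‖ ≤ 1) :
    (1 - ‖z‖^2) * ‖deriv (mob a) z‖ = 1 - ‖mob a z‖^2 := by
  rw [norm_deriv_mob ha hz, one_sub_normSq_mob ha hz]
  ring

lemma mob_neg_mob {a z : ℂ} (ha : ‖a‖ < 1) (hz : ‖z‖ ≤ 1) : mob (-a) (mob a z) = z := by
  have h0 := den_ne ha hz
  have h1 : (1 : ℂ) - conj a * a ≠ 0 := den_ne ha ha.le
  have h3 : 1 - conj a * z + conj a * (z - a) ≠ 0 := by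
    have : 1 - conj a * z + conj a * (z - a) = 1 - conj a * a := by ring
    rw [this]; exact h1
  unfold mob
  rw [map_neg]
  rw [show (z - a) / (1 - conj a * z) - -a = (z - a + a * (1 - conj a * z)) / (1 - conj a * z) by
    rw [add_div, mul_div_cancel_right₀ _ h0, sub_neg_eq_add]]
  rw [show 1 - -conj a * ((z - a) / (1 - conj a * z)) =
    (1 - conj a * z + conj a * (z - a)) / (1 - conj a * z) by
    rw [add_div, div_self h0, mul_div_assoc, neg_mul, sub_neg_eq_add]]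
  rw [div_div_div_cancel_right₀ h0]
  rw [div_eq_iff h3]
  ring

lemma mob_self (a : ℂ) : mob a a = 0 := by unfold mob; simp

lemma mob_zero (a : ℂ) : mob a 0 = -a := by unfold mob; simp

/-- Schwarz–Pick, infinitesimal form. -/
lemma schwarz_pick {F : ℂ → ℂ} (hF : DifferentiableOn ℂ F (ball 0 1))
    (hb : ∀ z ∈ ball (0:ℂ) 1, ‖F z‖ ≤ 1) {z : ℂ} (hz : ‖z‖ < 1) :
    (1 - ‖z‖^2) * ‖deriv F z‖ ≤ 1 - ‖F z‖^2 := by
  have key : ∀ s ∈ Ioo (0:ℝ) 1, s * ((1 - ‖z‖^2) * ‖deriv F z‖) ≤ 1 - s^2 * ‖F z‖^2 := by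
    intro s hs
    have hFz : DifferentiableAt ℂ F z := hF.differentiableAt (isOpen_ball.mem_nhds (by simpa using hz))
    obtain ⟨c, hc⟩ : ∃ c : ℂ, c = (s : ℂ) * F z := ⟨_, rfl⟩
    have hlt : ∀ w : ℂ, ‖w‖ < 1 → ‖(s : ℂ) * F w‖ < 1 := by
      intro w hw
      rw [norm_mul, Complex.norm_real, Real.norm_eq_abs, abs_of_pos hs.1]
      have := hb w (by simpa using hw)
      nlinarith [norm_nonneg (F w), hs.1, hs.2]
    have hcn : ‖c‖ < 1 := by rw [hc]; exact hlt z hz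
    have hnz : ‖-z‖ < 1 := by rwa [norm_neg]
    set H : ℂ → ℂ := fun u => mob c ((s : ℂ) * F (mob (-z) u)) with hH
    have hm0 : mob (-z) 0 = z := by rw [mob_zero]; simp
    have hH0 : H 0 = 0 := by
      simp only [hH, hm0, ← hc]
      exact mob_self c
    have hmaps : MapsTo H (ball 0 1) (ball (H 0) 1) := by
      intro u hu
      rw [hH0]
      rw [mem_ball_zero_iff] at hu ⊢
      exact norm_mob_lt hcn (hlt _ (norm_mob_lt hnz hu))
    have hdiff : DifferentiableOn ℂ H (ball 0 1) := by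
      intro u hu
      rw [mem_ball_zero_iff] at hu
      have h1 : DifferentiableAt ℂ (mob (-z)) u := differentiableAt_mob hnz hu.le
      have h2 : DifferentiableAt ℂ F (mob (-z) u) :=
        hF.differentiableAt (isOpen_ball.mem_nhds (by simpa using norm_mob_lt hnz hu))
      have h3 : DifferentiableAt ℂ (fun w => (s : ℂ) * F (mob (-z) w)) u :=
        (h2.comp u h1).const_mul _
      have h4 : DifferentiableAt ℂ (mob c) ((s : ℂ) * F (mob (-z) u)) :=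
        differentiableAt_mob hcn (hlt _ (norm_mob_lt hnz hu)).le
      exact (h4.comp u h3).differentiableWithinAt
    have h1 := Complex.norm_deriv_le_one_of_mapsTo_ball hdiff (hmaps.mono_right ball_subset_closedBall) one_pos
    have h2 : deriv H 0 = ((1 - ‖c‖^2 : ℝ) : ℂ)⁻¹ * ((s : ℂ) * (deriv F z * ((1 - ‖z‖^2 : ℝ) : ℂ))) := by
      have d1 : HasDerivAt (mob (-z)) ((1 - ‖z‖^2 : ℝ) : ℂ) 0 := by
        have := hasDerivAt_mob (a := -z) (z := 0) hnz (by simp)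
        simpa using this
      have d2 : HasDerivAt F (deriv F z) (mob (-z) 0) := by rw [hm0]; exact hFz.hasDerivAt
      have d3 := (d2.comp (0:ℂ) d1).const_mul (s : ℂ)
      have d4 : HasDerivAt (mob c) (((1 - ‖c‖^2 : ℝ) : ℂ)⁻¹) ((s : ℂ) * F (mob (-z) 0)) := by
        rw [hm0, ← hc]
        have := hasDerivAt_mob (a := c) (z := c) hcn hcn.le
        have h5 : (((1 - ‖c‖^2 : ℝ) : ℂ) / (1 - conj c * c)^2) = ((1 - ‖c‖^2 : ℝ) : ℂ)⁻¹ := by
          have hcc : conj c * c = ((‖c‖^2 : ℝ) : ℂ) := by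
            rw [mul_comm, Complex.mul_conj, Complex.normSq_eq_norm_sq]
          have hne : ((1 - ‖c‖^2 : ℝ) : ℂ) ≠ 0 := by
            rw [Complex.ofReal_ne_zero]
            nlinarith [norm_nonneg c]
          rw [hcc, show (1:ℂ) - ((‖c‖^2 : ℝ) : ℂ) = ((1 - ‖c‖^2 : ℝ) : ℂ) by push_cast; ring]
          field_simp
        rw [h5] at this
        exact this
      exact (d4.comp (0:ℂ) d3).deriv
    have hcpos : (0:ℝ) < 1 - ‖c‖^2 := by nlinarith [norm_nonneg c]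
    have hzpos : (0:ℝ) < 1 - ‖z‖^2 := by nlinarith [norm_nonneg z]
    have e1 : ‖((1 - ‖c‖^2 : ℝ) : ℂ)⁻¹‖ = (1 - ‖c‖^2)⁻¹ := by
      rw [norm_inv, Complex.norm_real, Real.norm_eq_abs, abs_of_pos hcpos]
    have e2 : ‖(s : ℂ)‖ = s := by rw [Complex.norm_real, Real.norm_eq_abs, abs_of_pos hs.1]
    have e3 : ‖((1 - ‖z‖^2 : ℝ) : ℂ)‖ = 1 - ‖z‖^2 := by
      rw [Complex.norm_real, Real.norm_eq_abs, abs_of_pos hzpos]
    rw [h2, norm_mul, e1, norm_mul, e2, norm_mul, e3, inv_mul_le_iff₀ hcpos] at h1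
    have hcs : ‖c‖^2 = s^2 * ‖F z‖^2 := by
      rw [hc, norm_mul, Complex.norm_real, Real.norm_eq_abs, abs_of_pos hs.1, mul_pow]
    rw [hcs] at h1
    linarith
  have h1 : Tendsto (fun s : ℝ => s * ((1 - ‖z‖^2) * ‖deriv F z‖)) (𝓝[<] 1)
      (𝓝 (1 * ((1 - ‖z‖^2) * ‖deriv F z‖))) :=
    ((continuous_id.mul continuous_const).tendsto 1).mono_left nhdsWithin_le_nhds
  have h2 : Tendsto (fun s : ℝ => 1 - s^2 * ‖F z‖^2) (𝓝[<] 1) (𝓝 (1 - 1^2 * ‖F z‖^2)) :=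
    ((continuous_const.sub ((continuous_id.pow 2).mul continuous_const)).tendsto 1).mono_left
      nhdsWithin_le_nhds
  have h3 := le_of_tendsto_of_tendsto h1 h2 (by
    filter_upwards [Ioo_mem_nhdsLT (show (0:ℝ) < 1 by norm_num)] with s hs
    exact key s hs)
  simpa using h3

end Pool.Agent.Helper34.Bw
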