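import Pool.Agent.Helper34.Bw.Dens

set_option autoImplicit false

namespace Pool.Agent.Helper34.Bw

open Complex Metric Set Filter Topology ComplexConjugate MeasureTheory

/-- circle point -/
noncomputable def cp (θ : ℝ) : ℂ := exp (θ * I)

lemma norm_cp (θ : ℝ) : ‖cp θ‖ = 1 := Complex.norm_exp_ofReal_mul_I θ

lemma continuous_cp : Continuous cp := by unfold cp; fun_prop

/-- entire even self-maps of the disc with small Bloch seminorm -/
structure Good (κ : ℝ) (F : ℂ → ℂ) : Prop where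
  diff : Differentiable ℂ F
  zero : F 0 = 0
  even : ∀ z, F (-z) = F z
  lt_one : ∀ z, ‖z‖ ≤ 1 → ‖F z‖ < 1
  bloch : ∃ b < 2 * κ, ∀ z, ‖z‖ < 1 → (1 - ‖z‖^2) * ‖deriv F z‖ ≤ b

lemma good_zero {κ : ℝ} (hκ : 0 < κ) : Good κ (fun _ => 0) :=
  ⟨differentiable_const 0, rfl, fun _ => rfl, fun z _ => by simp, ⟨0, by linarith, fun z _ => by simp⟩⟩

/-- the energy -/
noncomputable def En (F : ℂ → ℂ) : ℝ := ∫ θ in (0:ℝ)..(2 * Real.pi), ‖F (cp θ)‖^2
/-- the defect -/
noncomputable def De (F : ℂ → ℂ) : ℝ := ∫ θ in (0:ℝ)..(2 * Real.pi), (1 - ‖F (cp θ)‖^2)^2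

lemma norm_le_of_circle {F : ℂ → ℂ} (hF : Differentiable ℂ F) {C : ℝ}
    (h : ∀ z, ‖z‖ = 1 → ‖F z‖ ≤ C) {z : ℂ} (hz : ‖z‖ ≤ 1) : ‖F z‖ ≤ C := by
  apply Complex.norm_le_of_forall_mem_frontier_norm_le (U := ball (0:ℂ) 1) isBounded_ball
    hF.diffContOnCl
  · intro w hw
    rw [frontier_ball _ one_ne_zero, mem_sphere_zero_iff_norm] at hw
    exact h w hw
  · rw [closure_ball _ one_ne_zero, mem_closedBall_zero_iff]; exact hz

lemma mul_pow_le (x : ℝ) (hx0 : 0 ≤ x) (hx1 : x ≤ 1) (M : ℕ) (hM : 1 ≤ M) :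
    M * ((1 - x) * x^(M-1)) ≤ 1 := by
  have h1 : (1 - x) * ∑ i ∈ Finset.range M, x^i = 1 - x^M := by
    have := geom_sum_mul x M
    linarith
  have h2 : (M : ℝ) * x^(M-1) ≤ ∑ i ∈ Finset.range M, x^i := by
    have : ∑ _i ∈ Finset.range M, x^(M-1) ≤ ∑ i ∈ Finset.range M, x^i := by
      apply Finset.sum_le_sum
      intro i hi
      rw [Finset.mem_range] at hi
      exact pow_le_pow_of_le_one hx0 hx1 (by omega)
    simpa using this
  have h3 : 0 ≤ x^M := by positivity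
  calc M * ((1 - x) * x^(M-1)) = (1 - x) * (M * x^(M-1)) := by ring
    _ ≤ (1 - x) * ∑ i ∈ Finset.range M, x^i := mul_le_mul_of_nonneg_left h2 (by linarith)
    _ = 1 - x^M := h1
    _ ≤ 1 := by linarith

lemma hasDerivAt_pow_mul {O : ℂ → ℂ} (hO : Differentiable ℂ O) (M : ℕ) (z : ℂ) :
    HasDerivAt (fun z => z^M * O z) (M * z^(M-1) * O z + z^M * deriv O z) z :=
  (hasDerivAt_pow M z).mul (hO z).hasDerivAt

/-- The step: adding one high-frequency layer. -/
lemma good_step {κ : ℝ} (hκ0 : 0 < κ) (hκ1 : κ < 1) {F : ℂ → ℂ} (hF : Good κ F) (hDe : 0 < De F) :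
    ∃ F₁ : ℂ → ℂ, Good κ F₁ ∧ En F + κ^2 / 32 * De F ≤ En F₁ := by
  obtain ⟨hd, h0, hev, hlt, b, hb2, hb⟩ := hF
  -- the function ψ
  have hpos : ∀ z : ℂ, ‖z‖ ≤ 1 → 0 < 1 - ‖F z‖^2 := by
    intro z hz
    have := hlt z hz
    nlinarith [norm_nonneg (F z)]
  have hcont : Continuous F := hd.continuous
  have hg : ContinuousOn (fun z => Real.log (κ / 2 * (1 - ‖F z‖^2)) - Real.log 2 / 2)
      (sphere (0:ℂ) 1) := by
    apply ContinuousOn.sub _ continuousOn_const
    apply ContinuousOn.log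
    · exact (continuous_const.mul (continuous_const.sub (hcont.norm.pow 2))).continuousOn
    · intro z hz
      rw [mem_sphere_zero_iff_norm] at hz
      have := hpos z hz.le
      positivity
  have hlog2 : 0 < Real.log 2 := Real.log_pos (by norm_num)
  obtain ⟨L, hL, hLe, hLre⟩ := exists_entire_re_even hg (fun z => by simp only [hev])
    (η := Real.log 2 / 2) (by positivity)
  set O : ℂ → ℂ := fun z => exp (L z) with hO
  have hOd : Differentiable ℂ O := hL.cexp
  have hOe : ∀ z, O (-z) = O z := fun z => by simp only [hO, hLe]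
  have hOn : ∀ z, ‖O z‖ = Real.exp (L z).re := fun z => Complex.norm_exp _
  have hOup : ∀ z, ‖z‖ = 1 → ‖O z‖ ≤ κ / 2 * (1 - ‖F z‖^2) := by
    intro z hz
    have h1 := hLre z hz
    have h2 := hpos z hz.le
    rw [abs_le] at h1
    rw [hOn, ← Real.exp_log (show 0 < κ / 2 * (1 - ‖F z‖^2) by positivity)]
    apply Real.exp_le_exp.2
    linarith [h1.2]
  have hOlow : ∀ z, ‖z‖ = 1 → κ / 4 * (1 - ‖F z‖^2) ≤ ‖O z‖ := by
    intro z hz
    have h1 := hLre z hz
    have h2 := hpos z hz.le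
    rw [abs_le] at h1
    have h3 : κ / 4 * (1 - ‖F z‖^2) = κ / 2 * (1 - ‖F z‖^2) / 2 := by ring
    rw [hOn, h3, ← Real.exp_log (show 0 < κ / 2 * (1 - ‖F z‖^2) / 2 by positivity)]
    apply Real.exp_le_exp.2
    rw [Real.log_div (by positivity) (by norm_num)]
    linarith [h1.1]
  have hO2 : ∀ z, ‖z‖ ≤ 1 → ‖O z‖ ≤ κ / 2 := by
    intro z hz
    apply norm_le_of_circle hOd _ hz
    intro w hw
    refine (hOup w hw).trans ?_
    nlinarith [norm_nonneg (F w), sq_nonneg ‖F w‖]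
  -- derivative bounds
  have hdF : Continuous (deriv F) := (hd.contDiff (n := 1)).continuous_deriv le_rfl
  have hdO : Continuous (deriv O) := (hOd.contDiff (n := 1)).continuous_deriv le_rfl
  obtain ⟨D₁, hD₁⟩ := (isCompact_closedBall (0:ℂ) 1).exists_bound_of_continuousOn hdF.continuousOn
  obtain ⟨D₂, hD₂⟩ := (isCompact_closedBall (0:ℂ) 1).exists_bound_of_continuousOn hdO.continuousOn
  have hD₁' : ∀ z, ‖z‖ ≤ 1 → ‖deriv F z‖ ≤ |D₁| := fun z hz =>
    (hD₁ z (by simpa using hz)).trans (le_abs_self _)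
  have hD₂' : ∀ z, ‖z‖ ≤ 1 → ‖deriv O z‖ ≤ |D₂| := fun z hz =>
    (hD₂ z (by simpa using hz)).trans (le_abs_self _)
  -- choice of τ, ρ₀
  set τ : ℝ := min ((2 * κ - b) / 2) (κ / 4) with hτ
  have hτ0 : 0 < τ := lt_min (by linarith) (by positivity)
  have hτ1 : b + τ < 2 * κ := by
    have : τ ≤ (2 * κ - b) / 2 := min_le_left _ _
    linarith
  have hτ2 : κ + 2 * τ < 2 * κ := by
    have : τ ≤ κ / 4 := min_le_right _ _
    linarith
  obtain ⟨ρ₀, hρ0, hρ1, hρ⟩ : ∃ ρ₀ : ℝ, 0 < ρ₀ ∧ ρ₀ < 1 ∧ 2 * (1 - ρ₀) * |D₁| ≤ τ := by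
    refine ⟨max (1/2) (1 - τ / (2 * (|D₁| + 1))), lt_of_lt_of_le (by norm_num) (le_max_left _ _),
      max_lt (by norm_num) ?_, ?_⟩
    · have : 0 < τ / (2 * (|D₁| + 1)) := by positivity
      linarith
    · have h1 : 1 - max (1/2) (1 - τ / (2 * (|D₁| + 1))) ≤ τ / (2 * (|D₁| + 1)) := by
        have := le_max_right (1/2) (1 - τ / (2 * (|D₁| + 1)))
        linarith
      calc 2 * (1 - max (1/2) (1 - τ / (2 * (|D₁| + 1)))) * |D₁|
          ≤ 2 * (τ / (2 * (|D₁| + 1))) * |D₁| := by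
            apply mul_le_mul_of_nonneg_right _ (abs_nonneg _)
            linarith
        _ = τ * (|D₁| / (|D₁| + 1)) := by field_simp
        _ ≤ τ * 1 := by
            apply mul_le_mul_of_nonneg_left _ hτ0.le
            rw [div_le_one (by positivity)]; linarith
        _ = τ := mul_one _
  -- choice of M
  have ev1 : ∀ᶠ M : ℕ in atTop, 2 * |D₂| / M ≤ τ / 2 := by
    have : Tendsto (fun M : ℕ => 2 * |D₂| / (M : ℝ)) atTop (𝓝 0) :=
      tendsto_const_div_atTop_nhds_zero_nat _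
    exact (this.eventually_lt_const (by positivity)).mono fun _ h => h.le
  have ev2 : ∀ᶠ M : ℕ in atTop, (M : ℝ) * ρ₀^M * (κ / (2 * ρ₀)) ≤ τ / 2 := by
    have : Tendsto (fun M : ℕ => (M : ℝ) * ρ₀^M * (κ / (2 * ρ₀))) atTop (𝓝 (0 * (κ / (2 * ρ₀)))) :=
      (tendsto_self_mul_const_pow_of_lt_one hρ0.le hρ1).mul_const _
    rw [zero_mul] at this
    exact (this.eventually_lt_const (by positivity)).mono fun _ h => h.le
  have hosc := tendsto_osc (fun θ => conj (F (cp θ)) * O (cp θ))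
  have ev3 : ∀ᶠ M : ℕ in atTop, ‖∫ θ in (0:ℝ)..(2 * Real.pi),
      exp (M * θ * I) * (conj (F (cp θ)) * O (cp θ))‖ ≤ κ^2 / 64 * De F := by
    have := hosc.norm
    rw [norm_zero] at this
    exact (this.eventually_lt_const (by positivity)).mono fun _ h => h.le
  obtain ⟨M₀, hM₀⟩ := eventually_atTop.1 ((ev1.and ev2).and (ev3.and (eventually_ge_atTop 1)))
  set M : ℕ := 2 * (M₀ + 1) with hM
  obtain ⟨⟨hM1, hM2⟩, hM3, hM4⟩ := hM₀ M (by omega)
  have hMpos : (0:ℝ) < M := by exact_mod_cast (by omega : 0 < M)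
  set F₁ : ℂ → ℂ := fun z => F z + z^M * O z with hF₁
  have hF₁d : Differentiable ℂ F₁ := hd.add ((differentiable_id.pow M).mul hOd)
  have hF₁der : ∀ z, deriv F₁ z = deriv F z + (M * z^(M-1) * O z + z^M * deriv O z) := fun z =>
    ((hd z).hasDerivAt.add (hasDerivAt_pow_mul hOd M z)).deriv
  refine ⟨F₁, ⟨hF₁d, ?_, ?_, ?_, ?_⟩, ?_⟩
  · simp only [hF₁, h0, zero_add]
    rw [zero_pow (by omega), zero_mul]
  · intro z
    simp only [hF₁, hev, hOe]
    rw [hM, pow_mul, neg_sq, ← pow_mul]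
  · -- strictly less than one
    obtain ⟨z₀, hz₀, hmax⟩ := (isCompact_sphere (0:ℂ) 1).exists_isMaxOn
      (NormedSpace.sphere_nonempty.2 zero_le_one) (hF₁d.continuous.norm.continuousOn)
    rw [mem_sphere_zero_iff_norm] at hz₀
    have hb1 : ‖F₁ z₀‖ < 1 := by
      have h1 : ‖F₁ z₀‖ ≤ ‖F z₀‖ + κ / 2 * (1 - ‖F z₀‖^2) := by
        refine (norm_add_le _ _).trans ?_
        rw [norm_mul, norm_pow, hz₀, one_pow, one_mul]
        linarith [hOup z₀ hz₀]
      have h2 := hlt z₀ hz₀.le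
      have h3 : 1 - ‖F z₀‖^2 ≤ 2 * (1 - ‖F z₀‖) := by nlinarith [sq_nonneg (1 - ‖F z₀‖)]
      have h4 : κ / 2 * (1 - ‖F z₀‖^2) ≤ κ / 2 * (2 * (1 - ‖F z₀‖)) :=
        mul_le_mul_of_nonneg_left h3 (by positivity)
      have h5 : 0 < (1 - ‖F z₀‖) * (1 - κ) := mul_pos (by linarith) (by linarith)
      linarith
    intro z hz
    refine lt_of_le_of_lt (norm_le_of_circle hF₁d (fun w hw => ?_) hz) hb1
    exact hmax (by rw [mem_sphere_zero_iff_norm]; exact hw)
  · -- Bloch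
    refine ⟨max (b + τ) (κ + 2 * τ), max_lt hτ1 hτ2, ?_⟩
    intro z hz
    set x := ‖z‖ with hx
    have hx0 : 0 ≤ x := norm_nonneg z
    have h1x : 0 ≤ 1 - x^2 := by nlinarith
    have hA : ‖(M : ℂ) * z^(M-1) * O z‖ ≤ M * x^(M-1) * (κ / 2) := by
      rw [norm_mul, norm_mul, norm_pow, Complex.norm_natCast]
      exact mul_le_mul_of_nonneg_left (hO2 z hz.le) (by positivity)
    have hB : ‖z^M * deriv O z‖ ≤ x^M * |D₂| := by
      rw [norm_mul, norm_pow]
      exact mul_le_mul_of_nonneg_left (hD₂' z hz.le) (by positivity)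
    have hder : ‖deriv F₁ z‖ ≤ ‖deriv F z‖ + (M * x^(M-1) * (κ / 2) + x^M * |D₂|) := by
      rw [hF₁der]
      refine (norm_add_le _ _).trans ?_
      have := norm_add_le ((M : ℂ) * z^(M-1) * O z) (z^M * deriv O z)
      linarith
    -- the second piece is always small
    have hkey := mul_pow_le x hx0 hz.le M hM4
    have hsecond : (1 - x^2) * (x^M * |D₂|) ≤ τ / 2 := by
      have e1 : (1 - x^2) ≤ 2 * (1 - x) := by nlinarith
      have e2 : x^M ≤ x^(M-1) := pow_le_pow_of_le_one hx0 hz.le (by omega)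
      have e3 : (1 - x) * x^(M-1) ≤ 1 / M := by
        rw [le_div_iff₀ hMpos]; linarith
      have e4 : (1 - x^2) * x^M ≤ 2 * (1 / M) := by
        calc (1 - x^2) * x^M ≤ (2 * (1 - x)) * x^(M-1) :=
              mul_le_mul e1 e2 (by positivity) (by linarith)
          _ ≤ 2 * (1 / M) := by linarith
      calc (1 - x^2) * (x^M * |D₂|) = ((1 - x^2) * x^M) * |D₂| := by ring
        _ ≤ (2 * (1 / M)) * |D₂| := mul_le_mul_of_nonneg_right e4 (abs_nonneg _)
        _ = 2 * |D₂| / M := by ring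
        _ ≤ τ / 2 := hM1
    by_cases hxρ : x ≤ ρ₀
    · refine le_trans ?_ (le_max_left _ _)
      have hfirst : (1 - x^2) * (M * x^(M-1) * (κ / 2)) ≤ τ / 2 := by
        have e1 : x^(M-1) ≤ ρ₀^(M-1) := pow_le_pow_left₀ hx0 hxρ _
        have e2 : ρ₀^(M-1) = ρ₀^M / ρ₀ := by
          rw [eq_div_iff hρ0.ne', ← pow_succ, Nat.sub_add_cancel hM4]
        calc (1 - x^2) * (M * x^(M-1) * (κ / 2)) ≤ 1 * (M * x^(M-1) * (κ / 2)) := by
              apply mul_le_mul_of_nonneg_right _ (by positivity)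
              nlinarith
          _ ≤ 1 * (M * (ρ₀^M / ρ₀) * (κ / 2)) := by
              rw [← e2]
              apply mul_le_mul_of_nonneg_left _ zero_le_one
              apply mul_le_mul_of_nonneg_right _ (by positivity)
              exact mul_le_mul_of_nonneg_left e1 hMpos.le
          _ = (M : ℝ) * ρ₀^M * (κ / (2 * ρ₀)) := by field_simp
          _ ≤ τ / 2 := hM2
      calc (1 - x^2) * ‖deriv F₁ z‖
          ≤ (1 - x^2) * (‖deriv F z‖ + (M * x^(M-1) * (κ / 2) + x^M * |D₂|)) :=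
            mul_le_mul_of_nonneg_left hder h1x
        _ = (1 - x^2) * ‖deriv F z‖ + (1 - x^2) * (M * x^(M-1) * (κ / 2)) +
            (1 - x^2) * (x^M * |D₂|) := by ring
        _ ≤ b + τ := by linarith [hb z hz]
    · push Not at hxρ
      refine le_trans ?_ (le_max_right _ _)
      have hfirst : (1 - x^2) * (M * x^(M-1) * (κ / 2)) ≤ κ := by
        have e1 : (1 - x^2) ≤ 2 * (1 - x) := by nlinarith
        calc (1 - x^2) * (M * x^(M-1) * (κ / 2)) ≤ (2 * (1 - x)) * (M * x^(M-1) * (κ / 2)) :=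
              mul_le_mul_of_nonneg_right e1 (by positivity)
          _ = (M * ((1 - x) * x^(M-1))) * κ := by ring
          _ ≤ 1 * κ := mul_le_mul_of_nonneg_right hkey hκ0.le
          _ = κ := one_mul _
      have hzero : (1 - x^2) * ‖deriv F z‖ ≤ τ := by
        have e1 : (1 - x^2) ≤ 2 * (1 - ρ₀) := by nlinarith
        calc (1 - x^2) * ‖deriv F z‖ ≤ (2 * (1 - ρ₀)) * |D₁| :=
              mul_le_mul e1 (hD₁' z hz.le) (norm_nonneg _) (by linarith)
          _ ≤ τ := hρ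
      calc (1 - x^2) * ‖deriv F₁ z‖
          ≤ (1 - x^2) * (‖deriv F z‖ + (M * x^(M-1) * (κ / 2) + x^M * |D₂|)) :=
            mul_le_mul_of_nonneg_left hder h1x
        _ = (1 - x^2) * ‖deriv F z‖ + (1 - x^2) * (M * x^(M-1) * (κ / 2)) +
            (1 - x^2) * (x^M * |D₂|) := by ring
        _ ≤ κ + 2 * τ := by linarith
  · -- energy
    have hcF : Continuous fun θ : ℝ => F (cp θ) := hcont.comp continuous_cp
    have hcO : Continuous fun θ : ℝ => O (cp θ) := hOd.continuous.comp continuous_cp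
    have hpow : ∀ θ : ℝ, (cp θ)^M = exp (M * θ * I) := by
      intro θ
      rw [cp, ← Complex.exp_nat_mul]; congr 1; ring
    have hexpand : ∀ θ : ℝ, ‖F₁ (cp θ)‖^2 = ‖F (cp θ)‖^2 + ‖O (cp θ)‖^2 +
        2 * (exp (M * θ * I) * (conj (F (cp θ)) * O (cp θ))).re := by
      intro θ
      have h1 : F₁ (cp θ) = F (cp θ) + (cp θ)^M * O (cp θ) := rfl
      rw [h1, ← Complex.normSq_eq_norm_sq, Complex.normSq_add, Complex.normSq_eq_norm_sq,
        Complex.normSq_eq_norm_sq, norm_mul, norm_pow, norm_cp, one_pow, one_mul, ← hpow]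
      congr 2
      rw [← Complex.conj_re]
      congr 1
      rw [map_mul, Complex.conj_conj]
      ring
    have hcX : Continuous fun θ : ℝ => exp (M * θ * I) * (conj (F (cp θ)) * O (cp θ)) := by
      apply Continuous.mul (by fun_prop)
      exact (Complex.continuous_conj.comp hcF).mul hcO
    have hEn : En F₁ = En F + (∫ θ in (0:ℝ)..(2 * Real.pi), ‖O (cp θ)‖^2) +
        2 * (∫ θ in (0:ℝ)..(2 * Real.pi), exp (M * θ * I) * (conj (F (cp θ)) * O (cp θ))).re := by
      unfold En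
      have h1 : (∫ θ in (0:ℝ)..(2 * Real.pi), exp (M * θ * I) * (conj (F (cp θ)) * O (cp θ))).re =
          ∫ θ in (0:ℝ)..(2 * Real.pi), (exp (M * θ * I) * (conj (F (cp θ)) * O (cp θ))).re :=
        (Complex.reCLM.intervalIntegral_comp_comm (hcX.intervalIntegrable _ _)).symm
      rw [h1, ← intervalIntegral.integral_const_mul, ← intervalIntegral.integral_add,
        ← intervalIntegral.integral_add]
      · apply intervalIntegral.integral_congr
        intro θ _
        exact hexpand θ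
      · exact ((hcF.norm.pow 2).add (hcO.norm.pow 2)).intervalIntegrable _ _
      · exact (continuous_const.mul (Complex.continuous_re.comp hcX)).intervalIntegrable _ _
      · exact (hcF.norm.pow 2).intervalIntegrable _ _
      · exact (hcO.norm.pow 2).intervalIntegrable _ _
    have hOint : κ^2 / 16 * De F ≤ ∫ θ in (0:ℝ)..(2 * Real.pi), ‖O (cp θ)‖^2 := by
      unfold De
      rw [← intervalIntegral.integral_const_mul]
      apply intervalIntegral.integral_mono_on (by positivity)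
      · exact (continuous_const.mul ((continuous_const.sub (hcF.norm.pow 2)).pow 2)).intervalIntegrable _ _
      · exact (hcO.norm.pow 2).intervalIntegrable _ _
      · intro θ _
        have h1 := hOlow (cp θ) (norm_cp θ)
        have h2 := hpos (cp θ) (norm_cp θ).le
        calc κ^2 / 16 * (1 - ‖F (cp θ)‖^2)^2 = (κ / 4 * (1 - ‖F (cp θ)‖^2))^2 := by ring
          _ ≤ ‖O (cp θ)‖^2 := pow_le_pow_left₀ (by positivity) h1 2
    have hcross : -(κ^2 / 64 * De F) ≤ (∫ θ in (0:ℝ)..(2 * Real.pi),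
        exp (M * θ * I) * (conj (F (cp θ)) * O (cp θ))).re := by
      have h1 := Complex.abs_re_le_norm (∫ θ in (0:ℝ)..(2 * Real.pi),
        exp (M * θ * I) * (conj (F (cp θ)) * O (cp θ)))
      have h2 := neg_abs_le (∫ θ in (0:ℝ)..(2 * Real.pi),
        exp (M * θ * I) * (conj (F (cp θ)) * O (cp θ))).re
      linarith
    rw [hEn]
    linarith

/-- near-inner functions with small Bloch seminorm -/
theorem exists_near_inner {κ : ℝ} (hκ0 : 0 < κ) (hκ1 : κ < 1) {τ₀ : ℝ} (hτ₀ : 0 < τ₀) :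
    ∃ F : ℂ → ℂ, Good κ F ∧ De F < τ₀ := by
  by_contra hcon
  push Not at hcon
  set S : Set ℝ := {x | ∃ F, Good κ F ∧ En F = x} with hS
  have hne : S.Nonempty := ⟨_, _, good_zero hκ0, rfl⟩
  have hbdd : BddAbove S := by
    refine ⟨2 * Real.pi, ?_⟩
    rintro x ⟨F, hF, rfl⟩
    unfold En
    have hcF : Continuous fun θ : ℝ => F (cp θ) := hF.diff.continuous.comp continuous_cp
    have h1 : ∫ θ in (0:ℝ)..(2 * Real.pi), ‖F (cp θ)‖^2 ≤ ∫ θ in (0:ℝ)..(2 * Real.pi), (1:ℝ) := by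
      apply intervalIntegral.integral_mono_on (by positivity)
        ((hcF.norm.pow 2).intervalIntegrable _ _) intervalIntegrable_const
      intro θ _
      exact pow_le_one₀ (norm_nonneg _) (hF.lt_one _ (norm_cp θ).le).le
    refine h1.trans ?_
    rw [intervalIntegral.integral_const, smul_eq_mul]; linarith
  obtain ⟨x, ⟨F, hF, rfl⟩, hx⟩ := exists_lt_of_lt_csSup hne
    (show sSup S - κ^2 / 32 * τ₀ < sSup S by have : 0 < κ^2 / 32 * τ₀ := by positivity
                                             linarith)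
  have hDe := hcon F hF
  obtain ⟨F₁, hF₁, hE⟩ := good_step hκ0 hκ1 hF (lt_of_lt_of_le hτ₀ hDe)
  have h1 : En F₁ ≤ sSup S := le_csSup hbdd ⟨F₁, hF₁, rfl⟩
  have h2 : κ^2 / 32 * τ₀ ≤ κ^2 / 32 * De F := mul_le_mul_of_nonneg_left hDe (by positivity)
  linarith

end Pool.Agent.Helper34.Bw
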