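import Pool.Agent.Helper34.Bw.NecA

set_option autoImplicit false

namespace Pool.Agent.Helper34.Bw

open Complex Metric Set Filter Topology ComplexConjugate

lemma isInner_id : IsInner (fun z => z) := by
  refine ⟨differentiableOn_id, ⟨1, fun z hz => ?_⟩, Eventually.of_forall fun θ => ?_⟩
  · rw [mem_ball_zero_iff] at hz; exact hz.le
  · refine ⟨exp (θ * I), Complex.norm_exp_ofReal_mul_I θ, ?_⟩
    have : Tendsto (fun r : ℝ => (r : ℂ) * exp (θ * I)) (𝓝 1) (𝓝 (((1:ℝ) : ℂ) * exp (θ * I))) :=
      (by fun_prop : Continuous fun r : ℝ => (r : ℂ) * exp (θ * I)).tendsto 1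
    simp only [Complex.ofReal_one, one_mul] at this
    exact this.mono_left nhdsWithin_le_nhds

/-- If `ω(t)/t` is not almost decreasing but `t = O(ω(t))`, there are good scales. -/
lemma exists_scale {ω : ℝ → ℝ} (hω : IsModulus ω) (hna : ¬ AlmostDecreasing ω) {C₀ : ℝ}
    (hC₀ : 0 < C₀) (hC : ∀ t : ℝ, 0 < t → t ≤ 1 / 2 → t ≤ C₀ * ω t) (N : ℝ) {τ η : ℝ}
    (hτ : 0 < τ) (hη : 0 < η) :
    ∃ t s : ℝ, 0 < s ∧ s ≤ t ∧ t < τ ∧ t ≤ 1 / 2 ∧ N * (ω s / s) < ω t / t ∧ ω t ≤ η := by
  have hω2 : 0 < ω (1/2) := hω.pos' (by norm_num) (by norm_num)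
  unfold AlmostDecreasing at hna
  push Not at hna
  -- ω tends to zero
  have h0 : ∃ tη : ℝ, 0 < tη ∧ tη ≤ 1 / 2 ∧ ω tη ≤ η := by
    by_contra hcon
    push Not at hcon
    obtain ⟨s, t, hs, hst, ht, h⟩ := hna (ω (1/2) / η)
    have ht0 : 0 < t := hs.trans_le hst
    have h1 := hcon s hs (hst.trans ht)
    have h2 : η / t ≤ ω s / s := div_le_div₀ (by linarith) h1.le hs hst
    have h3 : ω (1/2) / η * (η / t) < ω t / t :=
      lt_of_le_of_lt (mul_le_mul_of_nonneg_left h2 (by positivity)) h
    have h4 : ω (1/2) / η * (η / t) = ω (1/2) / t := by field_simp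
    rw [h4, div_lt_div_iff_of_pos_right ht0] at h3
    have h5 : ω t ≤ ω (1/2) := hω.mono' ht0 ht (by norm_num)
    linarith
  obtain ⟨tη, htη0, htη1, htη⟩ := h0
  set τ' := min τ tη with hτ'
  have hτ'0 : 0 < τ' := lt_min hτ htη0
  obtain ⟨s, t, hs, hst, ht, h⟩ := hna (max N (C₀ * ω (1/2) / τ'))
  have ht0 : 0 < t := hs.trans_le hst
  have hωs : 0 < ω s / s := div_pos (hω.pos' hs (by linarith)) hs
  have h1 : C₀ * ω (1/2) / τ' * (ω s / s) < ω t / t :=
    lt_of_le_of_lt (mul_le_mul_of_nonneg_right (le_max_right _ _) hωs.le) h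
  have h2 : 1 / C₀ ≤ ω s / s := by
    rw [div_le_div_iff₀ hC₀ hs]
    have := hC s hs (hst.trans ht)
    linarith
  have htτ : t < τ' := by
    by_contra hcon
    push Not at hcon
    have h3 : ω t / t ≤ ω (1/2) / τ' := div_le_div₀ hω2.le (hω.mono' ht0 ht (by norm_num)) hτ'0 hcon
    have h4 : ω (1/2) / τ' ≤ C₀ * ω (1/2) / τ' * (ω s / s) := by
      calc ω (1/2) / τ' = C₀ * ω (1/2) / τ' * (1 / C₀) := by field_simp
        _ ≤ _ := mul_le_mul_of_nonneg_left h2 (by positivity)
    linarith
  refine ⟨t, s, hs, hst, lt_of_lt_of_le htτ (min_le_left _ _), ht, ?_, ?_⟩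
  · exact lt_of_le_of_lt (mul_le_mul_of_nonneg_right (le_max_left _ _) hωs.le) h
  · exact (hω.mono' ht0 (htτ.le.trans (min_le_right _ _)) (by linarith)).trans htη

lemma hasSum_geo8 : HasSum (fun n : ℕ => (1/2 : ℝ)^(n+3)) (1/4) := by
  have h := (hasSum_geometric_two).mul_left (1/8 : ℝ)
  have e : (fun n : ℕ => (1/2 : ℝ)^(n+3)) = fun n : ℕ => (1/8 : ℝ) * (1/2)^n := by
    funext n; rw [pow_add]; ring
  rw [e]
  have e2 : (1/4 : ℝ) = 1/8 * 2 := by norm_num
  rw [e2]; exact h

/-- Failure of almost-decrease gives a counterexample with bounded `f`. -/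
theorem nec_a {ω : ℝ → ℝ} (hω : IsModulus ω) (hna : ¬ AlmostDecreasing ω) :
    ∃ (f Θ : ℂ → ℂ) (ε : ℝ), InB ω f ∧ (∃ M : ℝ, ∀ z : ℂ, ‖z‖ < 1 → ‖f z‖ ≤ M) ∧ IsInner Θ ∧
      ε ∈ Ioo (0:ℝ) 1 ∧ SFinite ω f Θ ε ∧ ¬ InB ω (fun z => f z * Θ z) := by
  have hω2 : 0 < ω (1/2) := hω.pos' (by norm_num) (by norm_num)
  by_cases hid : ∃ C₀ : ℝ, 0 < C₀ ∧ ∀ t : ℝ, 0 < t → t ≤ 1 / 2 → t ≤ C₀ * ω t
  swap
  · -- `z` is not in `B_ω`
    refine ⟨fun _ => 1, fun z => z, 1/2, ⟨differentiableOn_const _, 0, 0, one_pos, ?_⟩,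
      ⟨1, fun z _ => by simp⟩, isInner_id, by norm_num, ⟨1 / ω (1/2), ?_⟩, ?_⟩
    · intro z _ _; simp
    · intro z hz hz1 hz2
      have h1 : ω (1/2) ≤ ω (1 - ‖z‖) :=
        hω.mono' (by norm_num) (by linarith) (by linarith [norm_pos_iff.2 hz])
      rw [norm_one]
      exact one_div_le_one_div_of_le hω2 h1
    · intro hcon
      apply hid
      obtain ⟨C₁, r₀, hC₁, hr₀, hr₀1, hb⟩ := hcon.normal hω
      set x := (1 - r₀) / 2 with hx
      have hx0 : 0 < x := by rw [hx]; linarith
      have hωx : 0 < ω x := hω.pos' hx0 (by linarith)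
      refine ⟨C₁ + 1 / ω x, by positivity, ?_⟩
      intro t ht0 ht1
      have hωt : 0 < ω t := hω.pos' ht0 (by linarith)
      by_cases htx : t < x
      · have h1 := hb ((1 - t : ℝ) : ℂ) (by
          rw [Complex.norm_real, Real.norm_eq_abs, abs_of_pos (by linarith)]; linarith) (by
          rw [Complex.norm_real, Real.norm_eq_abs, abs_of_pos (by linarith)]; linarith)
        rw [Complex.norm_real, Real.norm_eq_abs, abs_of_pos (by linarith), sub_sub_cancel] at h1
        have h2 : deriv (fun z : ℂ => (1:ℂ) * z) ((1 - t : ℝ) : ℂ) = 1 := by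
          simp
        rw [h2, norm_one, one_mul] at h1
        have : 0 ≤ 1 / ω x * ω t := by positivity
        linarith
      · push Not at htx
        have h1 : ω x ≤ ω t := hω.mono' hx0 htx (by linarith)
        have h2 : 1 ≤ 1 / ω x * ω t := by
          rw [div_mul_eq_mul_div, one_mul, le_div_iff₀ hωx]; linarith
        have h3 : 0 ≤ C₁ * ω t := by positivity
        linarith
  · obtain ⟨C₀, hC₀, hC⟩ := hid
    -- the sequence
    set K : ℕ → ℝ := fun n => 2^(n+5) with hK
    have hKpos : ∀ n, 0 < K n := fun n => by simp only [hK]; positivity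
    have hK1 : ∀ n, 1 ≤ K n := fun n => by simp only [hK]; exact one_le_pow₀ (by norm_num)
    obtain ⟨g, hP, hR⟩ := exists_seq_strong (α := ℝ × ℝ)
      (fun n y => 0 < y.2 ∧ y.2 ≤ y.1 ∧ y.1 ≤ 1/8 ∧ ((n : ℝ) + 1) * (ω y.2 / y.2) < ω y.1 / y.1 ∧
        16 * y.1 ≤ ω y.1 ∧ ω y.1 ≤ (1/2)^n / 16)
      (fun m x n y => K m * K n * (2 * y.1) < 2 * x.1) (by
        intro n g hg
        obtain ⟨τ, hτ, hτm⟩ := exists_pos_le n (fun m => (2 * (g m).1) / (K m * K n * 2)) (by
          intro m hm
          have h1 := hg m hm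
          have h2 : 0 < (g m).1 := h1.1.trans_le h1.2.1
          have := hKpos m
          have := hKpos n
          positivity)
        obtain ⟨t, s, hs, hst, htτ, ht2, hN, hη⟩ := exists_scale hω hna hC₀ hC
          (max ((n : ℝ) + 1) (16 * C₀)) (τ := min τ (1/8)) (η := (1/2)^n / 16)
          (lt_min hτ (by norm_num)) (by positivity)
        have ht0 : 0 < t := hs.trans_le hst
        have hωs : 0 < ω s / s := div_pos (hω.pos' hs (by linarith)) hs
        refine ⟨(t, s), ⟨hs, hst, (htτ.le.trans (min_le_right _ _)), ?_, ?_, hη⟩, ?_⟩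
        · exact lt_of_le_of_lt (mul_le_mul_of_nonneg_right (le_max_left _ _) hωs.le) hN
        · have h1 : 1 / C₀ ≤ ω s / s := by
            rw [div_le_div_iff₀ hC₀ hs]
            have := hC s hs (hst.trans ht2)
            linarith
          have h2 : 16 * C₀ * (ω s / s) < ω t / t :=
            lt_of_le_of_lt (mul_le_mul_of_nonneg_right (le_max_right _ _) hωs.le) hN
          have h3 : 16 ≤ 16 * C₀ * (ω s / s) := by
            calc (16:ℝ) = 16 * C₀ * (1 / C₀) := by field_simp
              _ ≤ _ := mul_le_mul_of_nonneg_left h1 (by positivity)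
          have h4 : 16 < ω t / t := by linarith
          rw [lt_div_iff₀ ht0] at h4
          exact h4.le
        · intro m hm
          have h1 := hτm m hm
          have h2 : t < (2 * (g m).1) / (K m * K n * 2) := (htτ.trans_le (min_le_left _ _)).trans_le h1
          have := hKpos m
          have := hKpos n
          rw [lt_div_iff₀ (by positivity)] at h2
          simp only
          linarith)
    set t : ℕ → ℝ := fun n => (g n).1 with ht
    set s : ℕ → ℝ := fun n => (g n).2 with hs
    have hs0 : ∀ n, 0 < s n := fun n => (hP n).1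
    have hst : ∀ n, s n ≤ t n := fun n => (hP n).2.1
    have ht0 : ∀ n, 0 < t n := fun n => (hs0 n).trans_le (hst n)
    have ht8 : ∀ n, t n ≤ 1/8 := fun n => (hP n).2.2.1
    have hN : ∀ n : ℕ, ((n : ℝ) + 1) * (ω (s n) / s n) < ω (t n) / t n := fun n => (hP n).2.2.2.1
    have h16 : ∀ n, 16 * t n ≤ ω (t n) := fun n => (hP n).2.2.2.2.1
    have hωn : ∀ n, ω (t n) ≤ (1/2)^n / 16 := fun n => (hP n).2.2.2.2.2
    have hωpos : ∀ n, 0 < ω (t n) := fun n => hω.pos' (ht0 n) (by linarith [ht8 n])
    have hω1 : ∀ n, ω (t n) ≤ 1 := fun n => (hωn n).trans (by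
      have : ((1:ℝ)/2)^n ≤ 1 := pow_le_one₀ (by norm_num) (by norm_num)
      linarith)
    set δ : ℕ → ℝ := fun n => 2 * t n with hδ
    have hδ0 : ∀ n, 0 < δ n := fun n => by simp only [hδ]; linarith [ht0 n]
    have hδ4 : ∀ n, δ n ≤ 1/4 := fun n => by simp only [hδ]; linarith [ht8 n]
    have hsep : ∀ m n, m < n → K m * K n * δ n < δ m := fun m n hmn => hR m n hmn
    set u : ℕ → ℂ := fun n => upt (ω (t n)) with hu
    have hu1 : ∀ n, ‖u n‖ = 1 := fun n => norm_upt _
    set a : ℕ → ℂ := fun n => ((1 - δ n : ℝ) : ℂ) * u n with ha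
    have han : ∀ n, ‖a n‖ = 1 - δ n := by
      intro n
      simp only [ha]
      rw [norm_mul, hu1, mul_one, Complex.norm_real, Real.norm_eq_abs,
        abs_of_pos (by linarith [hδ4 n])]
    have ha1 : ∀ n, ‖a n‖ < 1 := fun n => by rw [han]; linarith [hδ0 n]
    have hua : ∀ n, ‖u n - a n‖ = δ n := by
      intro n
      have : u n - a n = ((δ n : ℝ) : ℂ) * u n := by
        simp only [ha]; push_cast; ring
      rw [this, norm_mul, hu1, mul_one, Complex.norm_real, Real.norm_eq_abs, abs_of_pos (hδ0 n)]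
    have h1a_le : ∀ n, ‖1 - a n‖ ≤ 3 * ω (t n) := by
      intro n
      have e1 : 1 - a n = (1 - u n) + (u n - a n) := by ring
      rw [e1]
      refine (norm_add_le _ _).trans ?_
      rw [hua]
      have h1 := one_sub_upt_le (hωpos n).le
      have h2 := h16 n
      have h3 := ht0 n
      simp only [hδ, hu] at *
      linarith
    have h1a_ge : ∀ n, ω (t n) / 2 ≤ ‖1 - a n‖ := by
      intro n
      have e1 : 1 - u n = (1 - a n) - (u n - a n) := by ring
      have h1 := le_one_sub_upt (hωpos n).le (hω1 n)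
      have h2 := h16 n
      have h3 := ht0 n
      have h4 : ‖1 - u n‖ ≤ ‖1 - a n‖ + ‖u n - a n‖ := by rw [e1]; exact norm_sub_le _ _
      rw [hua] at h4
      simp only [hδ, hu] at *
      linarith
    -- the factors
    set β : ℕ → ℂ → ℂ := fun n z => bfac (u n) (a n) z with hβ
    have hβn : ∀ n z, ‖β n z‖ = ‖mob (a n) z‖ := fun n z => norm_bfac (hu1 n)
    set c : ℕ → ℝ := fun n => 2 * (δ n + ‖1 - a n‖) with hc
    have hFS : FS β c := by
      refine ⟨?_, ?_, ?_, ?_, ?_, ?_⟩
      · intro k z hz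
        exact (differentiableAt_mob (ha1 k) hz).const_mul _
      · intro k z hz
        rw [hβn]; exact norm_mob_le (ha1 k) hz
      · intro k z hz
        rw [hβn]; exact norm_mob_eq_one (ha1 k) hz
      · intro k z hz hz1
        have := bfac_sub_one (hu1 k) (ρ := 1 - δ k) (by linarith [hδ4 k]) (by linarith [hδ0 k]) hz hz1
        rw [sub_sub_cancel] at this
        exact this
      · intro k
        simp only [hc]
        have := hδ0 k
        positivity
      · apply Summable.of_nonneg_of_le (f := fun n : ℕ => (1/2 : ℝ)^n)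
        · intro k
          simp only [hc]
          have := hδ0 k
          positivity
        · intro k
          have h1 := h1a_le k
          have h2 := h16 k
          have h3 := hωn k
          have h4 : (0:ℝ) < (1/2)^k := by positivity
          simp only [hc, hδ]
          linarith
        · exact summable_geometric_two
    have hmobsq : ∀ n z, ‖z‖ ≤ 1 → 1 - ‖β n z‖ ≤ 1 - ‖mob (a n) z‖^2 := by
      intro n z hz
      rw [hβn]
      have := norm_mob_le (ha1 n) hz
      nlinarith [norm_nonneg (mob (a n) z)]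
    have hKval : ∀ n, 4 / K n = (1/2)^(n+3) := by
      intro n
      simp only [hK]
      rw [pow_add, pow_add]
      rw [div_eq_iff (by positivity)]
      have : ((1:ℝ)/2)^n * 2^n = 1 := by rw [← mul_pow]; norm_num
      nlinarith
    have hoff : ∀ n z, ‖z‖ < 1 → ¬ (δ n / K n ≤ 1 - ‖z‖ ∧ 1 - ‖z‖ ≤ K n * δ n) →
        1 - (1/2)^(n+3) ≤ ‖β n z‖ := by
      intro n z hz hw
      have h1 := off_window (ha1 n) hz (hKpos n) (by rw [han, sub_sub_cancel]; exact hw)
      have h2 := hmobsq n z hz.le
      rw [hKval] at h1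
      linarith
    have hx0 : ∀ n : ℕ, (0:ℝ) ≤ (1/2)^(n+3) := fun n => by positivity
    have hx1 : ∀ n : ℕ, ((1:ℝ)/2)^(n+3) ≤ 1 := fun n => pow_le_one₀ (by norm_num) (by norm_num)
    -- lower bound away from the zeros
    have hlower : ∀ z : ℂ, ‖z‖ < 1 → (∀ n, 1/4 ≤ ‖mob (a n) z‖) → 1/8 ≤ ‖bprod β z‖ := by
      intro z hz hall
      have hz1 : z ≠ 1 := by rintro rfl; simp at hz
      obtain ⟨k, hk⟩ := window_unique hKpos hsep (1 - ‖z‖)
      have := hFS.lower' hz.le hz1 hx0 hx1 hasSum_geo8 k (fun i hi => hoff i z hz (hk i hi))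
        (by norm_num) (q := 1/4) (by rw [hβn]; exact hall k)
      linarith
    refine ⟨fun z => 1 - z, bprod β, 1/8, ⟨?_, ?_⟩, ⟨2, ?_⟩, hFS.isInner, by norm_num, ?_, ?_⟩
    · fun_prop
    · refine ⟨C₀, 1/2, by norm_num, ?_⟩
      intro z hz hz1
      have h1 : deriv (fun z : ℂ => 1 - z) z = -1 := by
        have := ((hasDerivAt_id z).const_sub 1).deriv
        simpa using this
      rw [h1, norm_neg, norm_one, one_mul]
      exact hC _ (by linarith) (by linarith)
    · intro z hz
      refine (norm_sub_le _ _).trans ?_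
      rw [norm_one]; linarith
    · -- (ii)
      refine ⟨4, ?_⟩
      intro z hz hz1 hzε
      have hωz : 0 < ω (1 - ‖z‖) := hω.pos' (by linarith) (by linarith [norm_pos_iff.2 hz])
      rw [div_le_iff₀ hωz]
      by_contra hcon
      have : 1/8 ≤ ‖bprod β z‖ := by
        apply hlower z hz1
        intro n
        by_contra hn
        push Not at hn
        apply hcon
        obtain ⟨e1, e2⟩ := close_of_mob (ha1 n) hz1 (by norm_num : (0:ℝ) ≤ 1/4) (by norm_num) hn.le
        rw [han] at e1 e2
        have hd := hδ0 n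
        have hd4 := hδ4 n
        have e3 : t n ≤ 1 - ‖z‖ := by
          have h1 : 1 - ‖z‖^2 ≤ 2 * (1 - ‖z‖) := one_sub_sq_le _
          have h2 : t n = δ n / 2 := by simp only [hδ]; ring
          rw [h2]
          nlinarith
        have e4 : ‖z - a n‖ ≤ δ n := by
          refine e1.trans ?_
          nlinarith
        have e5 : ω (t n) ≤ ω (1 - ‖z‖) := hω.mono' (ht0 n) e3 (by linarith [norm_pos_iff.2 hz])
        have e6 : ‖1 - z‖ ≤ ‖1 - a n‖ + ‖z - a n‖ := by
          have : 1 - z = (1 - a n) - (z - a n) := by ring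
          rw [this]; exact norm_sub_le _ _
        have e7 := h1a_le n
        have e8 := h16 n
        have e9 : δ n = 2 * t n := rfl
        linarith [ht0 n]
      linarith
    · -- (i) fails
      intro hcon
      obtain ⟨C₁, r₀, hC₁, hr₀, hr₀1, hb⟩ := hcon.normal hω
      obtain ⟨n, hn⟩ := exists_nat_gt (max (16 * C₁) (1 / (1 - r₀)))
      have hn1 : 16 * C₁ < n := lt_of_le_of_lt (le_max_left _ _) hn
      have hn2 : 1 / (1 - r₀) < n := lt_of_le_of_lt (le_max_right _ _) hn
      have hd := hδ0 n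
      have hd4 := hδ4 n
      have htn : t n < 1 - r₀ := by
        have h1 : t n ≤ (1/2)^n := by
          have := h16 n; have := hωn n; have := ht0 n
          have : ((1:ℝ)/2)^n / 16 ≤ (1/2)^n := div_le_self (by positivity) (by norm_num)
          linarith
        have h2 : ((1:ℝ)/2)^n < 1 / n := by
          have h3 : (n : ℝ) < 2^n := by exact_mod_cast Nat.lt_two_pow_self
          have hn0 : (0:ℝ) < n := lt_of_le_of_lt (by have : 0 < 1 - r₀ := by linarith
                                                     positivity) hn2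
          rw [one_div_pow]
          exact one_div_lt_one_div_of_lt hn0 h3
        have h3 : 1 / (n:ℝ) < 1 - r₀ := by
          have h4 : 0 < 1 - r₀ := by linarith
          have hn0 : (0:ℝ) < n := lt_of_le_of_lt (by positivity) hn2
          rw [div_lt_iff₀ h4] at hn2
          rw [div_lt_iff₀ hn0]
          linarith
        linarith
      have hsn := hst n
      have hs0n := hs0 n
      have hmax := deriv_le_of_bound hcon.1 hb (s := s n) hs0n (by linarith [ht8 n])
        (by linarith) (z := a n) (by rw [han]; simp only [hδ]; linarith [ht0 n])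
      -- the derivative at a n
      have han1 : ‖a n‖ ≤ 1 := (ha1 n).le
      have hane : a n ≠ 1 := by
        intro h0; have := ha1 n; rw [h0, norm_one] at this; linarith
      set Θn := bprod (fun m z => if m = n then 1 else β m z) with hΘn
      have hΘnd : DifferentiableAt ℂ Θn (a n) :=
        ((hFS.remove n).differentiableOn).differentiableAt (isOpen_ball.mem_nhds (by simpa using ha1 n))
      have hsplit : ∀ᶠ z in 𝓝 (a n), (fun z => (1 - z) * bprod β z) z =
          (fun z => (1 - z) * (β n z * Θn z)) z := by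
        filter_upwards [isOpen_ball.mem_nhds (show a n ∈ ball (0:ℂ) 1 by simpa using ha1 n)] with z hz
        rw [mem_ball_zero_iff] at hz
        have hz1 : z ≠ 1 := by rintro rfl; simp at hz
        rw [hFS.split n hz.le hz1]
      have hβ0 : β n (a n) = 0 := by simp [hβ, bfac, mob_self]
      have hβd : HasDerivAt (β n) (deriv (β n) (a n)) (a n) :=
        (hFS.diff n (a n) han1).hasDerivAt
      have hder : deriv (fun z => (1 - z) * bprod β z) (a n) =
          (1 - a n) * (deriv (β n) (a n) * Θn (a n)) := by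
        rw [Filter.EventuallyEq.deriv_eq hsplit]
        have h1 : HasDerivAt (fun z : ℂ => 1 - z) (-1) (a n) := by
          simpa using (hasDerivAt_id (a n)).const_sub 1
        have h2 := (h1.mul (hβd.mul hΘnd.hasDerivAt)).deriv
        have h3 : ((fun z : ℂ => 1 - z) * (β n * Θn)) = fun z => (1 - z) * (β n z * Θn z) := rfl
        rw [h3] at h2
        rw [h2]
        simp [hβ0]
      have hβ' : ‖deriv (β n) (a n)‖ = 1 / (1 - ‖a n‖^2) := by
        have h1 : deriv (β n) (a n) = -(conj (u n)) * deriv (mob (a n)) (a n) := by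
          simp only [hβ]
          exact deriv_const_mul _ (differentiableAt_mob (ha1 n) han1)
        rw [h1, norm_mul, norm_neg, RCLike.norm_conj, hu1, one_mul]
        have h2 := schwarz_mob (ha1 n) han1
        rw [mob_self, norm_zero] at h2
        have h3 : 0 < 1 - ‖a n‖^2 := by nlinarith [ha1 n, norm_nonneg (a n)]
        rw [eq_div_iff h3.ne']
        nlinarith
      have hΘn' : 1/2 ≤ ‖Θn (a n)‖ := by
        have h1 := (hFS.remove n).lower han1 hane hx0 hx1 hasSum_geo8 (by
          intro i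
          by_cases hi : i = n
          · simp only [hi, if_true, norm_one]; linarith [hx0 n]
          · simp only [hi, if_false]
            apply hoff i (a n) (ha1 n)
            rw [han, sub_sub_cancel]
            exact window_self hδ0 hK1 hsep n i hi)
        linarith
      rw [hder, norm_mul, norm_mul, hβ', han] at hmax
      have h2δ : 1 - (1 - δ n)^2 ≤ 2 * δ n := by nlinarith
      have hpos : 0 < 1 - (1 - δ n)^2 := by nlinarith
      have h3 : 1 / (4 * t n) ≤ 1 / (1 - (1 - δ n)^2) := by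
        apply one_div_le_one_div_of_le hpos
        have e9 : δ n = 2 * t n := rfl
        linarith
      have h4 : ω (t n) / (16 * t n) ≤ ‖1 - a n‖ * (1 / (1 - (1 - δ n)^2) * ‖Θn (a n)‖) := by
        have e1 := h1a_ge n
        have e2 : 1 / (4 * t n) * (1/2) ≤ 1 / (1 - (1 - δ n)^2) * ‖Θn (a n)‖ :=
          mul_le_mul h3 hΘn' (by norm_num) (by positivity)
        have e3 : 0 < t n := ht0 n
        calc ω (t n) / (16 * t n) = (ω (t n) / 2) * (1 / (4 * t n) * (1/2)) := by
              field_simp; ring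
          _ ≤ _ := mul_le_mul e1 e2 (by positivity) (norm_nonneg _)
      have h5 := hN n
      have h6 : 0 < ω (s n) / s n := div_pos (hω.pos' hs0n (by linarith [ht8 n])) hs0n
      have h7 : ω (t n) / (16 * t n) = (ω (t n) / t n) / 16 := by
        have e3 : 0 < t n := ht0 n
        field_simp
      rw [h7] at h4
      have h8 : ((n : ℝ) + 1) * (ω (s n) / s n) < 16 * (C₁ * (ω (s n) / s n)) := by linarith
      have h9 : 16 * (C₁ * (ω (s n) / s n)) ≤ (n : ℝ) * (ω (s n) / s n) := by
        rw [← mul_assoc]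
        exact mul_le_mul_of_nonneg_right hn1.le h6.le
      linarith

end Pool.Agent.Helper34.Bw
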