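import Pool.Agent.Helper34.Bw.Glue2

set_option autoImplicit false

namespace Pool.Agent.Helper34.Bw

open Complex Metric Set Filter Topology ComplexConjugate MeasureTheory

lemma exists_ge_all (n : ℕ) (x : ℕ → ℝ) : ∃ N, ∀ m < n, x m ≤ N := by
  induction n with
  | zero => exact ⟨0, fun m hm => absurd hm (Nat.not_lt_zero m)⟩
  | succ n ih =>
    obtain ⟨N, h⟩ := ih
    refine ⟨max N (x n), fun m hm => ?_⟩
    rcases Nat.lt_succ_iff_lt_or_eq.1 hm with h1 | h1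
    · exact (h m h1).trans (le_max_left _ _)
    · rw [h1]; exact le_max_right _ _

theorem nec_b {ω : ℝ → ℝ} (hω : IsModulus ω) (hA : AlmostDecreasing ω) (hD : ¬ DiniRegular ω) :
    ∃ (f Θ : ℂ → ℂ) (ε : ℝ), InB ω f ∧
      ((∀ c > 0, ∃ t ∈ Set.Ioo (0:ℝ) 1, ω t < c) → ∃ C : ℝ, ∀ z ∈ ball (0:ℂ) 1, ‖f z‖ ≤ C) ∧
      IsInner Θ ∧ ε ∈ Set.Ioo (0:ℝ) 1 ∧ SFinite ω f Θ ε ∧ ¬ InB ω (fun z => f z * Θ z) := by
  have hslope := slope_of_not_dini hω hD hA
  obtain ⟨Ca, hCa⟩ := hA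
  have hCa1 : 1 ≤ Ca := by
    have h1 := hCa (1/2) (1/2) (by norm_num) le_rfl le_rfl
    have h2 : 0 < ω (1/2) / (1/2) := div_pos (hω.pos' (by norm_num) (by norm_num)) (by norm_num)
    by_contra h3
    push Not at h3
    nlinarith
  have hLD : ∀ n : ℕ, ∃ g B L, LD ((n:ℝ) + 1) g B L := fun n => exists_LD (by
    have : (0:ℝ) ≤ n := n.cast_nonneg
    linarith)
  choose g B L hL using hLD
  have hLpos : ∀ n, 0 < L n := fun n => by linarith [(hL n).L1]
  obtain ⟨δ, hδP, hδR⟩ := exists_seq_strong (α := ℝ)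
    (fun n d => 0 < d ∧ d ≤ 1/4 ∧ L n * d ≤ (1/2)^n ∧ ω d ≤ 2 * ω (d / (16 * L n * 2^n)) ∧
      ((∀ c > 0, ∃ t ∈ Set.Ioo (0:ℝ) 1, ω t < c) → ((n:ℝ) + 1) * ω d ≤ (1/2)^n))
    (fun m d n e => (16 * L m * 2^m) * (16 * L n * 2^n) * e < d ∧
      16 * ω d * L m * L n * 2^(m+1) / d ≤ ω e / e) (by
    intro n d hd
    have hLn := hLpos n
    -- separation
    obtain ⟨τ₁, hτ₁, h₁⟩ := exists_pos_le n (fun m => d m / ((16 * L m * 2^m) * (16 * L n * 2^n)))
      (fun m hm => by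
        have := (hd m hm).1
        have := hLpos m
        positivity)
    -- slope
    obtain ⟨N, hN⟩ := exists_ge_all n (fun m => 16 * ω (d m) * L m * L n * 2^(m+1) / d m)
    obtain ⟨τ₂, hτ₂, h₂⟩ := hslope N
    -- smallness of ω
    obtain ⟨τ₃, hτ₃, h₃⟩ : ∃ τ₃ > 0, ∀ e, 0 < e → e < τ₃ →
        ((∀ c > 0, ∃ t ∈ Set.Ioo (0:ℝ) 1, ω t < c) → ((n:ℝ) + 1) * ω e ≤ (1/2)^n) := by
      by_cases hz : ∀ c > 0, ∃ t ∈ Set.Ioo (0:ℝ) 1, ω t < c
      · obtain ⟨t, ht, htc⟩ := hz ((1/2)^n / ((n:ℝ) + 1)) (by positivity)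
        refine ⟨t, ht.1, fun e he0 het _ => ?_⟩
        have h1 : ω e ≤ ω t := hω.mono' he0 het.le ht.2
        have h2 : ω e ≤ (1/2)^n / ((n:ℝ) + 1) := h1.trans htc.le
        rw [le_div_iff₀ (by positivity)] at h2
        linarith
      · exact ⟨1, one_pos, fun e _ _ hc => absurd hc hz⟩
    have hK : 1 < 16 * L n * 2^n := by
      have h1 := (hL n).L1
      have h2 : (1:ℝ) ≤ 2^n := one_le_pow₀ (by norm_num)
      nlinarith
    obtain ⟨e, he0, he1, he2⟩ := plateau_of_not_dini hω hD hK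
      (τ := min (min (1/4) ((1/2)^n / L n)) (min τ₁ (min τ₂ τ₃))) (by positivity)
    have k1 : e < 1/4 := lt_of_lt_of_le he1 ((min_le_left _ _).trans (min_le_left _ _))
    have k2 : e < (1/2)^n / L n := lt_of_lt_of_le he1 ((min_le_left _ _).trans (min_le_right _ _))
    have k3 : e < τ₁ := lt_of_lt_of_le he1 ((min_le_right _ _).trans (min_le_left _ _))
    have k4 : e < τ₂ := lt_of_lt_of_le he1
      ((min_le_right _ _).trans ((min_le_right _ _).trans (min_le_left _ _)))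
    have k5 : e < τ₃ := lt_of_lt_of_le he1
      ((min_le_right _ _).trans ((min_le_right _ _).trans (min_le_right _ _)))
    refine ⟨e, ⟨he0, k1.le, ?_, he2, h₃ e he0 k5⟩, fun m hm => ⟨?_, ?_⟩⟩
    · rw [lt_div_iff₀ hLn] at k2
      linarith
    · have h4 := h₁ m hm
      have h5 : e < d m / ((16 * L m * 2^m) * (16 * L n * 2^n)) := lt_of_lt_of_le k3 h4
      have hLm := hLpos m
      rw [lt_div_iff₀ (by positivity)] at h5
      linarith
    · exact (hN m hm).trans (h₂ e he0 k4))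
  have hGD : GD ω Ca (fun n => (n:ℝ) + 1) g B L δ :=
    { mod := hω
      Ca1 := hCa1
      ad := hCa
      ld := hL
      δ0 := fun n => (hδP n).1
      δ1 := fun n => (hδP n).2.1
      Lδ := fun n => (hδP n).2.2.1
      plateau := fun n => (hδP n).2.2.2.1
      sep := fun m n hmn => (hδR m n hmn).1
      big := fun m n hmn => (hδR m n hmn).2 }
  refine ⟨FF ω g δ, TH B δ, Real.exp (-10) / 2, hGD.FFinB, ?_, hGD.fs.isInner, ?_, hGD.sfin, ?_⟩
  · intro hz
    refine ⟨34, fun z hz' => ?_⟩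
    exact hGD.bounded (fun n => (hδP n).2.2.2.2 hz) (by simpa using hz')
  · constructor
    · positivity
    · have : Real.exp (-10) ≤ 1 := Real.exp_le_one_iff.2 (by norm_num)
      linarith
  · exact hGD.not_inB (tendsto_atTop_add_const_right _ _ tendsto_natCast_atTop_atTop)

end Pool.Agent.Helper34.Bw
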