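import Pool.Agent.Helper34.Bw.DiniFail

set_option autoImplicit false

namespace Pool.Agent.Helper34.Bw

open Complex Metric Set Filter Topology MeasureTheory

variable {ω : ℝ → ℝ}

lemma power_of_halving (hω : IsModulus ω) {K : ℝ} (hK : 1 < K) {τ : ℝ} (hτ1 : τ ≤ 1/2)
    (h : ∀ d, 0 < d → d ≤ τ → 2 * ω (d / K) ≤ ω d) :
    ∃ γ > 0, ∀ s t, 0 < s → s ≤ t → t ≤ τ → ω s ≤ 2 * ω t * (s/t)^(γ:ℝ) := by
  have hK0 : 0 < K := by linarith
  have hlogK : 0 < Real.log K := Real.log_pos hK
  set γ : ℝ := Real.log 2 / Real.log K with hγ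
  have hγ0 : 0 < γ := div_pos (Real.log_pos (by norm_num)) hlogK
  have hKγ : K^γ = 2 := by
    rw [Real.rpow_def_of_pos hK0, hγ, mul_div_cancel₀ _ hlogK.ne', Real.exp_log (by norm_num)]
  refine ⟨γ, hγ0, ?_⟩
  intro s t hs hst ht
  have ht0 : 0 < t := by linarith
  obtain ⟨n, hn1, hn2⟩ := exists_nat_pow_near (x := t/s) (y := K)
    (by rw [le_div_iff₀ hs]; linarith) hK
  have hit : ∀ n : ℕ, ω (t / K^n) * 2^n ≤ ω t := by
    intro n
    induction n with
    | zero => simp
    | succ n ih =>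
      have hKn : 0 < K^n := by positivity
      have hKn1 : 1 ≤ K^n := one_le_pow₀ hK.le
      have h1 : t / K^n ≤ t := div_le_self ht0.le hKn1
      have h2 := h (t / K^n) (by positivity) (by linarith)
      have h3 : t / K^(n+1) = t / K^n / K := by rw [pow_succ, div_div]
      rw [h3, pow_succ]
      have h4 : (0:ℝ) < 2^n := by positivity
      nlinarith
  have h1 : s ≤ t / K^n := by
    rw [le_div_iff₀ (by positivity)]
    rw [le_div_iff₀ hs] at hn1
    linarith
  have h2 : ω s ≤ ω (t / K^n) := by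
    apply hω.mono' hs h1
    have : t / K^n ≤ t := div_le_self ht0.le (one_le_pow₀ hK.le)
    linarith
  have h3 : (t/s)^γ ≤ 2 * 2^n := by
    have h4 : (t/s)^γ ≤ (K^(n+1))^γ := Real.rpow_le_rpow (by positivity) hn2.le hγ0.le
    have h5 : ((K^(n+1) : ℝ))^γ = 2^(n+1) := by
      rw [← Real.rpow_natCast, ← Real.rpow_mul hK0.le, mul_comm, Real.rpow_mul hK0.le, hKγ,
        Real.rpow_natCast]
    rw [h5] at h4
    rw [← pow_succ']; exact h4
  have h6 : (s/t)^γ * (t/s)^γ = 1 := by
    rw [← Real.mul_rpow (by positivity) (by positivity)]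
    rw [show s/t * (t/s) = 1 by field_simp, Real.one_rpow]
  have h7 : 0 < (s/t)^γ := by positivity
  have h8 : 1 ≤ 2 * 2^n * (s/t)^γ := by
    rw [← h6]
    have := mul_le_mul_of_nonneg_left h3 h7.le
    linarith
  have h9 := hit n
  have h10 : 0 ≤ ω s := (hω.pos' hs (by linarith)).le
  calc ω s = ω s * 1 := by ring
    _ ≤ ω s * (2 * 2^n * (s/t)^γ) := mul_le_mul_of_nonneg_left h8 h10
    _ = 2 * (ω s * 2^n) * (s/t)^γ := by ring
    _ ≤ 2 * (ω (t / K^n) * 2^n) * (s/t)^γ := by
        apply mul_le_mul_of_nonneg_right _ h7.le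
        apply mul_le_mul_of_nonneg_left _ (by norm_num)
        exact mul_le_mul_of_nonneg_right h2 (by positivity)
    _ ≤ 2 * ω t * (s/t)^γ := by
        apply mul_le_mul_of_nonneg_right _ h7.le
        linarith

lemma power_of_dini (hω : IsModulus ω) (hD : DiniRegular ω) :
    ∃ γ > 0, ∀ s t, 0 < s → s ≤ t → t ≤ 1/2 → ω s ≤ 2 * ω t * (s/t)^(γ:ℝ) := by
  obtain ⟨C, hC⟩ := hD
  set C' := max C 1 with hC'
  have hC'1 : 1 ≤ C' := le_max_right _ _
  set K : ℝ := Real.exp (2 * C') with hK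
  have hK1 : 1 < K := by
    rw [hK, Real.one_lt_exp_iff]; linarith
  have hK0 : 0 < K := by linarith
  apply power_of_halving hω hK1 le_rfl
  intro d hd0 hd1
  obtain ⟨hI, hle⟩ := hC d hd0 hd1
  have hdK : 0 < d / K := by positivity
  have hdK' : d / K ≤ d := div_le_self hd0.le hK1.le
  have hωd := hω.pos' hd0 (by linarith)
  have h1 : ∫ s in Ioc (d/K) d, ω s / s ≤ ∫ s in Ioc 0 d, ω s / s := by
    apply setIntegral_mono_set hI
    · rw [EventuallyLE, ae_restrict_iff' measurableSet_Ioc]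
      filter_upwards with s hs
      exact div_nonneg (hω.pos' hs.1 (by linarith [hs.2])).le hs.1.le
    · exact (Ioc_subset_Ioc_left hdK.le).eventuallyLE
  have hint : IntegrableOn (fun s : ℝ => ω (d/K) * s⁻¹) (Ioc (d/K) d) := by
    apply IntegrableOn.mono_set (t := Icc (d/K) d) _ Ioc_subset_Icc_self
    apply ContinuousOn.integrableOn_Icc
    apply ContinuousOn.mul continuousOn_const
    apply ContinuousOn.inv₀ continuousOn_id
    intro s hs
    exact (lt_of_lt_of_le hdK hs.1).ne'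
  have h2 : ∫ s in Ioc (d/K) d, ω (d/K) * s⁻¹ ≤ ∫ s in Ioc (d/K) d, ω s / s := by
    apply setIntegral_mono_on hint (hI.mono_set (Ioc_subset_Ioc_left hdK.le)) measurableSet_Ioc
    intro s hs
    have hs0 : 0 < s := lt_trans hdK hs.1
    rw [div_eq_mul_inv]
    apply mul_le_mul_of_nonneg_right _ (inv_nonneg.2 hs0.le)
    exact hω.mono' hdK hs.1.le (by linarith [hs.2])
  have h3 : ∫ s in Ioc (d/K) d, ω (d/K) * s⁻¹ = ω (d/K) * (2 * C') := by
    rw [integral_const_mul, ← intervalIntegral.integral_of_le hdK', integral_inv_of_pos hdK hd0]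
    congr 1
    rw [show d / (d / K) = K by field_simp, hK, Real.log_exp]
  rw [h3] at h2
  have h4 : C * ω d ≤ C' * ω d := mul_le_mul_of_nonneg_right (le_max_left _ _) hωd.le
  have h5 : C' * (2 * ω (d/K)) ≤ C' * ω d := by linarith
  exact le_of_mul_le_mul_left h5 (by linarith)

/-- two-sided power control -/
def TwoSided (ω : ℝ → ℝ) : Prop :=
  ∃ γ C : ℝ, 0 < γ ∧ ∀ s t : ℝ, 0 < s → s ≤ t → t ≤ 1 / 2 →
    s / t * ω t ≤ C * ω s ∧ ω s ≤ C * (s / t) ^ γ * ω t

lemma twoSided_iff (hω : IsModulus ω) : (AlmostDecreasing ω ∧ DiniRegular ω) ↔ TwoSided ω := by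
  constructor
  · rintro ⟨⟨Ca, hCa⟩, hD⟩
    obtain ⟨γ, hγ, hp⟩ := power_of_dini hω hD
    refine ⟨γ, max Ca 2, hγ, fun s t hs hst ht => ⟨?_, ?_⟩⟩
    · have ht0 : 0 < t := by linarith
      have hωs := hω.pos' hs (by linarith)
      have h1 := hCa s t hs hst ht
      rw [← mul_div_assoc, div_le_div_iff₀ ht0 hs] at h1
      have h2 : s / t * ω t ≤ Ca * ω s := by
        rw [div_mul_eq_mul_div, div_le_iff₀ ht0]; linarith
      exact h2.trans (mul_le_mul_of_nonneg_right (le_max_left _ _) hωs.le)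
    · have ht0 : 0 < t := by linarith
      have hωt := hω.pos' ht0 (by linarith)
      have h1 := hp s t hs hst ht
      have h2 : 0 ≤ (s/t)^γ * ω t := by positivity
      calc ω s ≤ 2 * ((s/t)^γ * ω t) := by linarith
        _ ≤ max Ca 2 * ((s/t)^γ * ω t) := mul_le_mul_of_nonneg_right (le_max_right _ _) h2
        _ = _ := by ring
  · rintro ⟨γ, C, hγ, h⟩
    constructor
    · refine ⟨C, fun s t hs hst ht => ?_⟩
      have ht0 : 0 < t := by linarith
      have h1 := (h s t hs hst ht).1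
      rw [← mul_div_assoc, div_le_div_iff₀ ht0 hs]
      rw [div_mul_eq_mul_div, div_le_iff₀ ht0] at h1
      linarith
    · apply dini_of_power hω hγ (C := max 1 C) (τ := 1/2) (le_max_left _ _) (by norm_num) le_rfl
      intro s t hs hst ht
      have ht0 : 0 < t := by linarith
      have hωt := hω.pos' ht0 (by linarith)
      have h1 := (h s t hs hst ht).2
      have h2 : 0 ≤ (s/t)^γ * ω t := by positivity
      calc ω s ≤ C * ((s/t)^γ * ω t) := by linarith
        _ ≤ max 1 C * ((s/t)^γ * ω t) := mul_le_mul_of_nonneg_right (le_max_right _ _) h2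
        _ = _ := by ring

end Pool.Agent.Helper34.Bw
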