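import Pool.Agent.Helper34.Bw.Mob

set_option autoImplicit false

namespace Pool.Agent.Helper34.Bw

open Complex Metric Set Filter Topology MeasureTheory

/-- A sequence of factors, each analytic on the closed disc, unimodular on the circle, and
summably close to `1` away from the point `1`. -/
structure FS (β : ℕ → ℂ → ℂ) (c : ℕ → ℝ) : Prop where
  diff : ∀ k z, ‖z‖ ≤ 1 → DifferentiableAt ℂ (β k) z
  le_one : ∀ k z, ‖z‖ ≤ 1 → ‖β k z‖ ≤ 1
  eq_one : ∀ k z, ‖z‖ = 1 → ‖β k z‖ = 1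
  near : ∀ k z, ‖z‖ ≤ 1 → z ≠ 1 → ‖β k z - 1‖ ≤ c k / ‖1 - z‖
  nonneg : ∀ k, 0 ≤ c k
  summ : Summable c

/-- the infinite product -/
noncomputable def bprod (β : ℕ → ℂ → ℂ) (z : ℂ) : ℂ := ∏' k, β k z

variable {β : ℕ → ℂ → ℂ} {c : ℕ → ℝ}

lemma isCompact_Kr (r : ℝ) : IsCompact (closedBall (0:ℂ) 1 ∩ {z : ℂ | r ≤ ‖1 - z‖}) :=
  (isCompact_closedBall _ _).inter_right (isClosed_le continuous_const (by fun_prop))

lemma FS.unif (h : FS β c) {r : ℝ} (hr : 0 < r) :
    TendstoUniformlyOn (fun s : Finset ℕ => fun w => ∏ i ∈ s, β i w) (bprod β) atTop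
      (closedBall (0:ℂ) 1 ∩ {z : ℂ | r ≤ ‖1 - z‖}) := by
  have h1 := Summable.hasProdUniformlyOn_one_add (f := fun i z => β i z - 1) (isCompact_Kr r)
    (h.summ.div_const r) (Eventually.of_forall (fun i w hw => by
      have hw1 : ‖w‖ ≤ 1 := by simpa using hw.1
      have hw2 : r ≤ ‖1 - w‖ := hw.2
      have hne : w ≠ 1 := by
        rintro rfl
        rw [sub_self, norm_zero] at hw2
        linarith
      refine (h.near i w hw1 hne).trans ?_
      exact div_le_div_of_nonneg_left (h.nonneg i) hr hw2))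
    (fun i => by
      intro w hw
      have hw1 : ‖w‖ ≤ 1 := by simpa using hw.1
      exact ((h.diff i w hw1).continuousAt.sub continuousAt_const).continuousWithinAt)
  simp only [add_sub_cancel] at h1
  rw [hasProdUniformlyOn_iff_tendstoUniformlyOn] at h1
  exact h1

lemma ne_one_norm_pos {z : ℂ} (hz : z ≠ 1) : 0 < ‖1 - z‖ :=
  norm_pos_iff.2 (sub_ne_zero.2 (Ne.symm hz))

lemma FS.hasProd (h : FS β c) {z : ℂ} (hz : ‖z‖ ≤ 1) (hz1 : z ≠ 1) :
    HasProd (fun k => β k z) (bprod β z) := by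
  have h0 := ne_one_norm_pos hz1
  exact (h.unif h0).tendsto_at ⟨by simpa using hz, le_refl ‖1 - z‖⟩

lemma FS.continuousOn (h : FS β c) : ContinuousOn (bprod β) (closedBall 0 1 \ {1}) := by
  intro z hz
  have hz1 : z ≠ 1 := hz.2
  have h0 := ne_one_norm_pos hz1
  set r := ‖1 - z‖ / 2 with hr
  have hr0 : 0 < r := by rw [hr]; linarith
  have h1 : ContinuousOn (bprod β) (closedBall (0:ℂ) 1 ∩ {z : ℂ | r ≤ ‖1 - z‖}) := by
    apply (h.unif hr0).continuousOn
    apply (Eventually.of_forall _).frequently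
    intro s
    apply continuousOn_finsetProd
    intro i _ w hw
    have hw1 : ‖w‖ ≤ 1 := by simpa using hw.1
    exact (h.diff i w hw1).continuousAt.continuousWithinAt
  have h2 : ContinuousWithinAt (bprod β) (closedBall (0:ℂ) 1 ∩ {z : ℂ | r ≤ ‖1 - z‖}) z :=
    h1 z ⟨hz.1, by show r ≤ ‖1 - z‖; rw [hr]; linarith⟩
  have h3 : {z : ℂ | r ≤ ‖1 - z‖} ∈ 𝓝 z := by
    have : {w : ℂ | r < ‖1 - w‖} ∈ 𝓝 z :=
      (isOpen_lt continuous_const (by fun_prop)).mem_nhds (by show r < ‖1 - z‖; rw [hr]; linarith)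
    exact mem_of_superset this (fun w hw => le_of_lt (show r < ‖1 - w‖ from hw))
  have h4 : ContinuousWithinAt (bprod β) (closedBall (0:ℂ) 1) z :=
    (continuousWithinAt_inter h3).1 h2
  exact h4.mono sdiff_subset

lemma FS.differentiableOn (h : FS β c) : DifferentiableOn ℂ (bprod β) (ball 0 1) := by
  intro z hz
  rw [mem_ball_zero_iff] at hz
  obtain ⟨r, hzr, hr1⟩ := exists_between hz
  have hsub : ball (0:ℂ) r ⊆ closedBall (0:ℂ) 1 ∩ {z : ℂ | 1 - r ≤ ‖1 - z‖} := by
    intro w hw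
    rw [mem_ball_zero_iff] at hw
    refine ⟨by rw [mem_closedBall_zero_iff]; linarith, ?_⟩
    show 1 - r ≤ ‖1 - w‖
    have := norm_sub_norm_le (1:ℂ) w
    rw [norm_one] at this
    linarith
  have h2 : TendstoLocallyUniformlyOn (fun s : Finset ℕ => fun w => ∏ i ∈ s, β i w)
      (bprod β) atTop (ball 0 r) :=
    ((h.unif (show 0 < 1 - r by linarith)).mono hsub).tendstoLocallyUniformlyOn
  have h3 : DifferentiableOn ℂ (bprod β) (ball 0 r) := by
    apply h2.differentiableOn _ isOpen_ball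
    refine Eventually.of_forall (fun s => ?_)
    apply DifferentiableOn.fun_finsetProd
    intro i _ w hw
    exact (h.diff i w (by simpa using (hsub hw).1)).differentiableWithinAt
  exact (h3.differentiableAt (isOpen_ball.mem_nhds (by simpa using hzr))).differentiableWithinAt

lemma FS.norm_le_one (h : FS β c) {z : ℂ} (hz : ‖z‖ ≤ 1) (hz1 : z ≠ 1) : ‖bprod β z‖ ≤ 1 := by
  refine le_of_tendsto (h.hasProd hz hz1).norm ?_
  refine Eventually.of_forall (fun s => ?_)
  exact Finset.prod_le_one (fun _ _ => norm_nonneg _) (fun i _ => h.le_one i z hz)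

lemma FS.norm_eq_one (h : FS β c) {z : ℂ} (hz : ‖z‖ = 1) (hz1 : z ≠ 1) : ‖bprod β z‖ = 1 := by
  have h1 := (h.hasProd hz.le hz1).norm
  have h2 : (fun k => ‖β k z‖) = fun _ => (1:ℝ) := funext fun k => h.eq_one k z hz
  rw [h2] at h1
  exact h1.unique hasProd_one

lemma ae_exp_ne_one : ∀ᵐ θ : ℝ, exp (θ * I) ≠ 1 := by
  have : ({θ : ℝ | exp (θ * I) ≠ 1})ᶜ ⊆ range (fun n : ℤ => (n : ℝ) * (2 * Real.pi)) := by
    intro θ hθ
    simp only [mem_compl_iff, mem_ofPred_eq, not_not] at hθ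
    obtain ⟨n, hn⟩ := Complex.exp_eq_one_iff.1 hθ
    refine ⟨n, ?_⟩
    have h1 : (θ : ℂ) * I = ((n : ℝ) * (2 * Real.pi) : ℝ) * I := by
      rw [hn]; push_cast; ring
    have h2 := mul_right_cancel₀ I_ne_zero h1
    exact (Complex.ofReal_injective h2).symm
  exact (countable_range _).mono this |>.measure_zero _

lemma FS.isInner (h : FS β c) : IsInner (bprod β) := by
  refine ⟨h.differentiableOn, ⟨1, fun z hz => ?_⟩, ?_⟩
  · rw [mem_ball_zero_iff] at hz
    exact h.norm_le_one hz.le (by rintro rfl; simp at hz)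
  · filter_upwards [ae_exp_ne_one] with θ hθ
    refine ⟨bprod β (exp (θ * I)), h.norm_eq_one (Complex.norm_exp_ofReal_mul_I θ) hθ, ?_⟩
    have h1 : ContinuousWithinAt (bprod β) (closedBall 0 1 \ {1}) (exp (θ * I)) :=
      h.continuousOn _ ⟨by rw [mem_closedBall_zero_iff, Complex.norm_exp_ofReal_mul_I], hθ⟩
    have h2 : Tendsto (fun r : ℝ => (r : ℂ) * exp (θ * I)) (𝓝[<] 1)
        (𝓝[closedBall 0 1 \ {1}] (exp (θ * I))) := by
      rw [tendsto_nhdsWithin_iff]
      constructor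
      · have : Tendsto (fun r : ℝ => (r : ℂ) * exp (θ * I)) (𝓝 1) (𝓝 (((1:ℝ) : ℂ) * exp (θ * I))) :=
          (by fun_prop : Continuous fun r : ℝ => (r : ℂ) * exp (θ * I)).tendsto 1
        simp only [Complex.ofReal_one, one_mul] at this
        exact this.mono_left nhdsWithin_le_nhds
      · filter_upwards [Ioo_mem_nhdsLT (show (0:ℝ) < 1 by norm_num)] with r hr
        have hn : ‖(r : ℂ) * exp (θ * I)‖ = r := by
          rw [norm_mul, Complex.norm_exp_ofReal_mul_I, mul_one, Complex.norm_real, Real.norm_eq_abs,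
            abs_of_pos hr.1]
        refine ⟨by rw [mem_closedBall_zero_iff, hn]; exact hr.2.le, ?_⟩
        intro h1
        rw [mem_singleton_iff] at h1
        rw [h1, norm_one] at hn
        linarith [hr.2]
    exact h1.tendsto.comp h2

lemma FS.remove (h : FS β c) (k : ℕ) : FS (fun n z => if n = k then 1 else β n z) c := by
  refine ⟨?_, ?_, ?_, ?_, h.nonneg, h.summ⟩
  · intro n z hz
    by_cases hn : n = k
    · simp only [hn, if_true]; exact differentiableAt_const _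
    · simp only [hn, if_false]; exact h.diff n z hz
  · intro n z hz
    by_cases hn : n = k
    · simp [hn]
    · simp only [hn, if_false]; exact h.le_one n z hz
  · intro n z hz
    by_cases hn : n = k
    · simp [hn]
    · simp only [hn, if_false]; exact h.eq_one n z hz
  · intro n z hz hz1
    by_cases hn : n = k
    · simp only [hn, if_true, sub_self, norm_zero]
      exact div_nonneg (h.nonneg _) (norm_nonneg _)
    · simp only [hn, if_false]; exact h.near n z hz hz1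

lemma FS.split (h : FS β c) (k : ℕ) {z : ℂ} (hz : ‖z‖ ≤ 1) (hz1 : z ≠ 1) :
    bprod β z = β k z * bprod (fun n z => if n = k then 1 else β n z) z := by
  unfold bprod
  exact Multipliable.tprod_eq_mul_tprod_ite' (f := fun n => β n z) k (by
    have := ((h.remove k).hasProd hz hz1).multipliable
    refine this.congr (fun n => ?_)
    by_cases hn : n = k
    · subst hn; simp
    · simp [hn])

lemma one_sub_sum_le_prod {x : ℕ → ℝ} (h0 : ∀ i, 0 ≤ x i) (h1 : ∀ i, x i ≤ 1) (s : Finset ℕ) :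
    1 - ∑ i ∈ s, x i ≤ ∏ i ∈ s, (1 - x i) := by
  classical
  induction s using Finset.induction_on with
  | empty => simp
  | insert i s hi ih =>
    rw [Finset.sum_insert hi, Finset.prod_insert hi]
    have h2 : 0 ≤ ∑ i ∈ s, x i := Finset.sum_nonneg (fun i _ => h0 i)
    have h3 : 0 ≤ 1 - x i := by linarith [h1 i]
    have h4 := mul_le_mul_of_nonneg_left ih h3
    nlinarith [h0 i]

lemma FS.lower (h : FS β c) {z : ℂ} (hz : ‖z‖ ≤ 1) (hz1 : z ≠ 1) {x : ℕ → ℝ} {S : ℝ}
    (h0 : ∀ i, 0 ≤ x i) (h1 : ∀ i, x i ≤ 1) (hS : HasSum x S) (hg : ∀ i, 1 - x i ≤ ‖β i z‖) :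
    1 - S ≤ ‖bprod β z‖ := by
  refine ge_of_tendsto (h.hasProd hz hz1).norm ?_
  refine Eventually.of_forall (fun s => ?_)
  have h2 : ∑ i ∈ s, x i ≤ S := sum_le_hasSum s (fun i _ => h0 i) hS
  have h3 : ∏ i ∈ s, (1 - x i) ≤ ∏ i ∈ s, ‖β i z‖ :=
    Finset.prod_le_prod (fun i _ => by linarith [h1 i]) (fun i _ => hg i)
  linarith [one_sub_sum_le_prod h0 h1 s]

/-- lower bound with one exceptional factor -/
lemma FS.lower' (h : FS β c) {z : ℂ} (hz : ‖z‖ ≤ 1) (hz1 : z ≠ 1) {x : ℕ → ℝ} {S q : ℝ}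
    (h0 : ∀ i, 0 ≤ x i) (h1 : ∀ i, x i ≤ 1) (hS : HasSum x S) (k : ℕ)
    (hg : ∀ i, i ≠ k → 1 - x i ≤ ‖β i z‖) (hS1 : S ≤ 1) (hq : q ≤ ‖β k z‖) :
    q * (1 - S) ≤ ‖bprod β z‖ := by
  rw [h.split k hz hz1, norm_mul]
  have := (h.remove k).lower hz hz1 h0 h1 hS (by
    intro i
    by_cases hi : i = k
    · simp only [hi, if_true, norm_one]; linarith [h0 k]
    · simp only [hi, if_false]; exact hg i hi)
  exact mul_le_mul hq this (by linarith) (norm_nonneg _)

end Pool.Agent.Helper34.Bw
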