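import Pool.Agent.Helper34.Bw.InnerEst

set_option autoImplicit false

namespace Pool.Agent.Helper34.Bw

open Complex Metric Set Filter Topology MeasureTheory

lemma norm_exp_sub_le {w : ℂ} (hw : w.re ≤ 0) {τ : ℝ} (hτ : 0 ≤ τ) :
    ‖exp w - exp ((-τ : ℝ) : ℂ)‖ ≤ ‖w - ((-τ : ℝ) : ℂ)‖ := by
  have hconv : Convex ℝ {z : ℂ | z.re ≤ 0} := convex_halfSpace_re_le 0
  have := hconv.norm_image_sub_le_of_norm_deriv_le (𝕜 := ℂ) (f := fun z : ℂ => exp z) (C := 1)
    (x := ((-τ : ℝ) : ℂ)) (y := w) (fun z _ => Complex.differentiable_exp.differentiableAt)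
    (fun z hz => by
      rw [Complex.deriv_exp, Complex.norm_exp]
      exact Real.exp_le_one_iff.2 hz) (by simpa using hτ) hw
  simpa using this

/-- Derivative of an inner function at a point at distance `d` from the level set. -/
lemma inner_deriv {Θ : ℂ → ℂ} (h : IsInner Θ) {ε : ℝ} (hε0 : 0 < ε) (hε1 : ε ≤ 1) {z : ℂ}
    (hz : 1 / 2 ≤ ‖z‖) (hz1 : ‖z‖ < 1) {d : ℝ} (hd : 0 < d)
    (hlow : ∀ w : ℂ, ‖w‖ < 1 → ‖w - z‖ < d → ε ≤ ‖Θ w‖) :
    (1 - ‖z‖) * ‖deriv Θ z‖ ≤ (6 + 24 * Real.log (1 / ε)) * ((1 - ‖z‖) / d) := by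
  have hlam0 : 0 ≤ Real.log (1 / ε) := Real.log_nonneg (by rw [le_div_iff₀ hε0]; linarith)
  have hsp := schwarz_pick h.1 (fun w hw => h.norm_le_one (by simpa using hw)) hz1
  have hz0 : 0 < ‖z‖ := by linarith
  set τ : ℝ := -Real.log ‖z‖ with hτ
  have hτ0 : 0 < τ := by
    rw [hτ]; have := Real.log_neg hz0 hz1; linarith
  have hexpτ : Real.exp (-τ) = ‖z‖ := by rw [hτ, neg_neg, Real.exp_log hz0]
  have hτle : τ ≤ 2 * (1 - ‖z‖) := by
    have h1 := Real.one_sub_inv_le_log_of_pos hz0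
    have h2 : ‖z‖⁻¹ - 1 ≤ 2 * (1 - ‖z‖) := by
      rw [inv_eq_one_div, div_sub_one hz0.ne', div_le_iff₀ hz0]
      nlinarith
    rw [hτ]; linarith
  have ht : 0 < 1 - ‖z‖ := by linarith
  have hle : (1 - ‖z‖) * ‖deriv Θ z‖ ≤ (1 - ‖z‖^2) * ‖deriv Θ z‖ := by
    apply mul_le_mul_of_nonneg_right _ (norm_nonneg _)
    nlinarith
  have htd : 0 ≤ (1 - ‖z‖) / d := by positivity
  by_cases hcase : τ < d / 3
  · set θ₀ := Complex.arg z with hθ
    have hzeq : exp ((-τ : ℝ) : ℂ) * exp (θ₀ * I) = z := by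
      rw [← Complex.ofReal_exp, hexpτ, hθ, Complex.norm_mul_exp_arg_mul_I]
    have hkey := inner_key h hε0 hε1 (θ₀ := θ₀) (a := d / 3) hτ0 hcase (by
      intro w h1 h2 h3
      apply hlow
      · have := exp_mul_mem h2 (Complex.norm_exp_ofReal_mul_I θ₀)
        simpa using this
      · have h4 : exp w * exp (θ₀ * I) - z = (exp w - exp ((-τ : ℝ) : ℂ)) * exp (θ₀ * I) := by
          rw [sub_mul, hzeq]
        rw [h4, norm_mul, Complex.norm_exp_ofReal_mul_I, mul_one]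
        refine (norm_exp_sub_le h2.le hτ0.le).trans_lt ?_
        refine (Complex.norm_le_abs_re_add_abs_im _).trans_lt ?_
        have h5 : |(w - ((-τ : ℝ) : ℂ)).re| ≤ d / 3 := by
          simp only [Complex.sub_re, Complex.ofReal_re]
          rw [abs_le]
          constructor <;> linarith
        have h6 : |(w - ((-τ : ℝ) : ℂ)).im| ≤ d / 3 := by
          simpa using h3
        linarith)
    rw [hzeq] at hkey
    have h1 := Real.add_one_le_exp (-(2 * Real.log (1 / ε)) * (τ / (d / 3 + τ)))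
    have h2 : τ / (d / 3 + τ) ≤ τ / (d / 3) := by
      apply div_le_div_of_nonneg_left hτ0.le (by positivity) (by linarith)
    have h3 : 1 - ‖Θ z‖ ≤ (2 * Real.log (1 / ε)) * (τ / (d / 3)) := by
      have : (2 * Real.log (1 / ε)) * (τ / (d / 3 + τ)) ≤ (2 * Real.log (1 / ε)) * (τ / (d / 3)) :=
        mul_le_mul_of_nonneg_left h2 (by positivity)
      linarith
    have h4 : 1 - ‖Θ z‖^2 ≤ 2 * (1 - ‖Θ z‖) := by nlinarith [sq_nonneg (1 - ‖Θ z‖)]
    have h5 : τ / (d / 3) ≤ 6 * ((1 - ‖z‖) / d) := by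
      rw [div_div_eq_mul_div, mul_div_assoc', div_le_div_iff_of_pos_right hd]
      linarith
    have h6 : (2 * Real.log (1 / ε)) * (τ / (d / 3)) ≤
        (2 * Real.log (1 / ε)) * (6 * ((1 - ‖z‖) / d)) :=
      mul_le_mul_of_nonneg_left h5 (by positivity)
    nlinarith
  · push Not at hcase
    have h1 : (1 - ‖z‖) / d ≥ 1 / 6 := by
      rw [ge_iff_le, div_le_div_iff₀ (by norm_num) hd]
      linarith
    have h2 : 1 - ‖Θ z‖^2 ≤ 1 := by nlinarith [norm_nonneg (Θ z)]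
    nlinarith [mul_nonneg hlam0 htd]

section suff

variable {ω : ℝ → ℝ} (hω : IsModulus ω)

include hω

lemma IsModulus.mono' {s t : ℝ} (hs : 0 < s) (hst : s ≤ t) (ht : t < 1) : ω s ≤ ω t :=
  hω.monotoneOn ⟨hs, lt_of_le_of_lt hst ht⟩ ⟨lt_of_lt_of_le hs hst, ht⟩ hst

lemma IsModulus.pos' {s : ℝ} (hs : 0 < s) (hs1 : s < 1) : 0 < ω s := hω.pos s ⟨hs, hs1⟩

/-- radial increments -/
lemma radial_le {f : ℂ → ℂ} (hf : DifferentiableOn ℂ f (ball 0 1)) {C₁ r₀ Cb : ℝ} (hC₁ : 0 ≤ C₁)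
    (hfb : ∀ z : ℂ, r₀ < ‖z‖ → ‖z‖ < 1 → ‖deriv f z‖ * (1 - ‖z‖) ≤ C₁ * ω (1 - ‖z‖))
    (hb : ∀ t : ℝ, 0 < t → t ≤ 1 / 2 →
      IntegrableOn (fun s => ω s / s) (Set.Ioc 0 t) ∧ ∫ s in Set.Ioc 0 t, ω s / s ≤ Cb * ω t)
    {ζ : ℂ} (hζ : ‖ζ‖ = 1) {r r' : ℝ} (hr0 : r₀ < r) (hr : 1 / 2 ≤ r) (hrr' : r ≤ r')
    (hr'1 : r' < 1) : ‖f (r' * ζ) - f (r * ζ)‖ ≤ C₁ * Cb * ω (1 - r) := by
  have hmem : ∀ x ∈ Icc r r', ‖(x : ℂ) * ζ‖ = x := by
    intro x hx
    rw [norm_mul, hζ, mul_one, Complex.norm_real, Real.norm_eq_abs, abs_of_pos (by linarith [hx.1])]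
  have hderiv : ∀ x ∈ uIcc r r', HasDerivAt (fun x : ℝ => f (x * ζ)) (deriv f (x * ζ) * ζ) x := by
    intro x hx
    rw [uIcc_of_le hrr'] at hx
    have h1 : DifferentiableAt ℂ f (x * ζ) := hf.differentiableAt (isOpen_ball.mem_nhds (by
      rw [mem_ball_zero_iff, hmem x hx]; linarith [hx.2]))
    have h2 : HasDerivAt (fun x : ℝ => (x : ℂ) * ζ) ζ x := by
      simpa using (Complex.ofRealCLM.hasDerivAt (x := x)).mul_const ζ
    exact h1.hasDerivAt.comp_of_eq x h2 rfl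
  have hcont : ContinuousOn (fun x : ℝ => deriv f (x * ζ) * ζ) (uIcc r r') := by
    intro x hx
    rw [uIcc_of_le hrr'] at hx
    have h1 : DifferentiableAt ℂ (deriv f) (x * ζ) :=
      (hf.deriv isOpen_ball).differentiableAt (isOpen_ball.mem_nhds (by
      rw [mem_ball_zero_iff, hmem x hx]; linarith [hx.2]))
    have h2 : ContinuousAt (fun x : ℝ => deriv f (x * ζ)) x :=
      h1.continuousAt.comp (f := fun x : ℝ => (x : ℂ) * ζ) (by fun_prop)
    exact (h2.mul continuousAt_const).continuousWithinAt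
  have hFTC := intervalIntegral.integral_eq_sub_of_hasDerivAt hderiv hcont.intervalIntegrable
  rw [← hFTC]
  have hint1 : IntervalIntegrable (fun s => ω s / s) volume (1 - r') (1 - r) := by
    rw [intervalIntegrable_iff_integrableOn_Ioc_of_le (by linarith)]
    exact (hb (1 - r) (by linarith) (by linarith)).1.mono_set
      (Ioc_subset_Ioc_left (by linarith))
  have hint2 : IntervalIntegrable (fun x => ω (1 - x) / (1 - x)) volume r r' := by
    have := hint1.comp_sub_left 1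
    simpa using this.symm
  have h1 : ‖∫ x in r..r', deriv f (x * ζ) * ζ‖ ≤ ∫ x in r..r', C₁ * (ω (1 - x) / (1 - x)) := by
    apply intervalIntegral.norm_integral_le_of_norm_le hrr' _ (hint2.const_mul _)
    apply Eventually.of_forall
    intro x hx
    have hx' : x ∈ Icc r r' := ⟨hx.1.le, hx.2⟩
    have h3 := hmem x hx'
    have h4 := hfb (x * ζ) (by rw [h3]; linarith [hx.1]) (by rw [h3]; linarith [hx.2])
    rw [h3] at h4
    have h5 : 0 < 1 - x := by linarith [hx.2]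
    rw [norm_mul, hζ, mul_one, mul_div_assoc', le_div_iff₀ h5]
    exact h4
  refine h1.trans ?_
  rw [intervalIntegral.integral_const_mul, mul_assoc]
  apply mul_le_mul_of_nonneg_left _ hC₁
  have h2 : ∫ x in r..r', ω (1 - x) / (1 - x) = ∫ s in (1 - r')..(1 - r), ω s / s :=
    intervalIntegral.integral_comp_sub_left (fun s => ω s / s) 1
  rw [h2, intervalIntegral.integral_of_le (by linarith)]
  refine le_trans ?_ (hb (1 - r) (by linarith) (by linarith)).2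
  apply setIntegral_mono_set (hb (1 - r) (by linarith) (by linarith)).1
  · rw [Filter.EventuallyLE, ae_restrict_iff' measurableSet_Ioc]
    apply Eventually.of_forall
    intro s hs
    exact div_nonneg (hω.pos' hs.1 (by linarith [hs.2])).le hs.1.le
  · exact (Ioc_subset_Ioc_left (by linarith)).eventuallyLE

/-- increments between two points at comparable distance to the boundary -/
lemma diff_le {f : ℂ → ℂ} (hf : DifferentiableOn ℂ f (ball 0 1)) {C₁ r₀ Cb Ca : ℝ} (hC₁ : 0 ≤ C₁)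
    (hfb : ∀ z : ℂ, r₀ < ‖z‖ → ‖z‖ < 1 → ‖deriv f z‖ * (1 - ‖z‖) ≤ C₁ * ω (1 - ‖z‖))
    (hb : ∀ t : ℝ, 0 < t → t ≤ 1 / 2 →
      IntegrableOn (fun s => ω s / s) (Set.Ioc 0 t) ∧ ∫ s in Set.Ioc 0 t, ω s / s ≤ Cb * ω t)
    (ha : ∀ s t : ℝ, 0 < s → s ≤ t → t ≤ 1 / 2 → ω t / t ≤ Ca * (ω s / s))
    {z w : ℂ} {R : ℝ} (hR0 : 0 < R) (hR1 : 4 * R ≤ 1 / 2) (hR2 : r₀ < 1 - 4 * R)
    (hz1 : ‖z‖ < 1) (hw1 : ‖w‖ < 1) (hz : 1 - ‖z‖ ≤ R) (hw : 1 - ‖w‖ ≤ R) (hzw : ‖z - w‖ ≤ R) :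
    ‖f z - f w‖ ≤ C₁ * (2 * Cb + 3 * Ca) * ω R := by
  have hz0 : 0 < ‖z‖ := by linarith
  have hw0 : 0 < ‖w‖ := by linarith
  set ζ : ℂ := z / ‖z‖ with hζ
  set ξ : ℂ := w / ‖w‖ with hξ
  have hζ1 : ‖ζ‖ = 1 := by
    rw [hζ, norm_div, Complex.norm_real, norm_norm, div_self hz0.ne']
  have hξ1 : ‖ξ‖ = 1 := by
    rw [hξ, norm_div, Complex.norm_real, norm_norm, div_self hw0.ne']
  have hzζ : (‖z‖ : ℂ) * ζ = z := by
    rw [hζ, mul_div_assoc', mul_div_cancel_left₀ _ (by exact_mod_cast hz0.ne')]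
  have hwξ : (‖w‖ : ℂ) * ξ = w := by
    rw [hξ, mul_div_assoc', mul_div_cancel_left₀ _ (by exact_mod_cast hw0.ne')]
  have e1 := radial_le hω hf hC₁ hfb hb hζ1 (r := 1 - R) (r' := ‖z‖) (by linarith) (by linarith)
    (by linarith) hz1
  have e2 := radial_le hω hf hC₁ hfb hb hξ1 (r := 1 - R) (r' := ‖w‖) (by linarith) (by linarith)
    (by linarith) hw1
  rw [hzζ] at e1
  rw [hwξ] at e2
  rw [show 1 - (1 - R) = R by ring] at e1 e2
  set z' : ℂ := ((1 - R : ℝ) : ℂ) * ζ with hz'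
  set w' : ℂ := ((1 - R : ℝ) : ℂ) * ξ with hw'
  have hnz' : ‖z'‖ = 1 - R := by
    rw [hz', norm_mul, hζ1, mul_one, Complex.norm_real, Real.norm_eq_abs, abs_of_pos (by linarith)]
  have hnw' : ‖w'‖ = 1 - R := by
    rw [hw', norm_mul, hξ1, mul_one, Complex.norm_real, Real.norm_eq_abs, abs_of_pos (by linarith)]
  have hζξ : ‖ζ - ξ‖ ≤ 3 * R := by
    have h1 : ‖ζ - z‖ ≤ R := by
      have : ζ - z = ((1 - ‖z‖ : ℝ) : ℂ) * ζ := by
        conv_lhs => rw [← hzζ]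
        push_cast; ring
      rw [this, norm_mul, hζ1, mul_one, Complex.norm_real, Real.norm_eq_abs, abs_of_pos (by linarith)]
      exact hz
    have h2 : ‖w - ξ‖ ≤ R := by
      have : w - ξ = -(((1 - ‖w‖ : ℝ) : ℂ) * ξ) := by
        conv_lhs => rw [← hwξ]
        push_cast; ring
      rw [this, norm_neg, norm_mul, hξ1, mul_one, Complex.norm_real, Real.norm_eq_abs,
        abs_of_pos (by linarith)]
      exact hw
    calc ‖ζ - ξ‖ = ‖(ζ - z) + (z - w) + (w - ξ)‖ := by congr 1; ring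
      _ ≤ ‖ζ - z‖ + ‖z - w‖ + ‖w - ξ‖ := norm_add₃_le
      _ ≤ 3 * R := by linarith
  have hzw' : ‖z' - w'‖ ≤ 3 * R := by
    rw [hz', hw', ← mul_sub, norm_mul, Complex.norm_real, Real.norm_eq_abs, abs_of_pos (by linarith)]
    nlinarith [norm_nonneg (ζ - ξ)]
  have e3 : ‖f z' - f w'‖ ≤ C₁ * (Ca * (ω R / R)) * ‖z' - w'‖ := by
    have hconv : Convex ℝ (closedBall (0:ℂ) (1 - R) ∩ closedBall w' (3 * R)) :=
      (convex_closedBall _ _).inter (convex_closedBall _ _)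
    apply hconv.norm_image_sub_le_of_norm_deriv_le (𝕜 := ℂ)
    · intro x hx
      apply hf.differentiableAt (isOpen_ball.mem_nhds _)
      rw [mem_ball_zero_iff]
      have := hx.1
      rw [mem_closedBall_zero_iff] at this
      linarith
    · intro x hx
      have h1 : ‖x‖ ≤ 1 - R := by simpa using hx.1
      have h2 : ‖x - w'‖ ≤ 3 * R := by simpa [dist_eq_norm] using hx.2
      have h3 : 1 - 4 * R ≤ ‖x‖ := by
        have := norm_sub_norm_le w' x
        rw [norm_sub_rev, hnw'] at this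
        linarith
      have h4 := hfb x (by linarith) (by linarith)
      have h5 : 0 < 1 - ‖x‖ := by linarith
      have h6 := ha R (1 - ‖x‖) hR0 (by linarith) (by linarith)
      calc ‖deriv f x‖ ≤ C₁ * ω (1 - ‖x‖) / (1 - ‖x‖) := by rw [le_div_iff₀ h5]; exact h4
        _ = C₁ * (ω (1 - ‖x‖) / (1 - ‖x‖)) := by ring
        _ ≤ C₁ * (Ca * (ω R / R)) := mul_le_mul_of_nonneg_left h6 hC₁
    · refine ⟨by rw [mem_closedBall_zero_iff, hnw'], ?_⟩
      rw [mem_closedBall, dist_self]; positivity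
    · refine ⟨by rw [mem_closedBall_zero_iff, hnz'], ?_⟩
      rw [mem_closedBall, dist_eq_norm]; exact hzw'
  have hωR : 0 < ω R := hω.pos' hR0 (by linarith)
  have hCa : 0 < Ca := by
    have := ha R R hR0 le_rfl (by linarith)
    have h1 : 0 < ω R / R := by positivity
    by_contra hneg
    push Not at hneg
    nlinarith
  have e4 : C₁ * (Ca * (ω R / R)) * ‖z' - w'‖ ≤ 3 * C₁ * Ca * ω R := by
    have h1 : C₁ * (Ca * (ω R / R)) * ‖z' - w'‖ ≤ C₁ * (Ca * (ω R / R)) * (3 * R) := by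
      apply mul_le_mul_of_nonneg_left hzw'; positivity
    refine h1.trans (le_of_eq ?_)
    field_simp
  calc ‖f z - f w‖ = ‖(f z - f z') + (f z' - f w') - (f w - f w')‖ := by congr 1; ring
    _ ≤ ‖f z - f z'‖ + ‖f z' - f w'‖ + ‖f w - f w'‖ :=
        (norm_sub_le _ _).trans (add_le_add_left (norm_add_le _ _) _)
    _ ≤ C₁ * (2 * Cb + 3 * Ca) * ω R := by linarith

end suff

end Pool.Agent.Helper34.Bw
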