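import Pool.Agent.Helper34.Bw.Suff

set_option autoImplicit false

namespace Pool.Agent.Helper34.Bw

open Complex Metric Set Filter Topology MeasureTheory

/-- normal form of membership in `B_ω` -/
lemma InB.normal {ω : ℝ → ℝ} (hω : IsModulus ω) {f : ℂ → ℂ} (hf : InB ω f) :
    ∃ C₁ r₀ : ℝ, 0 ≤ C₁ ∧ 1 / 2 ≤ r₀ ∧ r₀ < 1 ∧
      ∀ z : ℂ, r₀ < ‖z‖ → ‖z‖ < 1 → ‖deriv f z‖ * (1 - ‖z‖) ≤ C₁ * ω (1 - ‖z‖) := by
  obtain ⟨_, C, r, hr, h⟩ := hf
  refine ⟨|C|, max r (1 / 2), abs_nonneg _, le_max_right _ _, max_lt hr (by norm_num), ?_⟩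
  intro z hz hz1
  refine (h z (lt_of_le_of_lt (le_max_left _ _) hz) hz1).trans ?_
  have h2 : 1 / 2 < ‖z‖ := lt_of_le_of_lt (le_max_right _ _) hz
  exact mul_le_mul_of_nonneg_right (le_abs_self C) (hω.pos' (by linarith) (by linarith)).le

/-- a function analytic in the disc is bounded on smaller discs -/
lemma bdd_closedBall {f : ℂ → ℂ} (hf : DifferentiableOn ℂ f (ball 0 1)) {r : ℝ} (hr : r < 1) :
    ∃ M : ℝ, 0 ≤ M ∧ ∀ z : ℂ, ‖z‖ ≤ r → ‖f z‖ ≤ M := by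
  obtain ⟨M, hM⟩ := (isCompact_closedBall (0:ℂ) r).exists_bound_of_continuousOn
    (hf.continuousOn.mono (closedBall_subset_ball hr))
  refine ⟨|M|, abs_nonneg _, fun z hz => (hM z (by simpa using hz)).trans (le_abs_self M)⟩

lemma polar {z : ℂ} (hz : 0 < ‖z‖) : ∃ ζ : ℂ, ‖ζ‖ = 1 ∧ (‖z‖ : ℂ) * ζ = z := by
  refine ⟨z / ‖z‖, ?_, ?_⟩
  · rw [norm_div, Complex.norm_real, norm_norm, div_self hz.ne']
  · rw [mul_div_assoc', mul_div_cancel_left₀ _ (by exact_mod_cast hz.ne')]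

lemma bdd_of_dini {ω : ℝ → ℝ} (hω : IsModulus ω) (hb : DiniRegular ω) {f : ℂ → ℂ}
    (hf : InB ω f) : ∃ M : ℝ, 0 ≤ M ∧ ∀ z : ℂ, ‖z‖ < 1 → ‖f z‖ ≤ M := by
  obtain ⟨Cb, hb⟩ := hb
  obtain ⟨C₁, r₀, hC₁, hr₀, hr₀1, hfb⟩ := hf.normal hω
  set r : ℝ := (r₀ + 1) / 2 with hr
  obtain ⟨M, hM0, hM⟩ := bdd_closedBall hf.1 (r := r) (by linarith)
  refine ⟨M + |C₁ * Cb * ω (1 - r)|, by positivity, ?_⟩
  intro z hz
  by_cases h : ‖z‖ ≤ r
  · exact (hM z h).trans (by linarith [abs_nonneg (C₁ * Cb * ω (1 - r))])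
  · push Not at h
    obtain ⟨ζ, hζ1, hζ⟩ := polar (z := z) (by linarith)
    have h1 := radial_le hω hf.1 hC₁ hfb hb hζ1 (r := r) (r' := ‖z‖) (by linarith) (by linarith) h.le hz
    rw [hζ] at h1
    have h2 : ‖f (r * ζ)‖ ≤ M := hM _ (by
      rw [norm_mul, hζ1, mul_one, Complex.norm_real, Real.norm_eq_abs, abs_of_pos (by linarith)])
    calc ‖f z‖ = ‖f (r * ζ) + (f z - f (r * ζ))‖ := by congr 1; ring
      _ ≤ ‖f (r * ζ)‖ + ‖f z - f (r * ζ)‖ := norm_add_le _ _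
      _ ≤ _ := by linarith [le_abs_self (C₁ * Cb * ω (1 - r))]

/-- (i) ⟹ (iii) under Dini regularity. -/
theorem suff_i_iii {ω : ℝ → ℝ} (hω : IsModulus ω) (hbb : DiniRegular ω) {f Θ : ℂ → ℂ}
    (hf : InB ω f) (hΘ : IsInner Θ) (hfΘ : InB ω (fun z => f z * Θ z)) {ε : ℝ} (hε : ε < 1) :
    SFinite ω f Θ ε := by
  obtain ⟨M, hM0, hM⟩ := bdd_of_dini hω hbb hf
  obtain ⟨Cb, hb⟩ := hbb
  obtain ⟨C₁, r₁, hC₁, hr₁, hr₁1, hfb⟩ := hf.normal hω
  obtain ⟨C₂, r₂, hC₂, hr₂, hr₂1, hgb⟩ := hfΘ.normal hω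
  set r₀ := max r₁ r₂ with hr₀
  have hr₀1 : r₀ < 1 := max_lt hr₁1 hr₂1
  have hr₀h : 1 / 2 ≤ r₀ := hr₁.trans (le_max_left _ _)
  set r : ℝ := (r₀ + 1) / 2 with hr
  set K : ℝ := (C₁ + C₂) * Cb / (1 - ε) with hK
  refine ⟨max (M / ω (1 - r)) K, ?_⟩
  intro z hz0 hz1 hzε
  have hzpos : 0 < ‖z‖ := norm_pos_iff.2 hz0
  have hωz : 0 < ω (1 - ‖z‖) := hω.pos' (by linarith) (by linarith)
  by_cases hzr : ‖z‖ ≤ r
  · refine le_trans ?_ (le_max_left _ _)
    have h1 : ω (1 - r) ≤ ω (1 - ‖z‖) := hω.mono' (by linarith) (by linarith) (by linarith)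
    have h2 : 0 < ω (1 - r) := hω.pos' (by linarith) (by linarith)
    exact div_le_div₀ hM0 (hM z hz1) h2 h1
  · push Not at hzr
    refine le_trans ?_ (le_max_right _ _)
    rw [div_le_iff₀ hωz, hK, div_mul_eq_mul_div, le_div_iff₀ (by linarith)]
    -- the estimate for good θ
    set ρ := ‖z‖ with hρ
    set θ₀ := Complex.arg z with hθ₀
    have hzeq : (ρ : ℂ) * exp (θ₀ * I) = z := Complex.norm_mul_exp_arg_mul_I z
    have hmem : ∀ x ∈ Ico (0:ℝ) 1, ∀ θ : ℝ, (x : ℂ) * exp (θ * I) ∈ ball (0:ℂ) 1 := by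
      intro x hx θ
      rw [mem_ball_zero_iff, norm_mul, Complex.norm_exp_ofReal_mul_I, mul_one, Complex.norm_real,
        Real.norm_eq_abs, abs_of_nonneg hx.1]
      exact hx.2
    have hcf : Continuous fun θ : ℝ => ‖f (ρ * exp (θ * I))‖ := by
      rw [continuous_iff_continuousAt]
      intro θ
      have h1 : ContinuousAt f (ρ * exp (θ * I)) := (hf.1.differentiableAt
        (isOpen_ball.mem_nhds (hmem ρ ⟨hzpos.le, hz1⟩ θ))).continuousAt
      exact (h1.comp (f := fun θ : ℝ => (ρ : ℂ) * exp (θ * I)) (by fun_prop)).norm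
    have hcΘ : Continuous fun θ : ℝ => ‖Θ (ρ * exp (θ * I))‖ := by
      rw [continuous_iff_continuousAt]
      intro θ
      have h1 : ContinuousAt Θ (ρ * exp (θ * I)) := (hΘ.1.differentiableAt
        (isOpen_ball.mem_nhds (hmem ρ ⟨hzpos.le, hz1⟩ θ))).continuousAt
      exact (h1.comp (f := fun θ : ℝ => (ρ : ℂ) * exp (θ * I)) (by fun_prop)).norm
    have hgood : ∀ θ : ℝ, (∃ w : ℂ, ‖w‖ = 1 ∧
        Tendsto (fun r : ℝ => Θ (r * exp (θ * I))) (𝓝[<] 1) (𝓝 w)) →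
        ‖Θ (ρ * exp (θ * I))‖ < ε →
        ‖f (ρ * exp (θ * I))‖ * (1 - ε) ≤ (C₁ + C₂) * Cb * ω (1 - ρ) := by
      rintro θ ⟨w, hw, hlim⟩ hlt
      have hζ1 : ‖exp (θ * I)‖ = 1 := Complex.norm_exp_ofReal_mul_I θ
      have hstep : ∀ r' ∈ Ioo ρ 1, ‖f (ρ * exp (θ * I))‖ ≤ C₁ * Cb * ω (1 - ρ) +
          (C₂ * Cb * ω (1 - ρ) + ε * ‖f (ρ * exp (θ * I))‖) +
          M * (1 - ‖Θ (r' * exp (θ * I))‖) := by
        intro r' hr'
        have e1 := radial_le hω hf.1 hC₁ hfb hb hζ1 (r := ρ) (r' := r')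
          (by linarith [le_max_left r₁ r₂]) (by linarith) hr'.1.le hr'.2
        have e2 := radial_le hω hfΘ.1 hC₂ hgb hb hζ1 (r := ρ) (r' := r')
          (by linarith [le_max_right r₁ r₂]) (by linarith) hr'.1.le hr'.2
        set F0 := f (ρ * exp (θ * I))
        set F1 := f (r' * exp (θ * I)) with hF1
        set T0 := Θ (ρ * exp (θ * I))
        set T1 := Θ (r' * exp (θ * I)) with hT1
        have h1 : ‖F0‖ ≤ ‖F1‖ + C₁ * Cb * ω (1 - ρ) := by
          have := norm_sub_norm_le F0 F1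
          rw [norm_sub_rev] at this
          linarith
        have h2 : ‖F1‖ * ‖T1‖ ≤ ‖F0‖ * ‖T0‖ + C₂ * Cb * ω (1 - ρ) := by
          have := norm_sub_norm_le (F1 * T1) (F0 * T0)
          rw [norm_mul, norm_mul] at this
          linarith
        have h3 : ‖F0‖ * ‖T0‖ ≤ ε * ‖F0‖ := by
          rw [mul_comm]
          exact mul_le_mul_of_nonneg_right hlt.le (norm_nonneg _)
        have h4 : ‖T1‖ ≤ 1 := hΘ.norm_le_one (by
          have := hmem r' ⟨by linarith [hr'.1], hr'.2⟩ θ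
          simpa using this)
        have h5 : ‖F1‖ ≤ M := hM _ (by
          have := hmem r' ⟨by linarith [hr'.1], hr'.2⟩ θ
          simpa using this)
        have h6 : ‖F1‖ * (1 - ‖T1‖) ≤ M * (1 - ‖T1‖) :=
          mul_le_mul_of_nonneg_right h5 (by linarith)
        nlinarith
      have hl2 : Tendsto (fun r' : ℝ => C₁ * Cb * ω (1 - ρ) +
          (C₂ * Cb * ω (1 - ρ) + ε * ‖f (ρ * exp (θ * I))‖) +
          M * (1 - ‖Θ (r' * exp (θ * I))‖)) (𝓝[<] 1) (𝓝 (C₁ * Cb * ω (1 - ρ) +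
          (C₂ * Cb * ω (1 - ρ) + ε * ‖f (ρ * exp (θ * I))‖) + M * (1 - 1))) := by
        have h1 := hlim.norm
        rw [hw] at h1
        exact ((h1.const_sub 1).const_mul M).const_add _
      have h7 := ge_of_tendsto hl2 (by
        filter_upwards [Ioo_mem_nhdsLT hz1] with r' hr'
        exact hstep r' hr')
      linarith
    -- density
    have hcl : θ₀ ∈ closure {θ : ℝ | ∃ w : ℂ, ‖w‖ = 1 ∧
        Tendsto (fun r : ℝ => Θ (r * exp (θ * I))) (𝓝[<] 1) (𝓝 w)} := by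
      have : Dense {θ : ℝ | ∃ w : ℂ, ‖w‖ = 1 ∧
        Tendsto (fun r : ℝ => Θ (r * exp (θ * I))) (𝓝[<] 1) (𝓝 w)} := Measure.dense_of_ae hΘ.2.2
      exact this θ₀
    have hz' : ‖Θ (ρ * exp (θ₀ * I))‖ < ε := by rw [hzeq]; exact hzε
    have hopen : {θ : ℝ | ‖Θ (ρ * exp (θ * I))‖ < ε} ∈ 𝓝 θ₀ :=
      (isOpen_lt hcΘ continuous_const).mem_nhds hz'
    have hclosed : IsClosed {θ : ℝ | ‖f (ρ * exp (θ * I))‖ * (1 - ε) ≤
        (C₁ + C₂) * Cb * ω (1 - ρ)} := isClosed_le (hcf.mul continuous_const) continuous_const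
    have hfin : θ₀ ∈ {θ : ℝ | ‖f (ρ * exp (θ * I))‖ * (1 - ε) ≤
        (C₁ + C₂) * Cb * ω (1 - ρ)} := by
      apply hclosed.closure_subset
      have h1 : θ₀ ∈ closure ({θ : ℝ | ∃ w : ℂ, ‖w‖ = 1 ∧
        Tendsto (fun r : ℝ => Θ (r * exp (θ * I))) (𝓝[<] 1) (𝓝 w)} ∩
        {θ : ℝ | ‖Θ (ρ * exp (θ * I))‖ < ε}) := by
        rw [mem_closure_iff_nhds] at hcl ⊢
        intro t ht
        obtain ⟨x, hx⟩ := hcl (t ∩ {θ : ℝ | ‖Θ (ρ * exp (θ * I))‖ < ε}) (inter_mem ht hopen)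
        exact ⟨x, hx.1.1, hx.2, hx.1.2⟩
      apply closure_mono _ h1
      rintro θ ⟨hθ1, hθ2⟩
      exact hgood θ hθ1 hθ2
    have h8 : ‖f (ρ * exp (θ₀ * I))‖ * (1 - ε) ≤ (C₁ + C₂) * Cb * ω (1 - ρ) := hfin
    rw [hzeq] at h8
    exact h8

/-- (ii) ⟹ (i) under both regularity conditions. -/
theorem suff_ii_i {ω : ℝ → ℝ} (hω : IsModulus ω) (haa : AlmostDecreasing ω) (hbb : DiniRegular ω)
    {f Θ : ℂ → ℂ} (hf : InB ω f) (hΘ : IsInner Θ) {ε : ℝ} (hε0 : 0 < ε) (hε1 : ε < 1)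
    (hS : SFinite ω f Θ ε) : InB ω (fun z => f z * Θ z) := by
  obtain ⟨M, hM0, hM⟩ := bdd_of_dini hω hbb hf
  obtain ⟨Cb, hb⟩ := hbb
  obtain ⟨Ca, ha⟩ := haa
  obtain ⟨C₁, r₀, hC₁, hr₀, hr₀1, hfb⟩ := hf.normal hω
  obtain ⟨S', hS'⟩ := hS
  set S : ℝ := |S'| with hSdef
  have hS0 : 0 ≤ S := abs_nonneg _
  have hSb : ∀ z : ℂ, z ≠ 0 → ‖z‖ < 1 → ‖Θ z‖ < ε → ‖f z‖ ≤ S * ω (1 - ‖z‖) := by
    intro z hz hz1 hzε
    have h1 := hS' z hz hz1 hzε
    have h2 : 0 < ω (1 - ‖z‖) := hω.pos' (by linarith) (by linarith [norm_pos_iff.2 hz])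
    rw [div_le_iff₀ h2] at h1
    exact h1.trans (mul_le_mul_of_nonneg_right (le_abs_self _) h2.le)
  have hCa : 0 < Ca := by
    have h1 := ha (1/2) (1/2) (by norm_num) le_rfl le_rfl
    have h2 : 0 < ω (1/2) := hω.pos' (by norm_num) (by norm_num)
    have h3 : 0 < ω (1/2) / (1/2) := by positivity
    by_contra hneg
    push Not at hneg
    nlinarith
  have hCb : 0 ≤ Cb := by
    have h1 := (hb (1/2) (by norm_num) le_rfl).2
    have h2 : 0 < ω (1/2) := hω.pos' (by norm_num) (by norm_num)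
    have h3 : 0 ≤ ∫ s in Set.Ioc (0:ℝ) (1/2), ω s / s := by
      apply setIntegral_nonneg measurableSet_Ioc
      intro s hs
      exact div_nonneg (hω.pos' hs.1 (by linarith [hs.2])).le hs.1.le
    by_contra hneg
    push Not at hneg
    nlinarith
  set L : ℝ := 6 + 24 * Real.log (1 / ε) with hL
  have hL6 : 6 ≤ L := by
    have : 0 ≤ Real.log (1 / ε) := Real.log_nonneg (by rw [le_div_iff₀ hε0]; linarith)
    linarith
  set R₀ : ℝ := (1 - r₀) / 16 with hR₀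
  have hR₀0 : 0 < R₀ := by rw [hR₀]; linarith
  have hR₀1 : R₀ ≤ 1 / 32 := by rw [hR₀]; linarith
  have hω2 : 0 < ω (1/2) := hω.pos' (by norm_num) (by norm_num)
  set D : ℝ := C₁ * (2 * Cb + 3 * Ca) with hD
  have hD0 : 0 ≤ D := by positivity
  set K : ℝ := S + M * L * Ca / (2 * R₀ * ω (1/2)) + (S + D) * (3 * Ca) * L with hK
  have hK1 : 0 ≤ M * L * Ca / (2 * R₀ * ω (1/2)) := by positivity
  have hK2 : 0 ≤ (S + D) * (3 * Ca) * L := by positivity
  -- main estimate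
  have hmain : ∀ z : ℂ, 1 - R₀ < ‖z‖ → ‖z‖ < 1 →
      ‖f z‖ * ((1 - ‖z‖) * ‖deriv Θ z‖) ≤ K * ω (1 - ‖z‖) := by
    intro z hz hz1
    set t : ℝ := 1 - ‖z‖ with ht
    have ht0 : 0 < t := by rw [ht]; linarith
    have htR : t < R₀ := by rw [ht]; linarith
    have hωt : 0 < ω t := hω.pos' ht0 (by linarith)
    have hz0 : z ≠ 0 := by
      rw [← norm_pos_iff]; linarith
    have hsp : t * ‖deriv Θ z‖ ≤ 1 := by
      have h1 := schwarz_pick hΘ.1 (fun w hw => hΘ.norm_le_one (by simpa using hw)) hz1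
      have h2 : t * ‖deriv Θ z‖ ≤ (1 - ‖z‖^2) * ‖deriv Θ z‖ := by
        apply mul_le_mul_of_nonneg_right _ (norm_nonneg _)
        rw [ht]; nlinarith
      nlinarith [norm_nonneg (Θ z)]
    have hnn : 0 ≤ t * ‖deriv Θ z‖ := by positivity
    by_cases hA : ‖Θ z‖ < ε
    · have h1 := hSb z hz0 hz1 hA
      calc ‖f z‖ * (t * ‖deriv Θ z‖) ≤ (S * ω t) * 1 :=
            mul_le_mul h1 hsp hnn (by positivity)
        _ ≤ K * ω t := by
            rw [mul_one]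
            apply mul_le_mul_of_nonneg_right _ hωt.le
            rw [hK]; linarith
    push Not at hA
    by_cases hB : ∀ w : ℂ, ‖w‖ < 1 → ‖w - z‖ < R₀ → ε ≤ ‖Θ w‖
    · have h1 := inner_deriv hΘ hε0 hε1.le (by linarith) hz1 hR₀0 hB
      have h2 : t ≤ Ca * ω t / (2 * ω (1/2)) := by
        have := ha t (1/2) ht0 (by linarith) le_rfl
        rw [le_div_iff₀ (by positivity)]
        rw [mul_div_assoc', le_div_iff₀ ht0] at this
        linarith
      calc ‖f z‖ * (t * ‖deriv Θ z‖) ≤ M * (L * (t / R₀)) :=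
            mul_le_mul (hM z hz1) h1 hnn hM0
        _ ≤ M * (L * ((Ca * ω t / (2 * ω (1/2))) / R₀)) := by
            apply mul_le_mul_of_nonneg_left _ hM0
            apply mul_le_mul_of_nonneg_left _ (by linarith)
            exact div_le_div_of_nonneg_right h2 hR₀0.le
        _ = M * L * Ca / (2 * R₀ * ω (1/2)) * ω t := by field_simp
        _ ≤ K * ω t := by
            apply mul_le_mul_of_nonneg_right _ hωt.le
            rw [hK]; linarith
    · push Not at hB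
      obtain ⟨w₁, hw₁1, hw₁2, hw₁3⟩ := hB
      set A : Set ℝ := {x : ℝ | ∃ w : ℂ, ‖w‖ < 1 ∧ ‖Θ w‖ < ε ∧ ‖w - z‖ = x} with hAset
      have hAne : A.Nonempty := ⟨_, w₁, hw₁1, hw₁3, rfl⟩
      have hAbdd : BddBelow A := ⟨0, by rintro x ⟨w, _, _, rfl⟩; exact norm_nonneg _⟩
      set d : ℝ := sInf A with hd
      have hd0 : 0 ≤ d := le_csInf hAne (by rintro x ⟨w, _, _, rfl⟩; exact norm_nonneg _)
      have hdR : d ≤ R₀ := (csInf_le hAbdd ⟨w₁, hw₁1, hw₁3, rfl⟩).trans hw₁2.le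
      obtain ⟨x, ⟨w, hw1, hw2, rfl⟩, hwd⟩ := exists_lt_of_csInf_lt hAne (show sInf A < d + t by linarith)
      set R : ℝ := d + 2 * t with hR
      have hRpos : 0 < R := by rw [hR]; linarith
      have hwR : ‖w - z‖ ≤ R := by rw [hR]; linarith
      have htw : 1 - ‖w‖ ≤ R := by
        have := norm_sub_norm_le z w
        rw [norm_sub_rev] at this
        rw [hR]; linarith
      have hw0 : w ≠ 0 := by
        rw [← norm_pos_iff]
        have := norm_sub_norm_le z w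
        rw [norm_sub_rev] at this
        linarith
      have hR3 : R ≤ 3 * R₀ := by rw [hR]; linarith
      have hfw : ‖f w‖ ≤ S * ω R := by
        refine (hSb w hw0 hw1 hw2).trans ?_
        apply mul_le_mul_of_nonneg_left _ hS0
        exact hω.mono' (by linarith) htw (by linarith)
      have hdiff := diff_le hω hf.1 hC₁ hfb hb ha (z := z) (w := w) hRpos (by linarith)
        (by linarith) hz1 hw1 (by rw [hR]; linarith) htw (by rw [norm_sub_rev]; exact hwR)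
      have hfz : ‖f z‖ ≤ (S + D) * ω R := by
        have := norm_sub_norm_le (f z) (f w)
        linarith
      have hωR : ω R ≤ Ca * (R / t) * ω t := by
        have h1 := ha t R ht0 (by rw [hR]; linarith) (by linarith)
        rw [div_le_iff₀ hRpos] at h1
        calc ω R ≤ Ca * (ω t / t) * R := h1
          _ = Ca * (R / t) * ω t := by ring
      -- bound for R / t * (t ‖Θ'‖)
      have hprod : (R / t) * (t * ‖deriv Θ z‖) ≤ 3 * L := by
        by_cases hdt : d ≤ t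
        · have h1 : R / t ≤ 3 := by
            rw [div_le_iff₀ ht0, hR]; linarith
          calc (R / t) * (t * ‖deriv Θ z‖) ≤ 3 * 1 := mul_le_mul h1 hsp hnn (by norm_num)
            _ ≤ 3 * L := by linarith
        · push Not at hdt
          have hdpos : 0 < d := by linarith
          have h1 := inner_deriv hΘ hε0 hε1.le (by linarith) hz1 hdpos (by
            intro v hv1 hv2
            by_contra hv3
            push Not at hv3
            have := csInf_le hAbdd ⟨v, hv1, hv3, rfl⟩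
            linarith)
          have h2 : R ≤ 3 * d := by rw [hR]; linarith
          calc (R / t) * (t * ‖deriv Θ z‖) ≤ (3 * d / t) * (L * (t / d)) :=
                mul_le_mul (div_le_div_of_nonneg_right h2 ht0.le) h1 hnn (by positivity)
            _ = 3 * L := by field_simp
      calc ‖f z‖ * (t * ‖deriv Θ z‖) ≤ ((S + D) * ω R) * (t * ‖deriv Θ z‖) :=
            mul_le_mul_of_nonneg_right hfz hnn
        _ ≤ ((S + D) * (Ca * (R / t) * ω t)) * (t * ‖deriv Θ z‖) := by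
            apply mul_le_mul_of_nonneg_right _ hnn
            exact mul_le_mul_of_nonneg_left hωR (by positivity)
        _ = (S + D) * Ca * ω t * ((R / t) * (t * ‖deriv Θ z‖)) := by ring
        _ ≤ (S + D) * Ca * ω t * (3 * L) := mul_le_mul_of_nonneg_left hprod (by positivity)
        _ = (S + D) * (3 * Ca) * L * ω t := by ring
        _ ≤ K * ω t := by
            apply mul_le_mul_of_nonneg_right _ hωt.le
            rw [hK]; linarith
  refine ⟨hf.1.mul hΘ.1, C₁ + K, max r₀ (1 - R₀), max_lt hr₀1 (by linarith), ?_⟩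
  intro z hz hz1
  have hzr : r₀ < ‖z‖ := lt_of_le_of_lt (le_max_left _ _) hz
  have hzR : 1 - R₀ < ‖z‖ := lt_of_le_of_lt (le_max_right _ _) hz
  have hzb : z ∈ ball (0:ℂ) 1 := by simpa using hz1
  have hfd : DifferentiableAt ℂ f z := hf.1.differentiableAt (isOpen_ball.mem_nhds hzb)
  have hΘd : DifferentiableAt ℂ Θ z := hΘ.1.differentiableAt (isOpen_ball.mem_nhds hzb)
  have hder : deriv (fun z => f z * Θ z) z = deriv f z * Θ z + f z * deriv Θ z := by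
    exact (hfd.hasDerivAt.mul hΘd.hasDerivAt).deriv
  rw [hder]
  have h1 := hfb z hzr hz1
  have h2 := hmain z hzR hz1
  have h3 : ‖Θ z‖ ≤ 1 := hΘ.norm_le_one hz1
  have h4 : ‖deriv f z * Θ z + f z * deriv Θ z‖ ≤ ‖deriv f z‖ * 1 + ‖f z‖ * ‖deriv Θ z‖ := by
    refine (norm_add_le _ _).trans ?_
    rw [norm_mul, norm_mul]
    exact add_le_add_left (mul_le_mul_of_nonneg_left h3 (norm_nonneg _)) _
  have h5 : 0 < 1 - ‖z‖ := by linarith
  calc ‖deriv f z * Θ z + f z * deriv Θ z‖ * (1 - ‖z‖)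
      ≤ (‖deriv f z‖ * 1 + ‖f z‖ * ‖deriv Θ z‖) * (1 - ‖z‖) :=
        mul_le_mul_of_nonneg_right h4 h5.le
    _ = ‖deriv f z‖ * (1 - ‖z‖) + ‖f z‖ * ((1 - ‖z‖) * ‖deriv Θ z‖) := by ring
    _ ≤ (C₁ + K) * ω (1 - ‖z‖) := by linarith

end Pool.Agent.Helper34.Bw
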